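import Pool.Agent.Lib.MP_1ae3da_al.H.Df

/-! The diagrams of type `E`. -/

namespace Pool.Agent.Lib.MP_1ae3da_al.JV

variable {ι M N : Type} [AddCommGroup M] [Module ℚ M] [AddCommGroup N] [Module ℚ N]
  {P : RootPairing ι ℚ M N} [P.IsCrystallographic] [Finite ι] [P.IsReduced] [P.IsRootSystem]
  {b : P.Base} {p k : ℕ} {a : ℕ → ι}

omit [Finite ι] [P.IsReduced] [P.IsRootSystem] in
theorem hDg_en {C : Matrix (Fin k) (Fin k) ℤ} (h : Ty b C) (hk : 0 < k) (π : Fin k → Fin k)
    (h1 : Function.Bijective π) (h2 : ∀ i j, C (π i) (π j) = eC k i j) : ∃ a : ℕ → ι, En b k a ∧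
      ∀ i j, i < k → j < k → P.pairingIn ℤ (a i) (a j) = eC k i j := by
  obtain ⟨e, he⟩ := h
  refine ⟨fun i => if h : i < k then e (π ⟨i, h⟩) else e ⟨0, hk⟩,
    ⟨fun i hi => ?_, fun c hc => ?_, fun i j hi hj e1 => ?_⟩, fun i j hi hj => ?_⟩
  · simp only [dif_pos hi]
    exact (e _).2
  · obtain ⟨i, hi⟩ := h1.2 (e.symm ⟨c, hc⟩)
    refine ⟨i, i.2, ?_⟩
    simp only [dif_pos i.2, Fin.eta, hi, Equiv.apply_symm_apply]
  · simp only [dif_pos hi, dif_pos hj] at e1
    exact Fin.val_eq_of_eq (h1.1 (e.injective (Subtype.ext e1)))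
  · simp only [dif_pos hi, dif_pos hj]
    exact (he _ _).trans (h2 ⟨i, hi⟩ ⟨j, hj⟩)

omit [Finite ι] [P.IsReduced] [P.IsRootSystem] in
theorem dg_en (h : (k = 6 ∧ Ty b CartanMatrix.E₆) ∨ (k = 7 ∧ Ty b CartanMatrix.E₇) ∨
    (k = 8 ∧ Ty b CartanMatrix.E₈)) : ∃ a : ℕ → ι, En b k a ∧
      ∀ i j, i < k → j < k → P.pairingIn ℤ (a i) (a j) = eC k i j := by
  rcases h with ⟨rfl, h⟩ | ⟨rfl, h⟩ | ⟨rfl, h⟩
  · exact hDg_en h (by omega) ![0, 2, 3, 4, 5, 1] (by decide) (by decide)
  · exact hDg_en h (by omega) ![0, 2, 3, 4, 5, 6, 1] (by decide) (by decide)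
  · exact hDg_en h (by omega) ![0, 2, 3, 4, 5, 6, 7, 1] (by decide) (by decide)

theorem hDg_adj {i j : ℕ} (h : eC k i j = -1) : (i + 1 = j ∧ j + 1 < k) ∨ (j + 1 = i ∧ i + 1 < k) ∨
    (i = 2 ∧ j + 1 = k) ∨ (j = 2 ∧ i + 1 = k) := by
  unfold eC at h
  by_contra hc
  rw [if_neg hc] at h
  split_ifs at h

theorem hDg_ne {i j : ℕ} (h : eC k i j = 0) : i ≠ j := by
  rintro rfl
  simp [eC] at h

theorem dg_aut (hk : k = 6 ∨ k = 7 ∨ k = 8) (f : ℕ → ℕ) (h1 : ∀ i, i < k → f i < k)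
    (h2 : ∀ i j, i < k → j < k → eC k (f i) (f j) = eC k i j) :
    (∀ i, i < k → f i = i) ∨ (k = 6 ∧ ∀ i, i < k → f i = if i < 5 then 4 - i else i) := by
  have A := fun i j hi hj (e : eC k i j = -1) => hDg_adj ((h2 i j hi hj).trans e)
  have B := fun i j hi hj (e : eC k i j = 0) => hDg_ne ((h2 i j hi hj).trans e)
  clear h1 h2
  rcases hk with rfl | rfl | rfl
  · have a12 := A 1 2 (by omega) (by omega) (by decide)
    have a23 := A 2 3 (by omega) (by omega) (by decide)
    have a25 := A 2 5 (by omega) (by omega) (by decide)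
    have b13 := B 1 3 (by omega) (by omega) (by decide)
    have b15 := B 1 5 (by omega) (by omega) (by decide)
    have b35 := B 3 5 (by omega) (by omega) (by decide)
    have c2 : f 2 = 2 := by omega
    have a01 := A 0 1 (by omega) (by omega) (by decide)
    have a34 := A 3 4 (by omega) (by omega) (by decide)
    have b02 := B 0 2 (by omega) (by omega) (by decide)
    have b24 := B 2 4 (by omega) (by omega) (by decide)
    have c1 : f 1 = 1 ∨ f 1 = 3 := by omega
    have c3 : f 3 = 1 ∨ f 3 = 3 := by omega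
    have cy : f 5 = 5 := by omega
    rcases c1 with c1 | c1
    · refine Or.inl fun i hi => ?_
      interval_cases i <;> omega
    · refine Or.inr ⟨rfl, fun i hi => ?_⟩
      interval_cases i <;> simp <;> omega
  · have a12 := A 1 2 (by omega) (by omega) (by decide)
    have a23 := A 2 3 (by omega) (by omega) (by decide)
    have a26 := A 2 6 (by omega) (by omega) (by decide)
    have b13 := B 1 3 (by omega) (by omega) (by decide)
    have b16 := B 1 6 (by omega) (by omega) (by decide)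
    have b36 := B 3 6 (by omega) (by omega) (by decide)
    have c2 : f 2 = 2 := by omega
    have a01 := A 0 1 (by omega) (by omega) (by decide)
    have a34 := A 3 4 (by omega) (by omega) (by decide)
    have a45 := A 4 5 (by omega) (by omega) (by decide)
    have b02 := B 0 2 (by omega) (by omega) (by decide)
    have b24 := B 2 4 (by omega) (by omega) (by decide)
    have b35 := B 3 5 (by omega) (by omega) (by decide)
    have c1 : f 1 = 1 ∨ f 1 = 3 := by omega
    have c3 : f 3 = 1 ∨ f 3 = 3 := by omega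
    have cy : f 6 = 6 := by omega
    have d3 : f 3 = 3 := by omega
    have d4 : f 4 = 4 := by omega
    have d5 : f 5 = 5 := by omega
    refine Or.inl fun i hi => ?_
    interval_cases i <;> omega
  · have a12 := A 1 2 (by omega) (by omega) (by decide)
    have a23 := A 2 3 (by omega) (by omega) (by decide)
    have a27 := A 2 7 (by omega) (by omega) (by decide)
    have b13 := B 1 3 (by omega) (by omega) (by decide)
    have b17 := B 1 7 (by omega) (by omega) (by decide)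
    have b37 := B 3 7 (by omega) (by omega) (by decide)
    have c2 : f 2 = 2 := by omega
    have a01 := A 0 1 (by omega) (by omega) (by decide)
    have a34 := A 3 4 (by omega) (by omega) (by decide)
    have a45 := A 4 5 (by omega) (by omega) (by decide)
    have a56 := A 5 6 (by omega) (by omega) (by decide)
    have b02 := B 0 2 (by omega) (by omega) (by decide)
    have b24 := B 2 4 (by omega) (by omega) (by decide)
    have b35 := B 3 5 (by omega) (by omega) (by decide)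
    have b46 := B 4 6 (by omega) (by omega) (by decide)
    have c1 : f 1 = 1 ∨ f 1 = 3 := by omega
    have c3 : f 3 = 1 ∨ f 3 = 3 := by omega
    have cy : f 7 = 7 := by omega
    have d3 : f 3 = 3 := by omega
    have d4 : f 4 = 4 := by omega
    have d5 : f 5 = 5 := by omega
    refine Or.inl fun i hi => ?_
    interval_cases i <;> omega

/-- the vector with the given coordinates. -/
def hDg_ev (r : ℕ → M) (v0 v1 v2 v3 v4 v5 : ℤ) : M :=
  v0 • r 0 + v1 • r 1 + v2 • r 2 + v3 • r 3 + v4 • r 4 + v5 • r 5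

omit [Finite ι] [P.IsReduced] [P.IsRootSystem] in
/-- the longest element of the Weyl group of type `E 6`. -/
theorem dg_w0 (h : ∀ i j, i < 6 → j < 6 → P.pairingIn ℤ (a i) (a j) = eC 6 i j) :
    ∃ σ ∈ P.weylGroup, ∀ i, i < 6 → ac P σ (a i) = ng P (a (if i < 5 then 4 - i else i)) := by
  obtain ⟨r, hr⟩ : ∃ r : ℕ → M, ∀ i, P.root (a i) = r i := ⟨_, fun _ => rfl⟩
  have k1 : ∀ (σ : P.Aut) (z : ℤ) (m : M), σ • z • m = z • σ • m := fun σ z m =>
    map_zsmul (RootPairing.Equiv.weightHom P σ) z m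
  have k2 : ∀ j i, j < 6 → i < 6 →
      RootPairing.Equiv.reflection P (a i) • r j = r j - eC 6 j i • r i := fun j i hj hi => by
    rw [RootPairing.Equiv.reflection_smul, ← hr, ← hr, P.reflection_apply_root' ℤ, h j i hj hi]
  have s0 : ∀ v0 v1 v2 v3 v4 v5, RootPairing.Equiv.reflection P (a 0) • hDg_ev r v0 v1 v2 v3 v4 v5 =
      hDg_ev r (-v0 + v1) v1 v2 v3 v4 v5 := fun v0 v1 v2 v3 v4 v5 => by
    simp (disch := omega) only [hDg_ev, smul_add, k1, k2]
    simp only [eC]
    norm_num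
    module
  have s1 : ∀ v0 v1 v2 v3 v4 v5, RootPairing.Equiv.reflection P (a 1) • hDg_ev r v0 v1 v2 v3 v4 v5 =
      hDg_ev r v0 (v0 - v1 + v2) v2 v3 v4 v5 := fun v0 v1 v2 v3 v4 v5 => by
    simp (disch := omega) only [hDg_ev, smul_add, k1, k2]
    simp only [eC]
    norm_num
    module
  have s2 : ∀ v0 v1 v2 v3 v4 v5, RootPairing.Equiv.reflection P (a 2) • hDg_ev r v0 v1 v2 v3 v4 v5 =
      hDg_ev r v0 v1 (v1 - v2 + v3 + v5) v3 v4 v5 := fun v0 v1 v2 v3 v4 v5 => by
    simp (disch := omega) only [hDg_ev, smul_add, k1, k2]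
    simp only [eC]
    norm_num
    module
  have s3 : ∀ v0 v1 v2 v3 v4 v5, RootPairing.Equiv.reflection P (a 3) • hDg_ev r v0 v1 v2 v3 v4 v5 =
      hDg_ev r v0 v1 v2 (v2 - v3 + v4) v4 v5 := fun v0 v1 v2 v3 v4 v5 => by
    simp (disch := omega) only [hDg_ev, smul_add, k1, k2]
    simp only [eC]
    norm_num
    module
  have s4 : ∀ v0 v1 v2 v3 v4 v5, RootPairing.Equiv.reflection P (a 4) • hDg_ev r v0 v1 v2 v3 v4 v5 =
      hDg_ev r v0 v1 v2 v3 (v3 - v4) v5 := fun v0 v1 v2 v3 v4 v5 => by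
    simp (disch := omega) only [hDg_ev, smul_add, k1, k2]
    simp only [eC]
    norm_num
    module
  have s5 : ∀ v0 v1 v2 v3 v4 v5, RootPairing.Equiv.reflection P (a 5) • hDg_ev r v0 v1 v2 v3 v4 v5 =
      hDg_ev r v0 v1 v2 v3 v4 (v2 - v5) := fun v0 v1 v2 v3 v4 v5 => by
    simp (disch := omega) only [hDg_ev, smul_add, k1, k2]
    simp only [eC]
    norm_num
    module
  obtain ⟨c, hc, e1⟩ : ∃ c ∈ P.weylGroup, ∀ v0 v1 v2 v3 v4 v5, c • hDg_ev r v0 v1 v2 v3 v4 v5 =
      hDg_ev r (-v1 + v2) (v0 - v1 + v2) (v0 - v1 + 2 * v2 - v3 + v4 - v5) (v2 - v3 + v4) (v2 - v3) (v2 - v5) := by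
    have m := fun i => P.reflection_mem_weylGroup (a i)
    refine ⟨_, mul_mem (m 0) (mul_mem (m 2) (mul_mem (m 4) (mul_mem (m 1) (mul_mem (m 3) (m 5))))),
      fun v0 v1 v2 v3 v4 v5 => ?_⟩
    rw [mul_smul, mul_smul, mul_smul, mul_smul, mul_smul, s5, s3, s1, s4, s2, s0]
    simp only [hDg_ev]
    module
  have e3 : ∀ v0 v1 v2 v3 v4 v5, (c * (c * c)) • hDg_ev r v0 v1 v2 v3 v4 v5 =
      hDg_ev r (v0 - v1 + v2 - v3) (v0 - v1 + 2 * v2 - 2 * v3 + v4 - v5) (v0 - 2 * v1 + 3 * v2 - 2 * v3 + v4 - 2 * v5) (v0 - 2 * v1 + 2 * v2 - v3 + v4 - v5) (-v1 + v2 - v3 + v4) (-v1 + 2 * v2 - v3 - v5) := fun v0 v1 v2 v3 v4 v5 => by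
    rw [mul_smul, mul_smul, e1, e1, e1]
    simp only [hDg_ev]
    module
  have e6 : ∀ v0 v1 v2 v3 v4 v5, (c * (c * c) * (c * (c * c))) • hDg_ev r v0 v1 v2 v3 v4 v5 =
      hDg_ev r (-v4) (-v3) (-v2) (-v1) (-v0) (-v5) := fun v0 v1 v2 v3 v4 v5 => by
    rw [mul_smul, e3, e3]
    simp only [hDg_ev]
    module
  have h3 := mul_mem hc (mul_mem hc hc)
  refine ⟨_, mul_mem h3 h3, fun i hi => P.root.injective ?_⟩
  refine (RootPairing.Equiv.root_indexEquiv_eq_smul P _ _).trans ?_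
  rw [P.root_reflectionPerm, P.reflection_apply_self, hr, hr]
  interval_cases i
  · simpa [hDg_ev] using e6 1 0 0 0 0 0
  · simpa [hDg_ev] using e6 0 1 0 0 0 0
  · simpa [hDg_ev] using e6 0 0 1 0 0 0
  · simpa [hDg_ev] using e6 0 0 0 1 0 0
  · simpa [hDg_ev] using e6 0 0 0 0 1 0
  · simpa [hDg_ev] using e6 0 0 0 0 0 1

omit [P.IsCrystallographic] [Finite ι] [P.IsReduced] in
theorem dg_sym (e : En b k a) {σ : P.Aut} (h1 : ∀ i, i < k → ac P σ (a i) = a i) : σ = 1 := by
  refine RootPairing.Equiv.weightHom_injective P (LinearEquiv.toLinearMap_injective ?_)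
  refine LinearMap.ext_on (s := P.root '' b.support) ?_ ?_
  · rw [b.span_root_support]
    exact RootPairing.IsRootSystem.span_root_eq_top
  · rintro _ ⟨c, hc, rfl⟩
    obtain ⟨i, hi, rfl⟩ := e.sur c hc
    have := RootPairing.Equiv.root_indexEquiv_eq_smul P (a i) σ
    rw [show σ.indexEquiv (a i) = a i from h1 i hi] at this
    rw [map_one]
    exact this.symm

end Pool.Agent.Lib.MP_1ae3da_al.JV
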