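import Pool.Agent.Lib.MP_1ae3da_al.H.Dl
import Pool.Agent.Lib.MP_1ae3da_al.E.Df

/-! The parabolic subgroup of type `A`. -/

namespace Pool.Agent.Lib.MP_1ae3da_al.JV

open SLI JM CT.A

variable {ι M N K X : Type} [AddCommGroup M] [Module ℚ M] [AddCommGroup N] [Module ℚ N]
  {P : RootPairing ι ℚ M N} [Field K] [Group X] {x : ι → K → X} [P.IsCrystallographic]
  [Finite ι] [P.IsReduced] [P.IsRootSystem] [Finite K] [Finite X] {b : P.Base} {p r k j : ℕ}
  {a : ℕ → ι} {U : Sylow r X}

section far
omit [P.IsRootSystem] [Finite K] [Finite X]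

/-- two orthogonal simple roots have no mixed combination that is a positive root. -/
theorem hWa_pos {c c' d : ι} (hc : c ∈ b.support) (hc' : c' ∈ b.support)
    (h1 : P.pairing c c' = 0) (h2 : P.pairing c' c = 0) {i l : ℚ} (hi : i ≠ 0) (hl : l ≠ 0)
    (e : P.root d = i • P.root c + l • P.root c') : ¬ b.IsPos d := fun hd => by
  have p1 : P.pairing d c = i * 2 := by
    rw [← P.root_coroot'_eq_pairing, e, map_add, map_smul, map_smul, P.root_coroot'_eq_pairing,
      P.root_coroot'_eq_pairing, h2, P.pairing_same]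
    simp
  have p2 : P.pairing d c' = l * 2 := by
    rw [← P.root_coroot'_eq_pairing, e, map_add, map_smul, map_smul, P.root_coroot'_eq_pairing,
      P.root_coroot'_eq_pairing, h1, P.pairing_same]
    simp
  have n1 : d ≠ c' := fun q => by
    rw [q, h2] at p1
    exact hi (by linarith)
  have n2 : P.reflectionPerm c' d ≠ c := fun q => by
    have : d = c := by
      rw [← P.reflectionPerm_self c' d, q, P.reflectionPerm_eq_of_pairing_eq_zero h1]
    rw [this, h1] at p2
    exact hl (by linarith)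
  have q1 := (hd.reflectionPerm hc' n1).reflectionPerm hc n2
  have q2 : P.reflectionPerm c (P.reflectionPerm c' d) = P.reflectionPerm d d := by
    apply P.root.injective
    rw [P.root_reflectionPerm d, P.reflection_apply_self]
    simp only [RootPairing.root_reflectionPerm, RootPairing.reflection_apply_self, e, map_add,
      map_smul, RootPairing.reflection_apply_root, h1, h2, map_neg, zero_smul, sub_zero]
    module
  rw [q2] at q1
  exact (RootPairing.Base.IsPos.neg_iff_not b d).1 q1 hd

theorem hWa_no {c c' d : ι} (hc : c ∈ b.support) (hc' : c' ∈ b.support)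
    (h1 : P.pairing c c' = 0) (h2 : P.pairing c' c = 0) {i l : ℚ} (hi : i ≠ 0) (hl : l ≠ 0) :
    P.root d ≠ i • P.root c + l • P.root c' := fun e => by
  rcases RootPairing.Base.IsPos.or_neg b d with q | q
  · exact hWa_pos hc hc' h1 h2 hi hl e q
  · refine hWa_pos (d := P.reflectionPerm d d) hc hc' h1 h2 (neg_ne_zero.2 hi) (neg_ne_zero.2 hl)
      ?_ q
    rw [RootPairing.root_reflectionPerm, RootPairing.reflection_apply_self, e]
    module

theorem hWa_cm (h : Chv x b) {c c' d d' : ι} (hc : c ∈ b.support) (hc' : c' ∈ b.support)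
    (h1 : P.pairing c c' = 0) (h2 : P.pairing c' c = 0) {i l : ℚ} (hi : i ≠ 0) (hl : l ≠ 0)
    (e : P.root d = i • P.root c) (e' : P.root d' = l • P.root c') (s t : K) :
    Commute (x d s) (x d' t) := by
  have q := h.cm d d' (fun q => by
    have := congrArg (P.coroot' c) q
    rw [e, e', map_neg, map_smul, map_smul, P.root_coroot'_eq_pairing, P.root_coroot'_eq_pairing,
      h2, P.pairing_same, smul_eq_mul, smul_eq_mul] at this
    exact hi (by linarith)) s t
  have z : {g | ∃ (f : ι) (u : K) (i j : ℕ), 0 < i ∧ 0 < j ∧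
      P.root f = i • P.root d + j • P.root d' ∧ g = x f u} = ∅ := by
    refine Set.eq_empty_of_forall_notMem ?_
    rintro g ⟨f, u, m, m', a1, a2, a3, -⟩
    refine hWa_no (d := f) hc hc' h1 h2 (mul_ne_zero (Nat.cast_ne_zero.2 a1.ne') hi)
      (mul_ne_zero (Nat.cast_ne_zero.2 a2.ne') hl) ?_
    rw [a3, e, e']
    module
  rw [z, Subgroup.closure_empty, Subgroup.mem_bot] at q
  exact commutatorElement_eq_one_iff_commute.1 q

theorem hWa_far (h : Chv x b) {c c' : ι} (hc : c ∈ b.support) (hc' : c' ∈ b.support)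
    (h1 : P.pairing c c' = 0) (h2 : P.pairing c' c = 0) (s t : Kˣ) :
    Commute (wv P x c s) (wv P x c' t) := by
  have e1 : ∀ d, P.root d = (1 : ℚ) • P.root d := fun d => (one_smul _ _).symm
  have e2 : ∀ d, P.root (P.reflectionPerm d d) = (-1 : ℚ) • P.root d := fun d => by simp
  have o : (-1 : ℚ) ≠ 0 := by norm_num
  have q1 := hWa_cm h hc hc' h1 h2 one_ne_zero one_ne_zero (e1 c) (e1 c')
  have q2 := hWa_cm h hc hc' h1 h2 one_ne_zero o (e1 c) (e2 c')
  have q3 := hWa_cm h hc hc' h1 h2 o one_ne_zero (e2 c) (e1 c')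
  have q4 := hWa_cm h hc hc' h1 h2 o o (e2 c) (e2 c')
  have q5 : ∀ u, Commute (x c u) (wv P x c' t) := fun u =>
    ((q1 _ _).mul_right (q2 _ _)).mul_right (q1 _ _)
  have q6 : ∀ u, Commute (x (P.reflectionPerm c c) u) (wv P x c' t) := fun u =>
    ((q3 _ _).mul_right (q4 _ _)).mul_right (q3 _ _)
  exact ((q5 _).mul_left (q6 _)).mul_left (q5 _)

end far

/-- the weights of the natural representation. -/
def hWaL (P : RootPairing ι ℚ M N) (a : ℕ → ι) (v : M) : ℕ → M
  | 0 => v
  | m + 1 => hWaL P a v m - P.root (a m)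

omit [Finite ι] [P.IsReduced] [P.IsRootSystem] in
theorem hWa_pr (hc : ∀ i l, i < j → l < j → P.pairingIn ℤ (a i) (a l) =
      if i = l then 2 else if i + 1 = l ∨ l + 1 = i then -1 else 0) {v : M}
    (hv : ∀ i, i < j → P.coroot' (a i) v = if i = 0 then 1 else 0) {i : ℕ} (hi : i < j) :
    ∀ m, m ≤ j → P.coroot' (a i) (hWaL P a v m) =
      if i = m then 1 else if i + 1 = m then -1 else 0 := by
  intro m
  induction m with
  | zero => intro _; rw [hWaL, hv i hi]; simp
  | succ m ih =>
    intro hm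
    rw [hWaL, map_sub, ih (by omega), P.root_coroot'_eq_pairing, ← P.algebraMap_pairingIn ℤ,
      hc m i (by omega) hi]
    split_ifs <;> first | omega | norm_num

omit [Finite ι] [P.IsReduced] in
theorem hWa_ge (e : En b k a) (jk : j ≤ k)
    (hc : ∀ i l, i < j → l < j → P.pairingIn ℤ (a i) (a l) =
      if i = l then 2 else if i + 1 = l ∨ l + 1 = i then -1 else 0) (H : Subgroup P.Aut) [Finite H]
    (hH : ∀ i, i < j → RootPairing.Equiv.reflection P (a i) ∈ H) :
    (j + 1).factorial ≤ Nat.card H := by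
  classical
  obtain ⟨v, hv⟩ : ∃ v : M, ∀ i, i < j → P.coroot' (a i) v = if i = 0 then 1 else 0 := by
    rcases Nat.eq_zero_or_pos j with rfl | j0
    · exact ⟨0, fun i hi => by omega⟩
    · refine ⟨P.toPerfPair.symm (b.toCoweightBasis.coord ⟨a 0, e.mem 0 (by omega)⟩),
        fun i hi => ?_⟩
      have q : P.coroot (a i) = b.toCoweightBasis ⟨a i, e.mem i (by omega)⟩ := by simp
      change P.toPerfPair _ (P.coroot (a i)) = _
      rw [LinearEquiv.apply_symm_apply, q, Module.Basis.coord_apply, Module.Basis.repr_self,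
        Finsupp.single_apply]
      refine if_congr ⟨fun q => e.inj i 0 (by omega) (by omega) (congrArg Subtype.val q), ?_⟩ rfl rfl
      rintro rfl
      rfl
  have pr := fun i hi => hWa_pr hc hv (i := i) hi
  have inj : ∀ m m' : Fin (j + 1), hWaL P a v m = hWaL P a v m' → m = m' := fun m m' q => by
    by_contra hne
    wlog lt : (m : ℕ) < m' generalizing m m'
    · exact this m' m q.symm (Ne.symm hne) (by have := Fin.val_ne_of_ne hne; omega)
    have a1 := pr (m' - 1) (by omega) m (by omega)
    have a2 := pr (m' - 1) (by omega) m' (by omega)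
    rw [q, a2] at a1
    split_ifs at a1 <;> first | omega | norm_num at a1
  have key : ∀ π : Equiv.Perm (Fin (j + 1)), ∃ g : H, ∀ m : Fin (j + 1),
      (g : P.Aut) • hWaL P a v m = hWaL P a v (π m) := fun π => by
    have hπ : π ∈ Submonoid.closure
        (Set.range fun i : Fin j => Equiv.swap i.castSucc i.succ) := by
      rw [Equiv.Perm.mclosure_swap_castSucc_succ]; trivial
    induction hπ using Submonoid.closure_induction with
    | mem π hπ =>
      obtain ⟨i, rfl⟩ := hπ
      refine ⟨⟨_, hH i i.2⟩, fun m => ?_⟩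
      rw [RootPairing.Equiv.reflection_smul, P.reflection_apply, pr i i.2 m (by omega),
        Equiv.swap_apply_def]
      by_cases c1 : m = i.castSucc
      · subst c1
        simp [hWaL]
      · by_cases c2 : m = i.succ
        · subst c2
          simp [hWaL, c1]
        · have d1 : (i : ℕ) ≠ m := fun q => c1 (Fin.ext q.symm)
          have d2 : (i : ℕ) + 1 ≠ m := fun q => c2 (Fin.ext q.symm)
          simp [c1, c2, d1, d2]
    | one => exact ⟨1, fun m => one_smul _ _⟩
    | mul π π' _ _ q q' =>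
      obtain ⟨g, hg⟩ := q
      obtain ⟨g', hg'⟩ := q'
      exact ⟨g * g', fun m => by rw [Subgroup.coe_mul, mul_smul, hg', hg, Equiv.Perm.mul_apply]⟩
  choose g hg using key
  have := Nat.card_le_card_of_injective g fun π π' q => Equiv.ext fun m => inj _ _ (by
    rw [← hg, ← hg, q])
  rwa [Nat.card_perm, Nat.card_eq_fintype_card, Fintype.card_fin] at this

theorem Chv.wa (h : Chv x b) (hK : Big K) (e : En b k a) (jk : j ≤ k)
    (hc : ∀ i l, i < j → l < j → P.pairingIn ℤ (a i) (a l) =
      if i = l then 2 else if i + 1 = l ∨ l + 1 = i then -1 else 0) :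
    WA j (Subgroup.closure ((TT P x : Set X) ∪ (fun i => wv P x (a i) 1) '' Set.Iio j)) (TT P x)
      fun i => wv P x (a i) 1 := by
  have hn : ∀ i, wv P x (a i) 1 ∈ NN P x := fun i => Subgroup.subset_closure ⟨_, _, rfl⟩
  have le : Subgroup.closure ((TT P x : Set X) ∪ (fun i => wv P x (a i) 1) '' Set.Iio j) ≤
      NN P x := by
    rw [Subgroup.closure_le]
    rintro g (hg | ⟨i, -, rfl⟩)
    exacts [T_le hg, hn i]
  have br : Brd j fun i => wv P x (a i) 1 := by
    refine ⟨fun i l h1 h2 => ?_, fun i h1 => ?_⟩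
    · refine hWa_far h (e.mem i (by omega)) (e.mem l (by omega)) ?_ ?_ 1 1
      · rw [← P.algebraMap_pairingIn ℤ, hc i l (by omega) h2, if_neg (by omega),
          if_neg (by omega), map_zero]
      · rw [← P.algebraMap_pairingIn ℤ, hc l i h2 (by omega), if_neg (by omega),
          if_neg (by omega), map_zero]
    · refine h.br _ (e.mem i (by omega)) _ (e.mem (i + 1) (by omega)) ?_ ?_
      · rw [hc i (i + 1) (by omega) h1, if_neg (by omega), if_pos (Or.inl rfl)]
      · rw [hc (i + 1) i h1 (by omega), if_neg (by omega), if_pos (Or.inr rfl)]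
  refine ⟨fun g hg => Subgroup.subset_closure (Or.inl hg), le.trans h.T_nrm,
    fun i hi => Subgroup.subset_closure (Or.inr ⟨i, hi, rfl⟩), fun i _ => h.w_sq _, br, le_rfl, ?_⟩
  obtain ⟨φ, f1, -, f3⟩ := h.hom hK
  let s : ℕ → P.Aut := fun i => φ ⟨_, hn i⟩
  have hs : ∀ i, s i = RootPairing.Equiv.reflection P (a i) := fun i =>
    h.act_uq hK (f1 ⟨_, hn i⟩) (h.act_w _ _)
  obtain ⟨c1, c2⟩ := card_leA j s
    (fun i _ => by rw [← map_mul]; exact (f3 _).2 (h.w_sq _))
    ⟨fun i l h1 h2 => by
      rw [← map_mul, ← map_mul]; exact congrArg φ (Subtype.ext (br.far i l h1 h2)),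
    fun i h1 => by
      rw [← map_mul, ← map_mul, ← map_mul, ← map_mul]; exact congrArg φ (Subtype.ext (br.br i h1))⟩
  have c3 := hWa_ge e jk hc (Subgroup.closure (s '' Set.Iio j))
    fun i hi => Subgroup.subset_closure ⟨i, hi, hs i⟩
  have k1 : (TT P x).subgroupOf _ = (φ.comp (Subgroup.inclusion le)).ker :=
    Subgroup.ext fun g => (f3 (Subgroup.inclusion le g)).symm
  have k2 : (φ.comp (Subgroup.inclusion le)).range = Subgroup.closure (s '' Set.Iio j) := by
    apply le_antisymm
    · rintro _ ⟨⟨g, hg⟩, rfl⟩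
      induction hg using Subgroup.closure_induction with
      | mem g hg =>
        rcases hg with hg | ⟨i, hi, rfl⟩
        · rw [MonoidHom.comp_apply, (f3 _).2 hg]
          exact one_mem _
        · exact Subgroup.subset_closure ⟨i, hi, rfl⟩
      | one => exact (map_one (φ.comp (Subgroup.inclusion le))) ▸ one_mem _
      | mul y z hy hz q q' =>
        exact (map_mul (φ.comp (Subgroup.inclusion le)) ⟨y, hy⟩ ⟨z, hz⟩) ▸ mul_mem q q'
      | inv y hy q => exact (map_inv (φ.comp (Subgroup.inclusion le)) ⟨y, hy⟩) ▸ inv_mem q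
    · rw [Subgroup.closure_le]
      rintro _ ⟨i, hi, rfl⟩
      exact ⟨⟨_, Subgroup.subset_closure (Or.inr ⟨i, hi, rfl⟩)⟩, rfl⟩
  rw [Subgroup.relIndex, k1, Subgroup.index_ker, k2]
  exact le_antisymm c2 c3

end Pool.Agent.Lib.MP_1ae3da_al.JV
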