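import Pool.Agent.Lib.MP_1ae3da_al.H.Df

/-! The number of roots in types `F 4` and `E 6`. -/

namespace Pool.Agent.Lib.MP_1ae3da_al.JV

variable {ι M N : Type} [AddCommGroup M] [Module ℚ M] [AddCommGroup N] [Module ℚ N]
  {P : RootPairing ι ℚ M N} [P.IsCrystallographic] [Finite ι] [P.IsReduced] [P.IsRootSystem]
  {b : P.Base} {p k : ℕ} {a : ℕ → ι}

/-- a simple reflection in coordinates. -/
def hCt_s {m : ℕ} (C : Matrix (Fin m) (Fin m) ℤ) (j : Fin m) (v : Fin m → ℤ) : Fin m → ℤ :=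
  fun k => v k - v j * C j k

/-- every entry of the list is a row of `C` or a reflection of a later entry. -/
def hCt_gen {m : ℕ} (C : Matrix (Fin m) (Fin m) ℤ) : List (Fin m → ℤ) → Bool
  | [] => true
  | v :: L => hCt_gen C L && decide (∃ j, v = C j ∨ ∃ u ∈ L, v = hCt_s C j u)

omit [Finite ι] [P.IsReduced] [P.IsRootSystem] in
theorem hCt_pr (c j k : ι) : P.pairingIn ℤ (P.reflectionPerm j c) k =
    P.pairingIn ℤ c k - P.pairingIn ℤ c j * P.pairingIn ℤ j k := by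
  have := P.pairingIn_eq_add_of_root_eq_smul_add_smul (S := ℤ) (i := c) (l := j) (j := k)
    (k := P.reflectionPerm j c) (x := 1) (y := -P.pairingIn ℤ c j) (by
      rw [P.root_reflectionPerm, P.reflection_apply_root' ℤ, one_smul, neg_smul, sub_eq_add_neg])
  rw [this, one_smul, smul_eq_mul, neg_mul, sub_eq_add_neg]

theorem hCt_card {m : ℕ} {C : Matrix (Fin m) (Fin m) ℤ} (h : Ty b C) (L : List (Fin m → ℤ))
    (h0 : L.Nodup) (h1 : ∀ j, C j ∈ L) (h2 : ∀ v ∈ L, -v ∈ L ∧ ∀ j, hCt_s C j v ∈ L)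
    (h3 : hCt_gen C L = true) : Nat.card ι = L.length := by
  obtain ⟨e, he⟩ := h
  let φ : ι → Fin m → ℤ := fun c k => P.pairingIn ℤ c (e k)
  have hi : Function.Injective φ := fun c d hc => b.injective_pairingIn <| funext fun k => by
    simpa [φ] using congrFun hc (e.symm k)
  have hr : ∀ j, φ (e j) = C j := fun j => funext fun k => he j k
  have hs : ∀ c j, φ (P.reflectionPerm (e j) c) = hCt_s C j (φ c) := fun c j =>
    funext fun k => by simp only [φ, hCt_s, hCt_pr, ← he]; rfl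
  have s1 : ∀ c, φ c ∈ L := fun c => by
    refine b.induction_reflect c (p := fun c => φ c ∈ L) (fun i hi => ?_) (fun i hi => ?_)
      fun i j hi hj => ?_
    · have : φ (P.reflectionPerm i i) = -φ i := funext fun k => by simp [φ]
      exact this ▸ (h2 _ hi).1
    · have := h1 (e.symm ⟨i, hi⟩)
      rwa [← hr, e.apply_symm_apply] at this
    · have := (h2 _ hi).2 (e.symm ⟨j, hj⟩)
      rwa [← hs, e.apply_symm_apply] at this
  have s2 : ∀ L : List (Fin m → ℤ), hCt_gen C L = true → ∀ v ∈ L, v ∈ Set.range φ := by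
    intro L
    induction L with
    | nil => simp
    | cons w L ih =>
      intro g v hv
      rw [hCt_gen, Bool.and_eq_true, decide_eq_true_eq] at g
      rcases List.mem_cons.1 hv with rfl | hv
      · obtain ⟨j, k | ⟨u, hu, k⟩⟩ := g.2
        · exact ⟨_, (hr j).trans k.symm⟩
        · obtain ⟨c, rfl⟩ := ih g.1 u hu
          exact ⟨_, (hs c j).trans k.symm⟩
      · exact ih g.1 v hv
  have : Set.range φ = (L.toFinset : Set _) := Set.ext fun v =>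
    ⟨fun ⟨c, hc⟩ => by simpa using hc ▸ s1 c, fun hv => s2 L h3 v (by simpa using hv)⟩
  rw [← Nat.card_range_of_injective hi, this, Nat.card_coe_set_eq, Set.ncard_coe_finset,
    List.toFinset_card_of_nodup h0]

theorem ct_f4 (h : Ty b CartanMatrix.F₄) : Nat.card ι = 48 :=
  hCt_card h
    [![0, 0, 0, -1], ![-1, 0, 0, 0], ![0, 0, -1, 1], ![0, 0, 0, 1], ![1, 0, 0, 0], ![1, -1, 0, 0],
     ![0, -1, 1, 0], ![0, 0, 1, -1], ![-1, 1, 0, 0], ![0, 1, -2, 0], ![-1, 1, -1, 0],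
     ![0, 1, -1, 0], ![0, -1, 2, 0], ![0, -1, 2, -2], ![1, 0, -1, 0], ![-1, 0, 1, -1],
     ![1, -1, 1, 0], ![0, 1, -2, 2], ![-1, 1, 0, -2], ![0, -1, 0, 2], ![1, -1, 1, -1],
     ![-1, 0, 0, 1], ![-1, 0, 1, 0], ![1, 0, -1, 1], ![1, 0, 0, -2], ![1, -1, 0, 2],
     ![0, 1, 0, -2], ![-1, 1, -2, 2], ![0, 1, -1, -1], ![1, -1, 0, 1], ![-1, 1, -1, 1],
     ![1, 0, 0, -1], ![-1, 0, 0, 2], ![1, 0, -2, 2], ![1, -1, 2, -2], ![-1, -1, 2, 0],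
     ![0, 0, 1, -2], ![0, -1, 1, 1], ![0, 1, -2, 1], ![-1, 1, 0, -1], ![-1, 0, 2, -2],
     ![1, -2, 2, 0], ![1, 1, -2, 0], ![-2, 1, 0, 0], ![0, 0, -1, 2], ![0, -1, 2, -1],
     ![-1, 2, -2, 0], ![2, -1, 0, 0]]
    (by decide +kernel) (by decide +kernel) (by decide +kernel) (by decide +kernel)

theorem ct_e6 (h : Ty b CartanMatrix.E₆) : Nat.card ι = 72 :=
  hCt_card h
    [![0, -1, 0, 0, 0, 0], ![0, 1, 0, 0, 0, 0], ![0, 1, 0, -1, 0, 0], ![0, -1, 0, 1, 0, 0],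
     ![0, 0, -1, 1, -1, 0], ![0, 0, 1, -1, 1, 0], ![-1, 0, 1, 0, -1, 0], ![0, 0, -1, 0, 1, -1],
     ![1, 0, 0, 0, -1, 0], ![1, 0, -1, 0, 1, 0], ![0, 0, 1, 0, -1, 1], ![-1, 0, 1, -1, 1, -1],
     ![0, 0, -1, 0, 0, 1], ![-1, 0, 0, 0, 1, 0], ![1, 0, 0, -1, 1, -1], ![1, 0, -1, 1, -1, 1],
     ![0, 0, 1, 0, 0, -1], ![-1, -1, 0, 1, 0, -1], ![-1, 0, 1, -1, 0, 1], ![-1, 0, 0, 1, -1, 1],
     ![1, -1, -1, 1, 0, -1], ![1, 0, 0, -1, 0, 1], ![1, 1, 0, -1, 0, 1], ![1, 0, -1, 1, 0, -1],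
     ![-1, 1, 0, 0, 0, -1], ![-1, -1, 0, 1, -1, 1], ![1, 1, -1, 0, 0, -1], ![-1, 1, 1, -1, 0, 1],
     ![-1, 0, 0, 1, 0, -1], ![0, -1, 1, 0, 0, -1], ![1, -1, -1, 1, -1, 1], ![1, -1, 0, 0, 0, 1],
     ![1, 1, 0, -1, 1, -1], ![-1, 1, 0, 0, -1, 1], ![-1, -1, 0, 0, 1, 0], ![0, 1, 1, -1, 0, -1],
     ![-1, -1, 1, 0, 0, 1], ![1, 1, -1, 0, -1, 1], ![0, 1, -1, 0, 0, 1], ![-1, 1, 1, -1, 1, -1],
     ![0, -1, 1, 0, -1, 1], ![1, -1, -1, 0, 1, 0], ![1, -1, 0, 0, 1, -1], ![1, 1, 0, 0, -1, 0],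
     ![-1, 1, 0, -1, 1, 0], ![0, 0, 0, 1, -1, -1], ![0, -1, -1, 1, 0, 1], ![0, 1, 1, -1, -1, 1],
     ![-1, -1, 1, 0, 1, -1], ![1, 1, -1, -1, 1, 0], ![0, 1, -1, 0, 1, -1], ![-1, 1, 1, 0, -1, 0],
     ![0, -1, 1, -1, 1, 0], ![1, -1, 0, 1, -1, 0], ![-1, 0, -1, 1, 0, 0], ![0, 0, 0, 0, 1, -2],
     ![0, 0, 0, -1, 1, 1], ![0, 0, 0, 1, -2, 1], ![0, -1, -1, 1, 1, -1], ![0, 1, 1, -2, 1, 0],
     ![-1, -1, 1, 1, -1, 0], ![1, 0, -2, 1, 0, 0], ![0, 1, -1, 1, -1, 0], ![0, -2, 0, 1, 0, 0],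
     ![1, 0, 1, -1, 0, 0], ![-2, 0, 1, 0, 0, 0], ![0, 0, 0, 0, -1, 2], ![0, 0, 0, -1, 2, -1],
     ![0, -1, -1, 2, -1, 0], ![-1, 0, 2, -1, 0, 0], ![0, 2, 0, -1, 0, 0], ![2, 0, -1, 0, 0, 0]]
    (by decide +kernel) (by decide +kernel) (by decide +kernel) (by decide +kernel)

end Pool.Agent.Lib.MP_1ae3da_al.JV
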