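import Pool.Agent.Lib.MP_1ae3da_al.H.Mk
import Pool.Agent.Lib.MP_1ae3da_al.H.Ct

/-! The order of the exceptional Weyl groups. -/

namespace Pool.Agent.Lib.MP_1ae3da_al.JV

variable {ι M N : Type} [AddCommGroup M] [Module ℚ M] [AddCommGroup N] [Module ℚ N]
  {P : RootPairing ι ℚ M N} [P.IsCrystallographic] [Finite ι] [P.IsReduced] [P.IsRootSystem]
  {b : P.Base} {p k : ℕ} {a : ℕ → ι}

omit [P.IsCrystallographic] [Finite ι] [P.IsReduced] in
theorem vWy_inj : Function.Injective P.weylGroupToPerm := by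
  intro g h e
  apply Subtype.ext
  apply RootPairing.Equiv.weightHom_injective P
  apply LinearEquiv.toLinearMap_injective
  refine LinearMap.ext_on_range (RootPairing.IsRootSystem.span_root_eq_top (P := P)) fun i => ?_
  have h1 := P.weylGroup_apply_root g i
  have h2 := P.weylGroup_apply_root h i
  rw [e, ← h2] at h1
  exact h1

omit [P.IsReduced] in
theorem wy_fin : Finite P.weylGroup := Finite.of_injective _ vWy_inj

omit [Finite ι] [P.IsReduced] in
theorem vWy_dim {m : ℕ} {C : Matrix (Fin m) (Fin m) ℤ} (h : Ty b C) :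
    Module.Finite ℚ M ∧ Module.finrank ℚ M = m := by
  obtain ⟨e, -⟩ := h
  refine ⟨Module.Finite.of_basis b.toWeightBasis, ?_⟩
  rw [Module.finrank_eq_card_basis b.toWeightBasis, ← Fintype.card_congr e, Fintype.card_fin]

omit [P.IsCrystallographic] [Finite ι] [P.IsReduced] [P.IsRootSystem] in
theorem vWy_w :
    Function.Injective ((RootPairing.Equiv.weightHom P).domRestrict P.weylGroup) :=
  fun _ _ e => Subtype.ext (RootPairing.Equiv.weightHom_injective P e)

theorem wy_sq {m : ℕ} {C : Matrix (Fin m) (Fin m) ℤ} (h : Ty b C) (hp : p.Prime)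
    (hm : m < 2 * (p - 1)) : ¬ p ^ 2 ∣ Nat.card P.weylGroup := by
  obtain ⟨hf, hd⟩ := vWy_dim h
  have := wy_fin (P := P)
  intro hh
  have := mk_sq hp _ (vWy_w (P := P)) hh
  omega

theorem wy_dvd {m : ℕ} {C : Matrix (Fin m) (Fin m) ℤ} (h : Ty b C) (hp : p.Prime)
    (hd : p ∣ Nat.card P.weylGroup) : p - 1 ≤ m ∧ (m = p - 1 → p ∣ Nat.card ι) := by
  classical
  obtain ⟨hf, hr⟩ := vWy_dim h
  have := wy_fin (P := P)
  have := Fact.mk hp
  obtain ⟨g, hg⟩ := exists_prime_orderOf_dvd_card' p hd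
  have g1 : g ≠ 1 := fun e => hp.one_lt.ne (by rw [← hg, e, orderOf_one])
  have gp : g ^ p = 1 := by rw [← hg, pow_orderOf_eq_one]
  obtain ⟨h1, h2⟩ := mk_ord (M := M) hp
    (g := (RootPairing.Equiv.weightHom P).domRestrict P.weylGroup g)
    (fun e => g1 (vWy_w (e.trans (map_one _).symm))) (by rw [← map_pow, gp, map_one])
  refine ⟨hr ▸ h1, fun hm => ?_⟩
  have := Fintype.ofFinite ι
  have hσ : (P.weylGroupToPerm g) ^ p ^ 1 = 1 := by rw [pow_one, ← map_pow, gp, map_one]
  by_contra hn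
  rw [Nat.card_eq_fintype_card] at hn
  obtain ⟨i, hi⟩ := Equiv.Perm.exists_fixed_point_of_prime hn hσ
  have h3 := P.weylGroup_apply_root g i
  rw [hi] at h3
  exact P.ne_zero i (h2 (hr.trans hm) _ h3)

end Pool.Agent.Lib.MP_1ae3da_al.JV
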