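import Pool.Agent.Lib.MP_1ae3da_al.H.Bv
import Pool.Agent.Lib.MP_1ae3da_al.H.Wa
import Pool.Agent.Lib.MP_1ae3da_al.H.Dg
import Pool.Agent.Lib.MP_1ae3da_al.H.Wy

/-! Type `E`. -/

namespace Pool.Agent.Lib.MP_1ae3da_al.JV

open SLI JM CT.A

theorem hTe_eC (k i j : ℕ) : (i = j ∧ eC k i j = 2) ∨
    (i ≠ j ∧ ((eC k i j = -1 ∧ eC k j i = -1) ∨ (eC k i j = 0 ∧ eC k j i = 0))) := by
  unfold eC
  split_ifs <;> omega

section root

variable {ι M N : Type} [AddCommGroup M] [Module ℚ M] [AddCommGroup N] [Module ℚ N]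
  {P : RootPairing ι ℚ M N}

theorem hTe_mul (σ τ : P.Aut) (c : ι) : ac P (σ * τ) c = ac P σ (ac P τ c) := by
  simp only [ac, map_mul]
  rfl

theorem hTe_one (c : ι) : ac P 1 c = c := by
  simp only [ac, map_one]
  rfl

theorem hTe_rf (c d : ι) : ac P (RootPairing.Equiv.reflection P c) d = P.reflectionPerm c d := rfl

theorem hTe_ng (c : ι) : ng P (ng P c) = c := by
  letI := P.indexNeg
  exact neg_neg c

variable [P.IsCrystallographic]

theorem hTe_pr {c d : ι} {z : ℤ} (h : P.pairingIn ℤ c d = z) : P.pairing c d = z := by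
  rw [← P.algebraMap_pairingIn ℤ, h]
  rfl

/-- two simple reflections are different. -/
theorem hTe_ne {c d : ι} {z : ℤ} (hz : z = -1 ∨ z = 0) (h1 : P.pairingIn ℤ c d = z)
    (h2 : P.pairingIn ℤ d c = z) :
    RootPairing.Equiv.reflection P c * RootPairing.Equiv.reflection P d ≠ 1 := fun e => by
  have e1 := congrArg (fun σ => P.coroot' d (P.root (ac P σ d))) e
  simp only [hTe_mul, hTe_one, hTe_rf, RootPairing.root_reflectionPerm,
    RootPairing.reflection_apply_self, map_neg, RootPairing.reflection_apply_root, map_sub,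
    map_smul, RootPairing.root_coroot'_eq_pairing, RootPairing.pairing_same, hTe_pr h1,
    hTe_pr h2] at e1
  rcases hz with rfl | rfl <;> norm_num at e1

/-- two joined simple reflections do not commute. -/
theorem hTe_nc {c d : ι} (h1 : P.pairingIn ℤ c d = -1) (h2 : P.pairingIn ℤ d c = -1) :
    (RootPairing.Equiv.reflection P c * RootPairing.Equiv.reflection P d) ^ 2 ≠ 1 := fun e => by
  have e1 := congrArg (fun σ => P.coroot' d (P.root (ac P σ d))) e
  simp only [pow_two, hTe_mul, hTe_one, hTe_rf, RootPairing.root_reflectionPerm,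
    RootPairing.reflection_apply_self, map_neg, RootPairing.reflection_apply_root, map_sub,
    map_smul, RootPairing.root_coroot'_eq_pairing, RootPairing.pairing_same, hTe_pr h1,
    hTe_pr h2] at e1
  norm_num at e1

end root

variable {ι M N K X : Type} [AddCommGroup M] [Module ℚ M] [AddCommGroup N] [Module ℚ N]
  {P : RootPairing ι ℚ M N} [Field K] [Group X] {x : ι → K → X} [P.IsCrystallographic]
  [Finite ι] [P.IsReduced] [P.IsRootSystem] [Finite K] [Finite X] {b : P.Base} {p r k j : ℕ}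
  {a : ℕ → ι} {U : Sylow r X}

omit [P.IsCrystallographic] [Finite ι] [P.IsReduced] [P.IsRootSystem] [Finite K] [Finite X] in
theorem hTe_w (c : ι) (s : Kˣ) : wv P x c s ∈ NN P x := Subgroup.subset_closure ⟨c, s, rfl⟩

omit [Finite X] in
/-- a power of a product of two lifts lies in the torus if and only if it acts trivially. -/
theorem hTe_pw (h : Chv x b) (hK : Big K) (c d : ι) (m : ℕ) :
    (wv P x c 1 * wv P x d 1) ^ m ∈ TT P x ↔
      (RootPairing.Equiv.reflection P c * RootPairing.Equiv.reflection P d) ^ m = 1 := by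
  obtain ⟨φ, h1, -, h3⟩ := h.hom hK
  have f : ∀ c, φ ⟨wv P x c 1, hTe_w c 1⟩ = RootPairing.Equiv.reflection P c := fun c =>
    h.act_uq hK (h1 _) (h.act_w c 1)
  rw [← f c, ← f d, ← map_mul, ← map_pow, h3]
  rfl

omit [Finite X] in
theorem hTe_cm (h : Chv x b) (hK : Big K) {c d : ι} (h0 : P.pairingIn ℤ d c = 0) :
    (RootPairing.Equiv.reflection P c * RootPairing.Equiv.reflection P d) ^ 2 = 1 := by
  have sq : ∀ c, RootPairing.Equiv.reflection P c * RootPairing.Equiv.reflection P c = 1 :=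
    fun c => by simpa only [pow_one] using (hTe_pw h hK c c 1).1 (by rw [pow_one]; exact h.w_sq c)
  obtain ⟨u, hu⟩ := (h.act_w c 1).w d
  have e := hu 1
  rw [hTe_rf, P.reflectionPerm_eq_of_pairing_eq_zero (by simpa using hTe_pr h0)] at e
  have e2 := h.act_uq hK (((h.act_w c 1).mul (h.act_w d 1)).mul (h.act_w c 1).inv)
    (e ▸ h.act_w d (u * 1))
  rw [mul_inv_eq_iff_eq_mul] at e2
  rw [pow_two]
  conv_lhs => enter [1]; rw [e2]
  rw [mul_assoc, ← mul_assoc (RootPairing.Equiv.reflection P c), sq, one_mul, sq]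

omit [Finite X] in
/-- the element that induces the symmetry of the diagram. -/
theorem hTe_w0 (h : Chv x b) (hK : Big K) (e : En b k a)
    (hc : ∀ i j, i < k → j < k → P.pairingIn ℤ (a i) (a j) = eC k i j) :
    ∃ w ∈ NN P x, w * w ∈ TT P x ∧ ∃ g : ℕ → ℕ, (∀ i, i < k → g i < k ∧ g (g i) = i ∧
      w * wv P x (a i) 1 * w⁻¹ * (wv P x (a (g i)) 1)⁻¹ ∈ TT P x) ∧
      (k = 6 → ∀ i, g i = if i < 5 then 4 - i else i) := by
  by_cases h6 : k = 6
  · subst h6
    obtain ⟨σ, hσ, hs⟩ := dg_w0 hc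
    obtain ⟨φ, h1, h2, h3⟩ := h.hom hK
    obtain ⟨w, rfl⟩ : σ ∈ φ.range := h2 ▸ hσ
    have g1 : ∀ i, i < 6 → (if i < 5 then 4 - i else i) < 6 := fun i hi => by
      split_ifs <;> omega
    have g2 : ∀ i, (if (if i < 5 then 4 - i else i) < 5 then 4 - (if i < 5 then 4 - i else i)
        else if i < 5 then 4 - i else i) = i := fun i => by
      split_ifs <;> omega
    refine ⟨w, w.2, (h3 (w * w)).1 ?_, fun i => if i < 5 then 4 - i else i,
      fun i hi => ⟨g1 i hi, g2 i, ?_⟩, fun _ _ => rfl⟩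
    · rw [map_mul]
      refine dg_sym e fun i hi => ?_
      rw [hTe_mul, hs i hi, ac_ng, hs _ (g1 i hi), hTe_ng, g2]
    · obtain ⟨u, hu⟩ := (h1 w).w (a i)
      rw [hu, hs i hi]
      exact h.w_ng _ _
  · exact ⟨1, one_mem _, by rw [mul_one]; exact one_mem _, id,
      fun i hi => ⟨hi, rfl, by simp⟩, fun h => (h6 h).elim⟩

theorem Chv.te (h : Chv x b) [Fact r.Prime] [CharP K r] (hU : (U : Subgroup X) = UU x b)
    (hp : p.Prime) (h5 : 5 ≤ p) (hq : p ∣ Nat.card K - 1) (hk : k = 6 ∨ k = 7 ∨ k = 8)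
    (e : En b k a) (hc : ∀ i j, i < k → j < k → P.pairingIn ℤ (a i) (a j) = eC k i j) (pk : p ≤ k)
    (hs : ¬ p ^ 2 ∣ Nat.card P.weylGroup) :
    ∃ M' w, TE p k (p - 1) U (NN P x) M' (fun i => wv P x (a i) 1) w := by
  have hK : Big K := big_of hp (by omega) hq fun h4 => by
    rw [h4] at hq
    have := Nat.le_of_dvd (by norm_num) hq
    omega
  have hT : Tor U (NN P x) = TT P x := by
    rw [← h.tor hK, ← hU]
    rfl
  have hm : ∀ u, u ∈ U ↔ u ∈ UU x b := fun u => by
    rw [← hU]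
    rfl
  have jk : p - 1 ≤ k := by omega
  have wa := h.wa hK e jk fun i l hi hl => by
    rw [hc i l (by omega) (by omega)]
    unfold eC
    split_ifs <;> omega
  have le : Subgroup.closure ((TT P x : Set X) ∪ (fun i => wv P x (a i) 1) '' Set.Iio (p - 1)) ≤
      NN P x := by
    rw [Subgroup.closure_le]
    rintro _ (hy | ⟨i, -, rfl⟩)
    · exact T_le hy
    · exact hTe_w _ _
  obtain ⟨w, hw, hww, g, hg, g6⟩ := hTe_w0 h hK e hc
  have p1 : ∀ i l, i < k → l < k →
      ((wv P x (a i) 1 * wv P x (a l) 1) ^ 1 ∈ TT P x ↔ eC k i l = 2) := fun i l hi hl => by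
    rcases hTe_eC k i l with ⟨rfl, h2⟩ | ⟨-, ⟨h1, h2⟩ | ⟨h1, h2⟩⟩
    · exact iff_of_true (by rw [pow_one]; exact h.w_sq _) h2
    · rw [hTe_pw h hK, pow_one]
      exact iff_of_false (hTe_ne (.inl rfl) ((hc _ _ hi hl).trans h1) ((hc _ _ hl hi).trans h2))
        (by omega)
    · rw [hTe_pw h hK, pow_one]
      exact iff_of_false (hTe_ne (.inr rfl) ((hc _ _ hi hl).trans h1) ((hc _ _ hl hi).trans h2))
        (by omega)
  have p2 : ∀ i l, i < k → l < k →
      ((wv P x (a i) 1 * wv P x (a l) 1) ^ 2 ∈ TT P x ↔ eC k i l ≠ -1) := fun i l hi hl => by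
    rcases hTe_eC k i l with ⟨rfl, h2⟩ | ⟨-, ⟨h1, h2⟩ | ⟨h1, h2⟩⟩
    · exact iff_of_true (pow_mem (h.w_sq _) _) (by omega)
    · rw [hTe_pw h hK]
      exact iff_of_false (hTe_nc ((hc _ _ hi hl).trans h1) ((hc _ _ hl hi).trans h2)) (by omega)
    · rw [hTe_pw h hK]
      exact iff_of_true (hTe_cm h hK ((hc _ _ hl hi).trans h2)) (by omega)
  refine ⟨_, w, h.bv hU hp h5 hq, h.ts hK hU e, by omega, jk, le, hT ▸ wa, fun i hi => ?_,
    fun hd => hs ?_, hw, hT ▸ hww, fun i hi => ⟨g i, (hg i hi).1, hT ▸ (hg i hi).2.2⟩,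
    fun f f1 f2 => ?_⟩
  · simp only [hm, hT]
    have : ∃ l, l < k ∧ eC k i l = -1 := by
      by_cases h0 : i = 0
      · exact ⟨1, by omega, by unfold eC; split_ifs <;> omega⟩
      · exact ⟨i - 1, by omega, by unfold eC; split_ifs <;> omega⟩
    obtain ⟨l, hl, h1⟩ := this
    exact h.one (e.mem i (by omega)) ((hc i l (by omega) hl).trans h1)
  · rw [← h.idx hK, ← Subgroup.relIndex_mul_relIndex _ _ _ wa.le le, wa.card, pow_two]
    exact mul_dvd_mul (Nat.dvd_factorial hp.pos (by omega)) hd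
  · rw [hT] at f2 ⊢
    have k1 : ∀ i l, i < k → l < k → eC k (f i) (f l) = eC k i l := fun i l hi hl => by
      have a1 := f2 i l 1 hi hl
      have a2 := f2 i l 2 hi hl
      rw [p1 _ _ (f1 i hi) (f1 l hl), p1 _ _ hi hl] at a1
      rw [p2 _ _ (f1 i hi) (f1 l hl), p2 _ _ hi hl] at a2
      have a3 := hTe_eC k i l
      have a4 := hTe_eC k (f i) (f l)
      omega
    refine (dg_aut hk f f1 k1).imp id fun ⟨h6, k2⟩ i hi => ?_
    have k3 := (hg _ (hg i hi).1).2.2
    rwa [(hg i hi).2.1, g6 h6 i, ← k2 i hi] at k3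

end Pool.Agent.Lib.MP_1ae3da_al.JV
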