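import Pool.Agent.Lib.MP_1ae3da_al.H.Xa

/-! The Bruhat decomposition of the fixed points. -/

namespace Pool.Agent.Lib.MP_1ae3da_al.JV

variable {ι M N K X : Type} [AddCommGroup M] [Module ℚ M] [AddCommGroup N] [Module ℚ N]
  {P : RootPairing ι ℚ M N} [Field K] [Group X] {x : ι → K → X} [P.IsCrystallographic]
  [Finite ι] [P.IsReduced] [P.IsRootSystem] [Finite K] {b : P.Base} {a c : ι} {g n : X}
  {ρ τ : P.Aut} {φ : K →+* K} {σ : MulAut X} {S : Set ι} {L : List ι}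

omit [P.IsCrystallographic] [Finite ι] [P.IsReduced] [P.IsRootSystem] in
theorem xb_rf (ρ : P.Aut) (j a : ι) :
    ac P ρ (P.reflectionPerm j a) = P.reflectionPerm (ac P ρ j) (ac P ρ a) := by
  apply P.root.injective
  rw [hRl_root, P.root_reflectionPerm, P.root_reflectionPerm, P.reflection_apply_root,
    P.reflection_apply_root, hRl_pr, hRl_root, hRl_root, smul_sub, smul_comm]

omit [Finite K] in
theorem xb_u (φ : K →+* K) (s : Kˣ) : ((Units.map (φ : K →* K) s : Kˣ) : K) = φ s := rfl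

omit [P.IsCrystallographic] [Finite ι] [P.IsReduced] [P.IsRootSystem] [Finite K] in
theorem xb_w {a' : ι} {c : Kˣ} (k : ∀ t, σ (x a t) = x a' (c * φ t) ∧
    σ (x (ng P a) t) = x (ng P a') ((c⁻¹ : Kˣ) * φ t)) (s : Kˣ) :
    σ (wv P x a s) = wv P x a' (c * Units.map (φ : K →* K) s) := by
  unfold wv
  rw [map_mul, map_mul, (k _).1, (k _).2, mul_inv, ← map_inv, Units.val_mul, Units.val_mul, xb_u,
    xb_u, map_neg, mul_neg]

omit [P.IsCrystallographic] [Finite ι] [P.IsReduced] [P.IsRootSystem] [Finite K] in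
theorem xb_sim (k : Twd x b ρ φ σ) (ha : a ∈ b.support) (t : K) :
    σ (x a t) = x (ac P ρ a) ((1 : Kˣ) * φ t) ∧
      σ (x (ng P a) t) = x (ng P (ac P ρ a)) (((1 : Kˣ)⁻¹ : Kˣ) * φ t) := by
  rw [inv_one, Units.val_one, one_mul, ← ac_ng]
  exact ⟨k.sim a (Or.inl ha) t, k.sim _ (Or.inr (by rwa [hTi_ng_ng])) t⟩

theorem Twd.all (k : Twd x b ρ φ σ) (h : Chv x b) (a : ι) : ∃ c : Kˣ, ∀ t,
    σ (x a t) = x (ac P ρ a) (c * φ t) ∧
      σ (x (ng P a) t) = x (ng P (ac P ρ a)) ((c⁻¹ : Kˣ) * φ t) := by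
  refine b.induction_reflect a (p := fun a => ∃ c : Kˣ, ∀ t,
    σ (x a t) = x (ac P ρ a) (c * φ t) ∧
      σ (x (ng P a) t) = x (ng P (ac P ρ a)) ((c⁻¹ : Kˣ) * φ t)) ?_ ?_ ?_
  · rintro i ⟨c, hc⟩
    refine ⟨c⁻¹, fun t => ?_⟩
    change σ (x (ng P i) t) = x (ac P ρ (ng P i)) _ ∧
      σ (x (ng P (ng P i)) t) = x (ng P (ac P ρ (ng P i))) _
    rw [ac_ng, hTi_ng_ng, hTi_ng_ng, inv_inv]
    exact ⟨(hc t).2, (hc t).1⟩
  · exact fun i hi => ⟨1, xb_sim k hi⟩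
  · rintro i j ⟨c, hc⟩ hj
    have w := xb_w (xb_sim k hj) 1
    rw [map_one, mul_one] at w
    obtain ⟨c1, h1⟩ := h.act_w j 1 i
    obtain ⟨c2, h2⟩ := h.act_w (ac P ρ j) 1 (ac P ρ i)
    rw [hRl_rf] at h1 h2
    refine ⟨c2 * c * (Units.map (φ : K →* K) c1)⁻¹, fun t => ⟨?_, ?_⟩⟩
    · have e := (h1 ((c1⁻¹ : Kˣ) * t)).1
      rw [Units.mul_inv_cancel_left] at e
      rw [← e, map_mul, map_mul, map_inv, w, (hc _).1, (h2 _).1, xb_rf, ← map_inv, Units.val_mul,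
        Units.val_mul, xb_u, map_mul, mul_assoc, mul_assoc]
    · have e := (h1 ((c1 : K) * t)).2
      rw [Units.inv_mul_cancel_left] at e
      rw [← e, map_mul, map_mul, map_inv, w, (hc _).2, (h2 _).2, xb_rf, mul_inv, mul_inv, inv_inv,
        Units.val_mul, Units.val_mul, xb_u, map_mul, mul_assoc, mul_assoc]

theorem xb_vs (k : Twd x b ρ φ σ) (h : Chv x b) (hS : ∀ a ∈ S, ac P ρ a ∈ S) (hg : g ∈ VS x S) :
    σ g ∈ VS x S := by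
  have e : (VS x S).map σ.toMonoidHom ≤ VS x S := by
    unfold VS
    rw [MonoidHom.map_closure]
    refine Subgroup.closure_mono ?_
    rintro _ ⟨_, ⟨a, ha, t, rfl⟩, rfl⟩
    obtain ⟨c, hc⟩ := k.all h a
    exact ⟨_, hS a ha, _, (hc t).1⟩
  exact e (Subgroup.mem_map_of_mem _ hg)

theorem Twd.mU (k : Twd x b ρ φ σ) (h : Chv x b) (hg : g ∈ UU x b) : σ g ∈ UU x b := by
  exact xb_vs k h (fun a ha => (k.bas.pos a).2 ha) hg

theorem Twd.mM (k : Twd x b ρ φ σ) (h : Chv x b) (hg : g ∈ UM x b) : σ g ∈ UM x b := by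
  exact xb_vs k h (fun a ha hb => ha ((k.bas.pos a).1 hb)) hg

theorem Twd.mN (k : Twd x b ρ φ σ) (h : Chv x b) (hg : g ∈ NN P x) : σ g ∈ NN P x := by
  have e : (NN P x).map σ.toMonoidHom ≤ NN P x := by
    unfold NN
    rw [MonoidHom.map_closure]
    refine Subgroup.closure_mono ?_
    rintro _ ⟨_, ⟨a, t, rfl⟩, rfl⟩
    obtain ⟨c, hc⟩ := k.all h a
    exact ⟨_, _, xb_w hc t⟩
  exact e (Subgroup.mem_map_of_mem _ hg)

theorem xb_act (k : Twd x b ρ φ σ) (h : Chv x b) (h1 : Act P x n τ) :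
    Act P x (σ n) (ρ * τ * ρ⁻¹) := by
  intro a
  obtain ⟨c1, k1⟩ := k.all h (ac P ρ⁻¹ a)
  obtain ⟨c, k0⟩ := h1 (ac P ρ⁻¹ a)
  obtain ⟨c2, k2⟩ := k.all h (ac P τ (ac P ρ⁻¹ a))
  rw [hRl_inv] at k1
  have s : Function.Surjective φ := Finite.surjective_of_injective φ.injective
  refine ⟨c2 * Units.map (φ : K →* K) c * c1⁻¹, fun u => ⟨?_, ?_⟩⟩
  · obtain ⟨v, hv⟩ := s ((c1⁻¹ : Kˣ) * u)
    have e := (k1 v).1
    rw [hv, Units.mul_inv_cancel_left] at e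
    rw [← e, ← map_inv, ← map_mul, ← map_mul, (k0 _).1, (k2 _).1, hRl_mul, hRl_mul, map_mul, hv,
      Units.val_mul, Units.val_mul, xb_u, mul_assoc, mul_assoc]
  · obtain ⟨v, hv⟩ := s ((c1 : K) * u)
    have e := (k1 v).2
    rw [hv, Units.inv_mul_cancel_left] at e
    rw [← e, ← map_inv, ← map_mul, ← map_mul, (k0 _).2, (k2 _).2, hRl_mul, hRl_mul, map_mul, hv,
      mul_inv, mul_inv, inv_inv, ← map_inv, Units.val_mul, Units.val_mul, xb_u, mul_assoc,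
      mul_assoc]

theorem Twd.cm (k : Twd x b ρ φ σ) (h : Chv x b) (hK : Big K) (h1 : Act P x n τ) (h2 : σ n = n) :
    τ * ρ = ρ * τ := by
  have e := xb_act k h h1
  rw [h2] at e
  exact mul_eq_of_eq_mul_inv (h.act_uq hK h1 e)

theorem Twd.bru (k : Twd x b ρ φ σ) (h : Chv x b) (hK : Big K)
    (uq : ∀ m ∈ NN P x, ∀ m' ∈ NN P x, ∀ u ∈ UU x b, ∀ v ∈ UU x b, u * m * v = m' → m = m')
    (hg : σ g = g) :
    ∃ u ∈ UU x b, ∃ m ∈ NN P x, ∃ v ∈ UU x b, σ u = u ∧ σ v = v ∧ g = u * m * v := by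
  obtain ⟨u, hu, m, hm, v, hv, rfl⟩ := h.bru g
  obtain ⟨τ, -, ht⟩ := h.act_ex (inv_mem hm)
  obtain ⟨u1, h1, u2, h2, rfl⟩ := h.fac up_pos {a | ¬ b.IsPos (ac P τ a)} hu
  have m1 : m⁻¹ * u1 * m⁻¹⁻¹ ∈ UM x b := by
    refine hTi_conj (fun a ha t => ?_) h1
    obtain ⟨c, hc⟩ := ht a
    rw [(hc t).1]
    have q : ¬ b.IsPos (ac P τ a) := ha.2
    exact hTi_mem (S := {a | ¬ b.IsPos a}) q _
  have m2 : m⁻¹ * u2 * m⁻¹⁻¹ ∈ UU x b := by
    refine hTi_conj (fun a ha t => ?_) h2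
    obtain ⟨c, hc⟩ := ht a
    rw [(hc t).1]
    have q : ¬ ¬ b.IsPos (ac P τ a) := ha.2
    exact hTi_mem (S := {a | b.IsPos a}) (not_not.1 q) _
  have p1 : u1 ∈ UU x b := by
    refine Subgroup.closure_mono ?_ h1
    rintro _ ⟨a, ha, t, rfl⟩
    exact ⟨a, ha.1, t, rfl⟩
  have e : u1 * u2 * m * v = u1 * m * (m⁻¹ * u2 * m⁻¹⁻¹ * v) := by group
  have p2 := mul_mem m2 hv
  rw [e] at hg ⊢
  generalize m⁻¹ * u2 * m⁻¹⁻¹ * v = w at hg p2 ⊢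
  rw [map_mul, map_mul] at hg
  have q : m = σ m := by
    refine uq m hm _ (k.mN h hm) ((σ u1)⁻¹ * u1) (mul_mem (inv_mem (k.mU h p1)) p1)
      (w * (σ w)⁻¹) (mul_mem p2 (inv_mem (k.mU h p2))) ?_
    calc (σ u1)⁻¹ * u1 * m * (w * (σ w)⁻¹) = (σ u1)⁻¹ * (u1 * m * w) * (σ w)⁻¹ := by group
      _ = σ m := by rw [← hg]; group
  rw [← q] at hg
  have m3 := k.mM h m1
  rw [map_mul, map_mul, map_inv, map_inv, map_inv, ← q] at m3
  have e2 : σ w * w⁻¹ = (m⁻¹ * σ u1 * m⁻¹⁻¹)⁻¹ * (m⁻¹ * u1 * m⁻¹⁻¹) := by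
    calc σ w * w⁻¹ = m⁻¹ * (σ u1)⁻¹ * (σ u1 * m * σ w) * w⁻¹ := by group
      _ = _ := by rw [hg]; group
  have z : σ w * w⁻¹ = 1 := h.opp hK (mul_mem (k.mU h p2) (inv_mem p2))
    (by rw [e2]; exact mul_mem (inv_mem m3) m1)
  have z1 : σ w = w := mul_inv_eq_one.1 z
  rw [z1] at hg
  exact ⟨u1, p1, m, hm, w, p2, mul_right_cancel (mul_right_cancel hg), z1, rfl⟩

end Pool.Agent.Lib.MP_1ae3da_al.JV
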