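import Pool.Agent.Lib.MP_1ae3da_al.H.Ti

/-! Uniqueness in the Bruhat decomposition. -/

namespace Pool.Agent.Lib.MP_1ae3da_al.JV

variable {ι M N K X : Type} [AddCommGroup M] [Module ℚ M] [AddCommGroup N] [Module ℚ N]
  {P : RootPairing ι ℚ M N} [Field K] [Group X] {x : ι → K → X} [P.IsCrystallographic]
  [Finite ι] [P.IsReduced] [Finite K] {b : P.Base} {a c : ι} {g t : X} {σ τ : P.Aut} {S : Set ι}

theorem hUq_nT (h : Chv x b) (hK : Big K) (ha : b.IsPos a) : wv P x a 1 ∉ TT P x := by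
  intro k
  obtain ⟨f, hf⟩ := h.act_w a 1 a
  have k1 := (Subgroup.mem_normalizer_iff.mp (h.T_VS {a | b.IsPos a} k) _).mp
    (hTi_mem (x := x) (S := {a | b.IsPos a}) ha 1)
  rw [(hf 1).1, hTi_ac] at k1
  have h2 : b.height (ng P a) = - b.height a := b.height_reflectionPerm_self a
  have h3 : ¬ b.IsPos (P.reflectionPerm a a) := by
    rw [b.isPos_iff] at ha ⊢
    change ¬ 0 < b.height (ng P a)
    omega
  simpa using h.neg_U hK h3 k1

/-- the double cosets of `B = U T` determine the element of `N / T`. -/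
theorem hUq_word (h : Chv x b) (hK : Big K) (L : List ι) (hL : ∀ a ∈ L, a ∈ b.support) :
    ∀ n ∈ NN P x, ∀ u ∈ UU x b, ∀ v ∈ UU x b, (L.map fun a => wv P x a 1).prod = u * n * v →
      (L.map fun a => wv P x a 1).prod * n⁻¹ ∈ TT P x := by
  induction L with
  | nil =>
    intro n hn u hu v hv e
    have e1 : n = u⁻¹ * v⁻¹ := by
      rw [List.map_nil, List.prod_nil] at e
      calc n = u⁻¹ * (u * n * v) * v⁻¹ := by group
        _ = _ := by rw [← e, mul_one]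
    rw [List.map_nil, List.prod_nil, one_mul, inv_mem_iff, ← h.tor hK]
    exact Subgroup.mem_inf.mpr ⟨hn, e1 ▸ Subgroup.le_normalizer (mul_mem (inv_mem hu) (inv_mem hv))⟩
  | cons a L ih =>
    intro n hn u hu v hv e
    have ha := hL a List.mem_cons_self
    replace ih := ih fun d hd => hL d (List.mem_cons_of_mem _ hd)
    rw [List.map_cons, List.prod_cons] at e ⊢
    have hw := hDl_pN (P := P) (x := x) L
    generalize (L.map fun a => wv P x a 1).prod = w at e ih hw ⊢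
    have hs := hTi_wN (P := P) (x := x) a 1
    have hq := h.w_sq a
    have hnT := hUq_nT h hK (b.isPos_of_mem_support ha)
    obtain ⟨v', hv', t, ht, y, hy, k⟩ := h.tits ha n hn u hu
    generalize wv P x a 1 = s at e hs hq hnT k ⊢
    have hv2 : (s * s)⁻¹ * v' * (s * s)⁻¹⁻¹ ∈ UU x b :=
      (Subgroup.mem_normalizer_iff.mp (h.T_VS _ (inv_mem hq)) _).mp hv'
    have e0 : w = (s * s)⁻¹ * (s * u * n) * v := by
      calc w = s⁻¹ * (s * w) := by group
        _ = _ := by rw [e]; group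
    have tt := T_le (mul_mem (inv_mem hq) ht)
    rcases k with k | k
    · have k1 := ih ((s * s)⁻¹ * t * (s * n)) (mul_mem tt (mul_mem hs hn)) _ hv2 _ (mul_mem hy hv)
        (by rw [e0, k]; group)
      have k2 := hDl_cj h hs (mul_mem k1 (mul_mem (inv_mem hq) ht))
      have k3 := mul_mem k2 hq
      have e3 : s * (w * ((s * s)⁻¹ * t * (s * n))⁻¹ * ((s * s)⁻¹ * t)) * s⁻¹ * (s * s) =
          s * w * n⁻¹ := by group
      rwa [e3] at k3
    · have k1 := ih ((s * s)⁻¹ * t * n) (mul_mem tt hn) _ hv2 _ (mul_mem hy hv)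
        (by rw [e0, k]; group)
      have k2 : w * n⁻¹ ∈ TT P x := by
        have := mul_mem k1 (mul_mem (inv_mem hq) ht)
        have e3 : w * ((s * s)⁻¹ * t * n)⁻¹ * ((s * s)⁻¹ * t) = w * n⁻¹ := by group
        rwa [e3] at this
      have k3 : ∀ y ∈ UU x b, (w * n⁻¹) * y * (w * n⁻¹)⁻¹ ∈ UU x b := fun y hy =>
        (Subgroup.mem_normalizer_iff.mp (h.T_VS _ k2) _).mp hy
      have k4 := ih ((w * n⁻¹) * (s * w)) (mul_mem (T_le k2) (mul_mem hs hw)) _
        (k3 _ (inv_mem hu)) _ (inv_mem hv) (by rw [e]; group)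
      have k5 := mul_mem k4 k2
      have e5 : w * (w * n⁻¹ * (s * w))⁻¹ * (w * n⁻¹) = s⁻¹ := by group
      rw [e5, inv_mem_iff] at k5
      exact (hnT k5).elim

theorem hUq_T (h : Chv x b) (hK : Big K) {n n' u v : X} (hn : n ∈ NN P x) (hn' : n' ∈ NN P x)
    (hu : u ∈ UU x b) (hv : v ∈ UU x b) (e : n' = u * n * v) : n' * n⁻¹ ∈ TT P x := by
  obtain ⟨t, ht, L, hL, rfl⟩ := hDl_word h hn'
  have k := hUq_word h hK L hL (t⁻¹ * n) (mul_mem (T_le (inv_mem ht)) hn) (t⁻¹ * u * t⁻¹⁻¹)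
    ((Subgroup.mem_normalizer_iff.mp (h.T_VS _ (inv_mem ht)) _).mp hu) v hv
    (by rw [← inv_mul_cancel_left t (List.prod _), e]; group)
  have k2 := mul_mem (mul_mem ht k) (inv_mem ht)
  have e2 : ∀ w : X, t * (w * (t⁻¹ * n)⁻¹) * t⁻¹ = t * w * n⁻¹ := fun w => by group
  rwa [e2] at k2

omit [Finite ι] [P.IsReduced] in
/-- an element of the torus of order a power of the characteristic is trivial. -/
theorem hUq_one (h : Chv x b) {r : ℕ} [Fact r.Prime] [CharP K r] (ht : t ∈ TT P x) {k : ℕ}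
    (h1 : t ^ r ^ k = 1) : t = 1 := by
  have h2 := h.T_pow ht
  let _ := Fintype.ofFinite K
  obtain ⟨d, -, hd⟩ := FiniteField.card K r
  have hco : (r ^ k).Coprime (Nat.card K - 1) := by
    rw [Nat.card_eq_fintype_card, hd]
    refine Nat.Coprime.pow_left _ ?_
    have h3 : 1 ≤ r ^ (d : ℕ) := Nat.one_le_pow _ _ (Fact.out : r.Prime).pos
    have h4 : (r ^ (d : ℕ)).Coprime (r ^ (d : ℕ) - 1) := by
      rw [Nat.coprime_self_sub_right h3]
      exact Nat.coprime_one_right _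
    exact Nat.Coprime.coprime_dvd_left (dvd_pow_self r d.ne_zero) h4
  rw [← orderOf_eq_one_iff]
  exact Nat.eq_one_of_dvd_coprimes hco (orderOf_dvd_of_pow_eq_one h1)
    (orderOf_dvd_of_pow_eq_one h2)

/-- the element of `N` in the Bruhat decomposition is unique. -/
theorem Chv.bru_uq (h : Chv x b) (hK : Big K) {n n' u v u' v' : X} (hn : n ∈ NN P x)
    (hn' : n' ∈ NN P x) (hu : u ∈ UU x b) (hv : v ∈ UU x b) (hu' : u' ∈ UU x b)
    (hv' : v' ∈ UU x b) (e : u * n * v = u' * n' * v') : n = n' := by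
  obtain ⟨r, hr⟩ := CharP.exists K
  have : Fact r.Prime := ⟨CharP.char_is_prime K r⟩
  have hU : IsPGroup r (UU x b) := h.up_p up_pos
  have e1 : n = (u⁻¹ * u') * n' * (v' * v⁻¹) := by
    calc n = u⁻¹ * (u * n * v) * v⁻¹ := by group
      _ = _ := by rw [e]; group
  have hy := mul_mem (inv_mem hu') hu
  have hz := mul_mem hv' (inv_mem hv)
  have ht := hUq_T h hK hn' hn (mul_mem (inv_mem hu) hu') hz e1
  have e2 : (u'⁻¹ * u) * (n * n'⁻¹) = n' * (v' * v⁻¹) * n'⁻¹ := by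
    rw [e1]
    group
  generalize u'⁻¹ * u = y at hy e2
  generalize v' * v⁻¹ = z at hz e2
  suffices n * n'⁻¹ = 1 from mul_inv_eq_one.mp this
  generalize n * n'⁻¹ = t at ht e2
  have key : ∀ m : ℕ, (y * t) ^ m * (t ^ m)⁻¹ ∈ UU x b := by
    intro m
    induction m with
    | zero => simp
    | succ m ih =>
      have e3 : (y * t) ^ (m + 1) * (t ^ (m + 1))⁻¹ = y * (t * ((y * t) ^ m * (t ^ m)⁻¹) * t⁻¹) := by
        rw [pow_succ', pow_succ' t]
        group
      rw [e3]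
      exact mul_mem hy ((Subgroup.mem_normalizer_iff.mp (h.T_VS _ ht) _).mp ih)
  obtain ⟨k, hk⟩ := hU ⟨z, hz⟩
  have h1 : z ^ r ^ k = 1 := by simpa using congrArg Subtype.val hk
  have k1 := key (r ^ k)
  rw [e2, conj_pow, h1, mul_one, mul_inv_cancel, one_mul, inv_mem_iff] at k1
  obtain ⟨l, hl⟩ := hU ⟨_, k1⟩
  have h2 : (t ^ r ^ k) ^ r ^ l = 1 := by simpa using congrArg Subtype.val hl
  rw [← pow_mul, ← pow_add] at h2
  exact hUq_one h ht h2

omit [P.IsReduced] [Finite K] in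
/-- `U = V(pos ∩ A) * V(pos \ A)` for any set `A` of roots. -/
theorem Chv.split (h : Chv x b) (A : Set ι) (hS : Up b S) (hg : g ∈ VS x S) :
    ∃ u ∈ VS x (S ∩ A), ∃ v ∈ VS x (S \ A), g = u * v := by
  revert g
  refine hUp_ind (p := fun S => ∀ {g : X}, g ∈ VS x S →
    ∃ u ∈ VS x (S ∩ A), ∃ v ∈ VS x (S \ A), g = u * v) ?_ ?_ (fun S a k hm => k.del hm) hS
  · intro g hg
    exact ⟨1, one_mem _, 1, one_mem _, by rw [hUp_nil hg, mul_one]⟩
  · intro S a hS ha hm ih g hg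
    have mono : ∀ {S S' : Set ι}, S ⊆ S' → VS x S ≤ VS x S' := fun k =>
      Subgroup.closure_mono fun _ ⟨a, ha, t, e⟩ => ⟨a, k ha, t, e⟩
    have m1 : VS x ((S \ {a}) ∩ A) ≤ VS x (S ∩ A) := mono fun c hc => ⟨hc.1.1, hc.2⟩
    have m2 : VS x ((S \ {a}) \ A) ≤ VS x (S \ A) := mono fun c hc => ⟨hc.1.1, hc.2⟩
    obtain ⟨s, v, hv, rfl⟩ := h.up_dec hS ha hm hg
    by_cases hA : a ∈ A
    · obtain ⟨u, hu, w, hw, rfl⟩ := ih hv
      exact ⟨x a s * u, mul_mem (hTi_mem (Set.mem_inter ha hA) s) (m1 hu), w, m2 hw, by group⟩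
    · obtain ⟨u, hu, w, hw, e⟩ := ih (hUp_cj h (hS.del hm) (hS.1 a ha) s hv)
      refine ⟨u, m1 hu, w * x a s, mul_mem (m2 hw) (hTi_mem (Set.mem_sdiff_of_mem ha hA) s), ?_⟩
      rw [← mul_assoc, ← e]
      group

omit [P.IsCrystallographic] [Finite ι] [P.IsReduced] in
theorem hUq_cone (σ : P.Aut) {d : ι} {i j : ℕ} (k : P.root d = i • P.root a + j • P.root c) :
    P.root (ac P σ d) = i • P.root (ac P σ a) + j • P.root (ac P σ c) := by
  rw [hRl_root, hRl_root, hRl_root, k, smul_add, smul_comm σ i, smul_comm σ j]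

omit [P.IsReduced] in
/-- an automorphism that keeps the simple roots positive keeps all positive roots positive. -/
theorem hUq_pos (σ : P.Aut) (k : ∀ a ∈ b.support, b.IsPos (ac P σ a)) (hc : b.IsPos c) :
    b.IsPos (ac P σ c) := by
  refine hc.induction_on_add (p := fun c => b.IsPos (ac P σ c)) k fun i j l e hi hj => ?_
  have e1 : P.root (ac P σ l) = P.root (ac P σ i) + P.root (ac P σ j) := by
    rw [hRl_root, hRl_root, hRl_root, e, smul_add]
  exact hi.add (k j hj) e1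

omit [Finite ι] [P.IsReduced] [Finite K] in
/-- peel a simple root off the inversion set of `σ`. -/
theorem hUq_peel (h : Chv x b) (ha : a ∈ b.support) (hn : ¬ b.IsPos (ac P σ a))
    (hg : g ∈ VS x {c | b.IsPos c ∧ ¬ b.IsPos (ac P σ c)}) :
    ∃ s, ∃ v ∈ VS x ({c | b.IsPos c ∧ ¬ b.IsPos (ac P σ c)} \ {a}), g = v * x a s := by
  have hp : b.IsPos a := b.isPos_of_mem_support ha
  have nrm : ∀ s, ∀ v ∈ VS x ({c | b.IsPos c ∧ ¬ b.IsPos (ac P σ c)} \ {a}),
      x a s * v * (x a s)⁻¹ ∈ VS x ({c | b.IsPos c ∧ ¬ b.IsPos (ac P σ c)} \ {a}) := by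
    intro s v hv
    refine hTi_conj (fun c hc t => ?_) hv
    have h1 : 0 < b.height c := hc.1.1
    have h2 := b.height_one_of_mem_support ha
    have hne : P.root c ≠ -P.root a := fun e => by
      have e1 : c = ng P a := P.root.injective (by rw [hRl_ng, e])
      have e2 : b.height (ng P a) = - b.height a := b.height_reflectionPerm_self a
      rw [e1] at h1
      omega
    have e : x a s * x c t * (x a s)⁻¹ = (x a s * x c t * (x a s)⁻¹ * (x c t)⁻¹) * x c t := by group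
    rw [e]
    refine mul_mem (Subgroup.closure_mono ?_ (h.cm a c hne s t)) (hTi_mem hc t)
    rintro _ ⟨d, u, i, j, hi, hj, hd, rfl⟩
    have h3 := hUp_ht (b := b) hd
    have h4 := hUp_ht (b := b) (hUq_cone σ hd)
    have h5 : b.height (ac P σ a) ≤ 0 := not_lt.mp hn
    have h6 : b.height (ac P σ c) ≤ 0 := not_lt.mp hc.1.2
    have h7 : (1 : ℤ) ≤ i := by exact_mod_cast hi
    have h8 : (1 : ℤ) ≤ j := by exact_mod_cast hj
    have h9 : 2 ≤ b.height d := by rw [h3, h2]; nlinarith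
    refine ⟨d, ⟨⟨?_, ?_⟩, ?_⟩, u, rfl⟩
    · change 0 < b.height d
      omega
    · change ¬ 0 < b.height (ac P σ d)
      rw [h4]
      nlinarith
    · rintro rfl
      omega
  induction hg using Subgroup.closure_induction with
  | mem y hy =>
    obtain ⟨c, hc, t, rfl⟩ := hy
    by_cases e : c = a
    · exact ⟨t, 1, one_mem _, by rw [e, one_mul]⟩
    · exact ⟨0, x c t, hTi_mem (Set.mem_sdiff_of_mem hc e) t, by rw [h.zero, mul_one]⟩
  | one => exact ⟨0, 1, one_mem _, by rw [h.zero, mul_one]⟩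
  | mul y z _ _ hy hz =>
    obtain ⟨s, v, hv, rfl⟩ := hy
    obtain ⟨t, w, hw, rfl⟩ := hz
    exact ⟨s + t, v * (x a s * w * (x a s)⁻¹), mul_mem hv (nrm s w hw), by rw [h.add]; group⟩
  | inv y _ hy =>
    obtain ⟨s, v, hv, rfl⟩ := hy
    exact ⟨-s, x a (-s) * v⁻¹ * (x a (-s))⁻¹, nrm _ _ (inv_mem hv), by rw [h.neg]; group⟩

/-- if `m` sends `a` to a negative root and `m (v x_a(s)) m⁻¹ ∈ U`, `v ∈ U_a`, then `s = 0`. -/
theorem hUq_zero (h : Chv x b) (hK : Big K) (ha : a ∈ b.support) {m v : X} {s : K}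
    (hm : m ∈ NN P x) (k : Act P x m σ) (hn : ¬ b.IsPos (ac P σ a))
    (hv : wv P x a 1 * v * (wv P x a 1)⁻¹ ∈ UU x b) (hu : m * (v * x a s) * m⁻¹ ∈ UU x b) :
    s = 0 := by
  by_contra h0
  have hp : b.IsPos a := b.isPos_of_mem_support ha
  obtain ⟨e, he⟩ := k a
  obtain ⟨f, hf⟩ := h.act_w a 1 a
  have e1 := hTi_sl h (ng P a) (-(Units.mk0 s h0)⁻¹)
  have e2 : (-((-(Units.mk0 s h0)⁻¹)⁻¹ : Kˣ) : K) = s := by simp
  rw [e2, hTi_ng_ng] at e1
  generalize (-(Units.mk0 s h0)⁻¹ : Kˣ) = z at e1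
  have k1 : wv P x a 1 * x (ng P a) (-z) * (wv P x a 1)⁻¹ ∈ UU x b := by
    rw [(hf _).2, hTi_ac, hTi_ng_ng]
    exact hTi_mem (S := {a | b.IsPos a}) hp _
  have k2 : m * x (ng P a) (-z) * m⁻¹ ∈ UU x b := by
    rw [(he _).2]
    exact hTi_mem (S := {a | b.IsPos a}) (hTi_pos hn) _
  have hs := hTi_wN (P := P) (x := x) a 1
  have k3 := mul_mem (hDl_cj h hs (h.w_ng a z)) (h.w_sq a)
  have k4 := h.bru_uq hK (mul_mem hs (inv_mem hm)) (mul_mem (T_le k3) (inv_mem hm)) (one_mem _) hu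
    (mul_mem hv k1) k2 (by rw [e1]; group)
  exact hUq_nT h hK hp (mul_right_cancel k4 ▸ k3)

/-- `V(pos ∩ σ⁻¹ neg)` meets `m⁻¹ U m` trivially. -/
theorem Chv.inv_one (h : Chv x b) (hK : Big K) {m : X} (hm : m ∈ NN P x) (k : Act P x m σ)
    (hg : g ∈ VS x {c | b.IsPos c ∧ ¬ b.IsPos (ac P σ c)}) (hu : m * g * m⁻¹ ∈ UU x b) :
    g = 1 := by
  generalize hl : {c | b.IsPos c ∧ ¬ b.IsPos (ac P σ c)}.ncard = l
  induction l using Nat.strong_induction_on generalizing m g σ with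
  | _ l ih =>
  by_cases hs : ∀ a ∈ b.support, b.IsPos (ac P σ a)
  · have : {c | b.IsPos c ∧ ¬ b.IsPos (ac P σ c)} = ∅ :=
      Set.eq_empty_of_forall_notMem fun c hc => hc.2 (hUq_pos σ hs hc.1)
    exact hUp_nil (this ▸ hg)
  push Not at hs
  obtain ⟨a, ha, hn⟩ := hs
  have hp : b.IsPos a := b.isPos_of_mem_support ha
  obtain ⟨s, v, hv, rfl⟩ := hUq_peel h ha hn hg
  have hw := hTi_wN (P := P) (x := x) a 1
  have k' := k.mul (h.act_w a 1).inv
  have rr : ∀ c, ac P (RootPairing.Equiv.reflection P a)⁻¹ c = P.reflectionPerm a c := fun c => by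
    have := hRl_inv (RootPairing.Equiv.reflection P a) c
    rw [hRl_rf] at this
    rw [← P.reflectionPerm_self a (ac P _ c), this]
  have cj : wv P x a 1 * v * (wv P x a 1)⁻¹ ∈ VS x {c | b.IsPos c ∧
      ¬ b.IsPos (ac P (σ * (RootPairing.Equiv.reflection P a)⁻¹) c)} := by
    refine hTi_conj (fun c hc t => ?_) hv
    obtain ⟨e, he⟩ := h.act_w a 1 c
    rw [(he t).1, hTi_ac]
    refine Subgroup.subset_closure ⟨P.reflectionPerm a c,
      ⟨RootPairing.Base.IsPos.reflectionPerm hc.1.1 ha hc.2, ?_⟩, _, rfl⟩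
    rw [hRl_mul, rr, P.reflectionPerm_self]
    exact hc.1.2
  have cU : wv P x a 1 * v * (wv P x a 1)⁻¹ ∈ UU x b :=
    Subgroup.closure_mono (by rintro _ ⟨c, hc, t, e⟩; exact ⟨c, hc.1, t, e⟩) cj
  have h0 := hUq_zero h hK ha hm k hn cU hu
  rw [h0, h.zero, mul_one] at hu ⊢
  have lt : {c | b.IsPos c ∧
      ¬ b.IsPos (ac P (σ * (RootPairing.Equiv.reflection P a)⁻¹) c)}.ncard < l := by
    rw [← hl]
    refine lt_of_le_of_lt (Set.ncard_le_ncard_of_injOn (P.reflectionPerm a)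
      (t := {c | b.IsPos c ∧ ¬ b.IsPos (ac P σ c)} \ {a}) ?_ (P.reflectionPerm a).injective.injOn)
      (Set.ncard_sdiff_singleton_lt_of_mem ⟨hp, hn⟩)
    rintro c ⟨h1, h2⟩
    rw [hRl_mul, rr] at h2
    have ne : c ≠ a := by
      rintro rfl
      exact h2 (by rw [ac_ng]; exact hTi_pos hn)
    refine ⟨⟨h1.reflectionPerm ha ne, h2⟩, fun e => ?_⟩
    have e1 : c = ng P a := by rw [← P.reflectionPerm_self a c, Set.mem_singleton_iff.mp e]
    have e2 : b.height (ng P a) = - b.height a := b.height_reflectionPerm_self a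
    rw [e1, b.isPos_iff] at h1
    rw [b.isPos_iff] at hp
    omega
  have := ih _ lt (mul_mem hm (inv_mem hw)) k' cj (by convert hu using 1; group) rfl
  exact conj_eq_one_iff.mp this

end Pool.Agent.Lib.MP_1ae3da_al.JV
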