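import Pool.Agent.Lib.MP_1ae3da_al.H.Xf
import Pool.Agent.Lib.MP_1ae3da_al.H.Uq
import Pool.Agent.Lib.MP_1ae3da_al.H.Wy

/-! The opposite unipotent subgroup. -/

namespace Pool.Agent.Lib.MP_1ae3da_al.JV

variable {ι M N K X : Type} [AddCommGroup M] [Module ℚ M] [AddCommGroup N] [Module ℚ N]
  {P : RootPairing ι ℚ M N} [Field K] [Group X] {x : ι → K → X} [P.IsCrystallographic]
  [Finite ι] [P.IsReduced] [P.IsRootSystem] [Finite K] {b : P.Base} {a c : ι} {g n : X}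
  {ρ τ : P.Aut} {φ : K →+* K} {σ : MulAut X} {S : Set ι} {L : List ι}

omit [P.IsCrystallographic] [Finite ι] [P.IsReduced] [P.IsRootSystem] in
theorem xa_ng (h : b.IsPos a) : ¬ b.IsPos (ng P a) := by
  have h2 : b.height (ng P a) = - b.height a := b.height_reflectionPerm_self a
  rw [b.isPos_iff] at h ⊢
  omega

theorem xa_pos (h : ∀ a ∈ b.support, b.IsPos (ac P τ a)) (hc : b.IsPos c) :
    b.IsPos (ac P τ c) := by
  exact hUq_pos τ h hc

theorem xa_neg (h : ∀ a ∈ b.support, ¬ b.IsPos (ac P τ a)) (hc : b.IsPos c) :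
    ¬ b.IsPos (ac P τ c) := by
  refine hc.induction_on_add (p := fun c => ¬ b.IsPos (ac P τ c)) h fun i j l e hi hj => ?_
  have e1 : P.root (ac P τ l) = P.root (ac P τ i) + P.root (ac P τ j) := by
    rw [hRl_root, hRl_root, hRl_root, e, smul_add]
  have h1 := h j hj
  rw [b.isPos_iff] at hi h1 ⊢
  rw [b.height_add e1]
  omega

/-- the longest element. -/
theorem xa_w0 (b : P.Base) : ∃ τ ∈ P.weylGroup, ∀ a, b.IsPos (ac P τ a) ↔ ¬ b.IsPos a := by
  have : Finite P.weylGroup := wy_fin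
  obtain ⟨⟨τ, hτ⟩, hm⟩ := Finite.exists_max
    fun τ : P.weylGroup => {c | b.IsPos c ∧ ¬ b.IsPos (ac P τ c)}.ncard
  have key : ∀ a ∈ b.support, ¬ b.IsPos (ac P τ a) := by
    intro a ha hp
    have h1 := hm ⟨τ * RootPairing.Equiv.reflection P a, mul_mem hτ (P.reflection_mem_weylGroup a)⟩
    have pa : b.IsPos a := b.isPos_of_mem_support ha
    have ma : a ∈ {c | b.IsPos c ∧ ¬ b.IsPos (ac P (τ * RootPairing.Equiv.reflection P a) c)} := by
      refine ⟨pa, ?_⟩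
      rw [hRl_mul, hRl_rf, ac_ng]
      exact xa_ng hp
    refine absurd h1 (not_le.mpr (lt_of_le_of_lt (Set.ncard_le_ncard_of_injOn (P.reflectionPerm a)
      ?_ (P.reflectionPerm a).injective.injOn) (Set.ncard_sdiff_singleton_lt_of_mem ma)))
    rintro c ⟨h1, h2⟩
    have ne : c ≠ a := by
      rintro rfl
      exact h2 hp
    refine ⟨⟨h1.reflectionPerm ha ne, ?_⟩, fun e => ?_⟩
    · rwa [hRl_mul, hRl_rf, P.reflectionPerm_self]
    · have e1 : c = ng P a := by rw [← P.reflectionPerm_self a c, Set.mem_singleton_iff.mp e]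
      exact xa_ng pa (e1 ▸ h1)
  refine ⟨τ, hτ, fun a => ⟨fun k pa => xa_neg key pa k, fun k => ?_⟩⟩
  by_contra hn
  exact xa_neg key (hTi_pos k) (by rw [ac_ng]; exact hTi_pos hn)

theorem Bas.pos (h : Bas b ρ) (c : ι) : b.IsPos (ac P ρ c) ↔ b.IsPos c := by
  have key : ∀ a ∈ b.support, b.IsPos (ac P ρ a) := fun a ha => b.isPos_of_mem_support (h a ha)
  refine ⟨fun k => ?_, xa_pos key⟩
  by_contra hn
  have := xa_pos key (hTi_pos hn)
  rw [ac_ng] at this
  exact xa_ng k this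

theorem Chv.fac (h : Chv x b) (hS : Up b S) (A : Set ι) (hg : g ∈ VS x S) :
    ∃ u ∈ VS x (S ∩ A), ∃ v ∈ VS x (S \ A), g = u * v := by
  exact h.split A hS hg

theorem Chv.opp (h : Chv x b) (hK : Big K) (h1 : g ∈ UU x b) (h2 : g ∈ UM x b) : g = 1 := by
  obtain ⟨τ, hτ, k⟩ := xa_w0 b
  obtain ⟨ψ, h3, h4, -⟩ := h.hom hK
  obtain ⟨m, rfl⟩ : τ ∈ ψ.range := h4 ▸ hτ
  have h5 : (m : X)⁻¹ * g * (m : X)⁻¹⁻¹ ∈
      VS x {c | b.IsPos c ∧ ¬ b.IsPos (ac P (ψ m) c)} := by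
    refine hTi_conj (fun c hc t => ?_) h2
    obtain ⟨e, he⟩ := (h3 m).inv c
    rw [(he t).1]
    have h6 : ¬ b.IsPos (ac P (ψ m) (ac P (ψ m)⁻¹ c)) := by rwa [hRl_inv]
    exact Subgroup.subset_closure ⟨_, ⟨not_not.mp fun q => h6 ((k _).mpr q), h6⟩, _, rfl⟩
  have h7 := h.inv_one hK m.2 (h3 m) h5 (by convert h1 using 1; group)
  exact conj_eq_one_iff.mp h7

/-- the factors of a product of distinct simple root elements are unique. -/
theorem Chv.lst (h : Chv x b) (hK : Big K) (h1 : ∀ d ∈ L, d ∈ b.support) (h2 : L.Nodup)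
    (h3 : L ≠ []) : (L.map fun d => x d 1).prod ≠ 1 := by
  obtain ⟨d, L, rfl⟩ := List.exists_cons_of_ne_nil h3
  have hd := h1 d List.mem_cons_self
  rw [List.nodup_cons] at h2
  have k : wv P x d 1 * (L.map fun d => x d 1).prod * (wv P x d 1)⁻¹ ∈ UU x b := by
    refine hTi_conj (S := {c | c ∈ L}) (fun c hc t => ?_) (list_prod_mem fun y hy => ?_)
    · obtain ⟨e, he⟩ := h.act_w d 1 c
      rw [(he t).1, hTi_ac]
      refine hTi_mem (S := {a | b.IsPos a}) (RootPairing.Base.IsPos.reflectionPerm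
        (b.isPos_of_mem_support (h1 c (List.mem_cons_of_mem _ hc))) hd ?_) _
      rintro rfl
      exact h2.1 hc
    · obtain ⟨c, hc, rfl⟩ := List.mem_map.mp hy
      exact hTi_mem (S := {c | c ∈ L}) hc _
  intro e
  rw [List.map_cons, List.prod_cons] at e
  rw [eq_inv_of_mul_eq_one_right e] at k
  obtain ⟨f, hf⟩ := h.act_w d 1 d
  have k1 : wv P x d 1 * x d 1 * (wv P x d 1)⁻¹ ∈ UU x b := by
    convert inv_mem k using 1
    group
  rw [(hf 1).1, hTi_ac] at k1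
  simpa using h.neg_U hK (xa_ng (b.isPos_of_mem_support hd)) k1

end Pool.Agent.Lib.MP_1ae3da_al.JV
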