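import Pool.Agent.Lib.MP_1ae3da_al.H.Ti
import Pool.Agent.Lib.MP_1ae3da_al.E.Df

/-! The Bruhat data of a Chevalley group. -/

namespace Pool.Agent.Lib.MP_1ae3da_al.JV

open SLI JM CT.A

variable {ι M N K X : Type} [AddCommGroup M] [Module ℚ M] [AddCommGroup N] [Module ℚ N]
  {P : RootPairing ι ℚ M N} [Field K] [Group X] {x : ι → K → X} [P.IsCrystallographic]
  [Finite ι] [P.IsReduced] [P.IsRootSystem] [Finite K] [Finite X] {b : P.Base} {p r k j : ℕ}
  {a : ℕ → ι} {U : Sylow r X}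

theorem big_of (hp : p.Prime) (h2 : p ≠ 2) (hq : p ∣ Nat.card K - 1) (h4 : Nat.card K ≠ 4) :
    Big K := by
  have := Fintype.ofFinite K
  obtain ⟨g, hg⟩ := IsCyclic.exists_ofOrder_eq_natCard (α := Kˣ)
  rw [Nat.card_units] at hg
  refine ⟨g, fun i h0 hi e => ?_⟩
  have h1 := Nat.le_of_dvd h0 (orderOf_dvd_of_pow_eq_one e)
  have h3 : 1 < Nat.card K := Finite.one_lt_card
  have h5 := Nat.le_of_dvd (by omega) hq
  have h6 := hp.two_le
  have h7 : Nat.card K - 1 = 4 := by omega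
  rw [h7] at hq
  exact h2 ((Nat.prime_dvd_prime_iff_eq hp Nat.prime_two).1
    (hp.dvd_of_dvd_pow (n := 2) (by simpa using hq)))

omit [Finite K] [Finite X] [P.IsRootSystem] [Finite ι] [P.IsReduced] in
theorem hBv_pow (h : Chv x b) (c : ι) (s : Kˣ) (n : ℕ) : hv P x c s ^ n = hv P x c (s ^ n) := by
  induction n with
  | zero => rw [pow_zero, pow_zero, hv, mul_inv_cancel]
  | succ n ih => rw [pow_succ, pow_succ, h.hm, ih]

omit [Finite K] [Finite X] [P.IsRootSystem] [Finite ι] [P.IsReduced] [P.IsCrystallographic] in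
theorem hBv_h (c : ι) (s : Kˣ) : hv P x c s ∈ TT P x := Subgroup.subset_closure ⟨c, s, rfl⟩

omit [P.IsRootSystem] [P.IsReduced] in
theorem hBv_len {σ : P.Aut} (hσ : σ ∈ P.weylGroup) (c : ι) :
    P.pairingIn ℤ (ac P σ c) c = P.pairingIn ℤ c (ac P σ c) := by
  have := Fintype.ofFinite ι
  have e := RootPairing.InvariantForm.apply_weylGroup_smul P (B := (P.posRootForm ℤ).toInvariantForm)
    ⟨σ, hσ⟩ (P.root c) (P.root c)
  have e1 : P.root (ac P σ c) = (⟨σ, hσ⟩ : P.weylGroup) • P.root c :=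
    RootPairing.Equiv.root_indexEquiv_eq_smul P c σ
  rw [← e1] at e
  have := P.pairingIn_pairingIn_mem_set_of_length_eq e
  simp only [Set.mem_insert_iff, Set.mem_singleton_iff, Prod.mk.injEq] at this
  omega

theorem hBv_big (hp : p.Prime) (h5 : 5 ≤ p) (hq : p ∣ Nat.card K - 1) : Big K :=
  big_of hp (by omega) hq fun e => by
    rw [e] at hq
    have := Nat.le_of_dvd (by omega) hq
    omega

theorem Chv.quad (h : Chv x b) (hp : p.Prime) (h5 : 5 ≤ p) (hq : p ∣ Nat.card K - 1) :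
    ∀ m ∈ NN P x, (∀ d ∈ TT P x, (∃ c, d ^ p ^ c = 1) → Commute (d * m * d⁻¹ * m⁻¹) m) →
      m ∈ TT P x := by
  intro m hm hc
  have := Fact.mk hp
  obtain ⟨σ, hσ, k⟩ := h.act_ex hm
  obtain ⟨s, hs⟩ := exists_prime_orderOf_dvd_card' (G := Kˣ) p (by rwa [Nat.card_units])
  have key : ∀ c, ac P σ c = c := fun c => by
    have c1 := hc _ (hBv_h c s) ⟨1, by
      rw [pow_one, hBv_pow h, ← hs, pow_orderOf_eq_one, hv, mul_inv_cancel]⟩
    have e1 : hv P x c s * m * (hv P x c s)⁻¹ * m⁻¹ = hv P x c s * hv P x (ac P σ c) s ^ (-1 : ℤ) := by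
      rw [← h.act_h k]
      group
    have e2 : hv P x (ac P σ c) s * hv P x (ac P σ (ac P σ c)) s ^ (-1 : ℤ) =
        hv P x c s * hv P x (ac P σ c) s ^ (-1 : ℤ) := by
      rw [e1] at c1
      calc _ = m * (hv P x c s * hv P x (ac P σ c) s ^ (-1 : ℤ)) * m⁻¹ := by
            rw [← h.act_h k (ac P σ c), ← h.act_h k c]
            group
        _ = _ := by rw [← c1.eq, mul_inv_cancel_right]
    have s1 := (h.sc_h (ac P σ c) (ac P σ c) s).mul
      ((h.sc_h (ac P σ (ac P σ c)) (ac P σ c) s).zpow (-1))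
    have s2 := (h.sc_h c (ac P σ c) s).mul ((h.sc_h (ac P σ c) (ac P σ c) s).zpow (-1))
    rw [e2] at s1
    have e3 := h.sc_uq s1 s2
    rw [ac_pr, ac_pr, ← zpow_mul, ← zpow_mul, ← zpow_add, ← zpow_add, zpow_eq_zpow_iff_modEq, hs,
      P.pairingIn_same, hBv_len hσ] at e3
    have e4 := Int.ModEq.dvd e3
    have e5 := P.pairingIn_pairingIn_mem_set_of_isCrystal_of_isRed c (ac P σ c)
    rw [hBv_len hσ] at e5
    simp only [Set.mem_insert_iff, Set.mem_singleton_iff, Prod.mk.injEq] at e5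
    have e6 : P.pairingIn ℤ c (ac P σ c) = 2 := by
      by_contra hne
      have e7 : (p : ℤ) ∣ 24 := by
        refine e4.trans ?_
        generalize P.pairingIn ℤ c (ac P σ c) = z at e5 hne
        have : z = 0 ∨ z = 1 ∨ z = -1 ∨ z = -2 := by omega
        rcases this with rfl | rfl | rfl | rfl <;> decide
      have e8 : p ∣ 24 := by exact_mod_cast e7
      have e9 := Nat.le_of_dvd (by omega) e8
      interval_cases p <;> first | omega | (exact absurd hp (by decide))
    exact ((P.pairingIn_two_two_iff ℤ c (ac P σ c)).1 ⟨e6, (hBv_len hσ c).trans e6⟩).symm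
  refine h.del hm (fun c hc u => ?_) (hBv_big hp h5 hq)
  obtain ⟨d, hd⟩ := k c
  rw [(hd u).1, key]
  exact Subgroup.subset_closure ⟨c, hc, _, rfl⟩

omit [Finite X] [P.IsRootSystem] in
theorem hBv_tor (h : Chv x b) (hK : Big K) (hU : (U : Subgroup X) = UU x b) :
    Tor U (NN P x) = TT P x := by
  rw [← h.tor hK, ← hU]
  rfl

theorem Chv.bv (h : Chv x b) [Fact r.Prime] [CharP K r] (hU : (U : Subgroup X) = UU x b)
    (hp : p.Prime) (h5 : 5 ≤ p) (hq : p ∣ Nat.card K - 1) : BV p U (NN P x) := by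
  have hK := hBv_big hp h5 hq
  have e : ∀ g, g ∈ U ↔ g ∈ UU x b := fun g => by rw [← hU]; rfl
  refine ⟨fun e1 => ?_, ?_, ?_, fun g => ?_, fun u hu h1 => ?_, ?_⟩
  · subst e1
    have := Fintype.ofFinite K
    obtain ⟨n, -, hn⟩ := FiniteField.card K p
    have h3 : 1 < Nat.card K := Finite.one_lt_card
    have h6 : p ∣ Nat.card K := by
      rw [Nat.card_eq_fintype_card, hn]
      exact dvd_pow_self _ n.ne_zero
    have := (Nat.dvd_sub h6 hq)
    rw [show Nat.card K - (Nat.card K - 1) = 1 by omega] at this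
    exact hp.one_lt.ne' (Nat.dvd_one.1 this)
  · rw [hBv_tor h hK hU]
    exact h.T_ab
  · rw [hBv_tor h hK hU]
    exact h.T_nrm
  · simpa only [e] using h.bru g
  · rw [hBv_tor h hK hU]
    simpa only [pow_one] using h.orb hK (v := 1) hp (by omega) (by rwa [pow_one]) ((e u).1 hu) h1
  · rw [hBv_tor h hK hU]
    exact h.quad hp h5 hq

theorem Chv.ts (h : Chv x b) (hK : Big K) (hU : (U : Subgroup X) = UU x b) (e : En b k a) :
    TS k U (NN P x) fun i => wv P x (a i) 1 := by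
  have e1 : ∀ g, g ∈ U ↔ g ∈ UU x b := fun g => by rw [← hU]; rfl
  refine ⟨fun i _ => Subgroup.subset_closure ⟨_, _, rfl⟩, fun i _ => ?_, fun i _ hi => ?_, ?_,
    fun i hi => ?_⟩
  · rw [hBv_tor h hK hU]
    exact h.w_sq _
  · rw [hBv_tor h hK hU] at hi
    have e2 := h.act_uq hK (h.act_w (a i) 1) (h.act_T hi)
    have e3 : RootPairing.Equiv.reflection P (a i) • P.root (a i) = P.root (a i) := by
      rw [e2, one_smul]
    rw [RootPairing.Equiv.reflection_smul, P.reflection_apply_self, neg_eq_iff_add_eq_zero,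
      ← two_smul ℚ, smul_eq_zero] at e3
    exact e3.elim two_ne_zero (P.ne_zero _)
  · rw [hBv_tor h hK hU]
    refine h.N_gen.trans (Subgroup.closure_mono (Set.union_subset_union_right _ ?_))
    rintro _ ⟨c, hc, rfl⟩
    obtain ⟨i, hi, rfl⟩ := e.sur c hc
    exact ⟨i, hi, rfl⟩
  · rw [hBv_tor h hK hU]
    simpa only [e1] using h.tits (e.mem i hi)

theorem Chv.idx (h : Chv x b) (hK : Big K) :
    (TT P x).relIndex (NN P x) = Nat.card P.weylGroup := by
  obtain ⟨φ, -, h2, h3⟩ := h.hom hK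
  have : (TT P x).subgroupOf (NN P x) = φ.ker := Subgroup.ext fun g => (h3 g).symm
  rw [Subgroup.relIndex, this, Subgroup.index_ker, h2]

end Pool.Agent.Lib.MP_1ae3da_al.JV
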