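import Pool.Agent.Lib.MP_1ae3da_al.H.Df

/-! Twisted groups: definitions. -/

namespace Pool.Agent.Lib.MP_1ae3da_al.JV

variable {ι M N K X : Type} [AddCommGroup M] [Module ℚ M] [AddCommGroup N] [Module ℚ N]
  {P : RootPairing ι ℚ M N} [Field K] [Group X] (x : ι → K → X)

/-- the opposite unipotent subgroup. -/
abbrev UM (b : P.Base) : Subgroup X := VS x {a | ¬ b.IsPos a}

/-- `ρ` is a symmetry of the diagram. -/
def Bas (b : P.Base) (ρ : P.Aut) : Prop := ∀ a ∈ b.support, ac P ρ a ∈ b.support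

/-- the twisting automorphism. -/
structure Twd (b : P.Base) (ρ : P.Aut) (φ : K →+* K) (σ : MulAut X) : Prop where
  bas : Bas b ρ
  sim : ∀ a, (a ∈ b.support ∨ ng P a ∈ b.support) → ∀ t, σ (x a t) = x (ac P ρ a) (φ t)

/-- a `ρ`-stable list of orthogonal simple roots. -/
structure OL [P.IsCrystallographic] (b : P.Base) (ρ : P.Aut) (L : List ι) : Prop where
  mem : ∀ d ∈ L, d ∈ b.support
  orth : L.Pairwise fun d d' => P.pairingIn ℤ d d' = 0
  perm : (L.map (ac P ρ)).Perm L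

/-- what is needed of the root system. -/
structure Rt [P.IsCrystallographic] (p : ℕ) (b : P.Base) (ρ : P.Aut) : Prop where
  ne : b.support.Nonempty
  cov : ∀ a ∈ b.support, ∃ L, OL b ρ L ∧ a ∈ L
  sep : ∀ c, b.IsPos c → ∃ L, OL b ρ L ∧ ¬ (p : ℤ) ∣ (L.map fun d => P.pairingIn ℤ c d).sum
  wy : ∀ τ ∈ P.weylGroup, τ * ρ = ρ * τ → τ ^ p = 1 → τ = 1

end Pool.Agent.Lib.MP_1ae3da_al.JV
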