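import Pool.Agent.Lib.MP_1ae3da_al.H.Exc
import Pool.Agent.Lib.MP_1ae3da_al.H.Te
import Pool.Agent.Lib.MP_1ae3da_al.Z.BW

/-! The Tits systems of the exceptional groups. -/

namespace Pool.Agent.Lib.MP_1ae3da_al.JV

open SLI JM

section
variable {ι M N K X : Type} [AddCommGroup M] [Module ℚ M] [AddCommGroup N] [Module ℚ N]
  {P : RootPairing ι ℚ M N} [Field K] [Group X] {x : ι → K → X} [P.IsCrystallographic]
  [Finite ι] [P.IsReduced] [P.IsRootSystem] [Finite K] [Finite X] {b : P.Base} {p r : ℕ}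
  {U : Sylow r X}

omit [P.IsRootSystem] [Finite X] in
theorem Chv.tor' (h : Chv x b) (hK : Big K) (hU : (U : Subgroup X) = UU x b) :
    Tor U (NN P x) = TT P x := by
  rw [← h.tor hK, ← hU]
  rfl

theorem Chv.bw (h : Chv x b) [Fact r.Prime] [CharP K r] (hK : Big K)
    (hU : (U : Subgroup X) = UU x b) (hp : p.Prime) (h2 : p ≠ 2) {v : ℕ}
    (hv : p ^ (v + 1) ∣ Nat.card K - 1) (hW : ¬ p ^ (v + 1) ∣ Nat.card P.weylGroup) :
    BW p U (NN P x) := by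
  have := Fact.mk hp
  have e := h.tor' hK hU
  refine ⟨fun c => ?_, e ▸ h.T_ab, e ▸ h.T_nrm, fun g => ?_, fun u hu h1 => ?_⟩
  · have := Fintype.ofFinite K
    obtain ⟨n, -, hn⟩ := FiniteField.card K r
    have c1 : p ∣ Nat.card K := by
      rw [Nat.card_eq_fintype_card, hn, c]
      exact dvd_pow_self r n.ne_zero
    have c2 := Nat.dvd_sub c1 ((dvd_pow_self p v.succ_ne_zero).trans hv)
    rw [Nat.sub_sub_self Nat.card_pos, Nat.dvd_one] at c2
    exact hp.ne_one c2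
  · obtain ⟨u, hu, n, hn, w, hw, c⟩ := h.bru g
    exact ⟨u, by rwa [← hU] at hu, n, hn, w, by rwa [← hU] at hw, c⟩
  · rw [e, h.idx hK]
    have c1 := (padicValNat_dvd_iff_le (show (Subgroup.centralizer {u}).relIndex (TT P x) ≠ 0 from
      Subgroup.index_ne_zero_of_finite)).1 (h.orb hK hp h2 hv (by rwa [← hU]) h1)
    have := @wy_fin _ _ _ _ _ _ _ P _ _ _
    rw [padicValNat_dvd_iff_le Nat.card_pos.ne'] at hW
    omega

end

/-- the Tits system of an exceptional group. -/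
theorem Exc.str2 {p : ℕ} (hp : p.Prime) (h2 : p ≠ 2) {X : Type} [Group X] [Finite X]
    (h : Exc p X) : ∃ (r : ℕ) (_ : Fact r.Prime) (U : Sylow r X) (N : Subgroup X),
      (U : Subgroup X) ≠ ⊥ ∧ ¬ p ^ 2 ∣ (Tor U N).relIndex N ∧ (BW p U N ∨ ∃ k j M n w, TE p k j U N M n w) := by
  obtain ⟨ι, M, N, K, _, _, _, _, P, _, _, _, _, b, _, _, x, h, hq, ht⟩ := h
  obtain ⟨r, hr⟩ := CharP.exists K
  have : Fact r.Prime := ⟨CharP.char_is_prime K r⟩
  have p3 : 3 ≤ p := by have := hp.two_le; omega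
  have hK : Big K := big_of hp h2 hq fun c => by
    rw [c] at hq ht
    have := Nat.le_of_dvd (by norm_num) hq
    rcases ht with ⟨-, c | c⟩ | c | c <;> omega
  obtain ⟨U, hU⟩ := h.syl hK r
  have sq : ¬ p ^ 2 ∣ Nat.card P.weylGroup := by
    rcases ht with ⟨c, -⟩ | ⟨d, c | c | c⟩ | ⟨d, c⟩ <;> exact wy_sq c hp (by omega)
  have u0 : (U : Subgroup X) ≠ ⊥ := fun c => by
    obtain ⟨a, ha⟩ : ∃ a, a ∈ b.support := by
      rcases ht with ⟨⟨e, -⟩, -⟩ | ⟨-, ⟨e, -⟩ | ⟨e, -⟩ | ⟨e, -⟩⟩ | ⟨-, e, -⟩ <;>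
        exact ⟨_, (e 0).2⟩
    have m : x a 1 ∈ UU x b :=
      Subgroup.subset_closure ⟨a, RootPairing.Base.isPos_of_mem_support ha, 1, rfl⟩
    rw [← hU, c] at m
    exact one_ne_zero (h.inj a 1 m)
  refine ⟨r, this, U, NN P x, u0, by rwa [h.tor' hK hU, h.idx hK], ?_⟩
  by_cases hd : p ∣ Nat.card P.weylGroup
  swap
  · exact .inl (h.bw (v := 0) hK hU hp h2 (by simpa using hq) (by simpa using hd))
  have te : ∀ k, 5 ≤ p → p ≤ k → ((k = 6 ∧ Ty b CartanMatrix.E₆) ∨ (k = 7 ∧ Ty b CartanMatrix.E₇) ∨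
      (k = 8 ∧ Ty b CartanMatrix.E₈)) → ∃ k j M n w, TE p k j U (NN P x) M n w := fun k h5 pk c => by
    obtain ⟨a, e, ha⟩ := dg_en c
    obtain ⟨M', w, c⟩ := h.te hU hp h5 hq (by omega) e ha pk sq
    exact ⟨_, _, _, _, _, c⟩
  have n6 : p ≠ 6 := by rintro rfl; norm_num at hp
  have n8 : p ≠ 8 := by rintro rfl; norm_num at hp
  have n9 : p ≠ 9 := by rintro rfl; norm_num at hp
  rcases ht with ⟨c, d⟩ | ⟨d, c | c | c⟩ | ⟨d, c⟩ <;> obtain ⟨c1, c2⟩ := wy_dvd c hp hd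
  · obtain rfl : p = 3 := by omega
    exact .inl (h.bw (v := 1) hK hU hp h2 (d.resolve_left (by omega)) sq)
  · obtain rfl : p = 5 := by omega
    have := c2 rfl
    rw [ct_f4 c] at this
    omega
  · refine .inr (te 6 d ?_ (.inl ⟨rfl, c⟩))
    by_contra e
    obtain rfl : p = 7 := by omega
    have := c2 rfl
    rw [ct_e6 c] at this
    omega
  · exact .inr (te 7 d (by omega) (.inr (.inl ⟨rfl, c⟩)))
  · exact .inr (te 8 (by omega) (by omega) (.inr (.inr ⟨rfl, c⟩)))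

theorem Exc.str {p : ℕ} (hp : p.Prime) (h2 : p ≠ 2) {X : Type} [Group X] [Finite X]
    (h : Exc p X) : ∃ (r : ℕ) (_ : Fact r.Prime) (U : Sylow r X) (N : Subgroup X),
      ¬ p ^ 2 ∣ (Tor U N).relIndex N ∧ (BW p U N ∨ ∃ k j M n w, TE p k j U N M n w) := by
  obtain ⟨r, hr, U, N, -, c⟩ := h.str2 hp h2
  exact ⟨r, hr, U, N, c⟩

end Pool.Agent.Lib.MP_1ae3da_al.JV
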