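import Pool.Agent.Lib.MP_1ae3da_al.H.Df

/-! The relations between the elements of `N`. -/

namespace Pool.Agent.Lib.MP_1ae3da_al.JV

variable {ι M N K X : Type} [AddCommGroup M] [Module ℚ M] [AddCommGroup N] [Module ℚ N]
  {P : RootPairing ι ℚ M N} [Field K] [Group X] {x : ι → K → X} [P.IsCrystallographic]
  {b : P.Base} {a c : ι} {g t : X} {σ τ : P.Aut} {S : Set ι}

theorem Chv.zero (h : Chv x b) (a : ι) : x a 0 = 1 := by
  have e := h.add a 0 0
  rw [add_zero] at e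
  exact left_eq_mul.1 e

theorem Chv.neg (h : Chv x b) (a : ι) (u : K) : x a (-u) = (x a u)⁻¹ := by
  have e := h.add a (-u) u
  rw [neg_add_cancel, h.zero] at e
  exact eq_inv_of_mul_eq_one_left e.symm

theorem Chv.w_inv (h : Chv x b) (a : ι) (s : Kˣ) : (wv P x a s)⁻¹ = wv P x a (-s) := by
  unfold wv
  have e : (((-s)⁻¹ : Kˣ) : K) = -((s⁻¹ : Kˣ) : K) := by
    rw [inv_neg, Units.val_neg]
  rw [e, Units.val_neg, h.neg a, h.neg _ (-((s⁻¹ : Kˣ) : K))]
  group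

omit [P.IsCrystallographic] in
theorem hRl_root (σ : P.Aut) (a : ι) : P.root (ac P σ a) = σ • P.root a :=
  RootPairing.Equiv.root_indexEquiv_eq_smul P a σ

omit [P.IsCrystallographic] in
theorem hRl_ng (a : ι) : P.root (ng P a) = -P.root a := by
  rw [P.root_reflectionPerm, P.reflection_apply_self]

omit [P.IsCrystallographic] in
theorem ac_ng (σ : P.Aut) (a : ι) : ac P σ (ng P a) = ng P (ac P σ a) := by
  apply P.root.injective
  rw [hRl_root, hRl_ng, hRl_ng, hRl_root, smul_neg]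

omit [P.IsCrystallographic] in
theorem hRl_pr (σ : P.Aut) (a c : ι) : P.pairing (ac P σ a) (ac P σ c) = P.pairing a c := by
  have e := LinearMap.congr_fun
    (RootPairing.Hom.weight_coweight_transpose_apply P P (P.coroot (ac P σ c)) σ.toHom) (P.root a)
  have e1 : σ.toHom.coweightMap (P.coroot (ac P σ c)) = P.coroot c := by
    rw [RootPairing.Hom.coroot_coweightMap_apply]
    exact congrArg _ (Equiv.symm_apply_apply _ c)
  have e2 : σ.toHom.weightMap (P.root a) = P.root (ac P σ a) :=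
    RootPairing.Hom.root_weightMap_apply P P a σ.toHom
  rw [e1, LinearMap.dualMap_apply, e2] at e
  exact e

theorem ac_pr (σ : P.Aut) (a c : ι) : P.pairingIn ℤ (ac P σ a) (ac P σ c) = P.pairingIn ℤ a c := by
  apply FaithfulSMul.algebraMap_injective ℤ ℚ
  rw [P.algebraMap_pairingIn, P.algebraMap_pairingIn, hRl_pr]

omit [P.IsCrystallographic] in
theorem hRl_one (a : ι) : ac P 1 a = a := rfl

omit [P.IsCrystallographic] in
theorem hRl_mul (σ τ : P.Aut) (a : ι) : ac P (σ * τ) a = ac P σ (ac P τ a) := rfl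

omit [P.IsCrystallographic] in
theorem hRl_inv (σ : P.Aut) (a : ι) : ac P σ (ac P σ⁻¹ a) = a := by
  rw [← hRl_mul, mul_inv_cancel, hRl_one]

omit [P.IsCrystallographic] in
theorem hRl_rf (a c : ι) : ac P (RootPairing.Equiv.reflection P a) c = P.reflectionPerm a c := rfl

omit [P.IsCrystallographic] in
theorem act_one : Act P x 1 1 := by
  intro a
  refine ⟨1, fun u => ?_⟩
  simp only [hRl_one, one_mul, inv_one, mul_one, Units.val_one, and_self]

omit [P.IsCrystallographic] in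
theorem Act.mul {g' : X} (h : Act P x g σ) (k : Act P x g' τ) : Act P x (g * g') (σ * τ) := by
  intro a
  obtain ⟨c', hc'⟩ := k a
  obtain ⟨c, hc⟩ := h (ac P τ a)
  refine ⟨c * c', fun u => ⟨?_, ?_⟩⟩
  · rw [hRl_mul, Units.val_mul, mul_assoc (c : K), ← (hc _).1, ← (hc' u).1]
    group
  · rw [hRl_mul, mul_inv, Units.val_mul, mul_assoc ((c⁻¹ : Kˣ) : K), ← (hc _).2, ← (hc' u).2]
    group

omit [P.IsCrystallographic] in
theorem Act.inv (h : Act P x g σ) : Act P x g⁻¹ σ⁻¹ := by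
  intro a
  obtain ⟨c, hc⟩ := h (ac P σ⁻¹ a)
  rw [hRl_inv] at hc
  refine ⟨c⁻¹, fun u => ⟨?_, ?_⟩⟩
  · have e := (hc ((c⁻¹ : Kˣ) * u)).1
    rw [Units.mul_inv_cancel_left] at e
    rw [← e]
    group
  · have e := (hc ((c : K) * u)).2
    rw [Units.inv_mul_cancel_left] at e
    rw [← e, inv_inv, inv_inv]
    group

theorem hRl_sq (e : ℤˣ) : ((e : ℤ) : K) * ((e : ℤ) : K) = 1 := by
  rw [← Int.cast_mul, ← Units.val_mul, Int.units_mul_self, Units.val_one, Int.cast_one]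

theorem Chv.act_w (h : Chv x b) (a : ι) (s : Kˣ) :
    Act P x (wv P x a s) (RootPairing.Equiv.reflection P a) := by
  intro c
  obtain ⟨e, he⟩ := h.wy a c
  let E : Kˣ := ⟨((e : ℤ) : K), ((e : ℤ) : K), hRl_sq e, hRl_sq e⟩
  refine ⟨E * s ^ (-P.pairingIn ℤ c a), fun u => ⟨?_, ?_⟩⟩
  · rw [he c (Or.inl rfl), hRl_rf, Units.val_mul, Units.val_zpow_eq_zpow_val]
  · rw [he (ng P c) (Or.inr (hRl_ng c)), ← ac_ng, hRl_rf, P.pairingIn_reflectionPerm_self_left,
      mul_inv, ← zpow_neg, Units.val_mul, Units.val_zpow_eq_zpow_val]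
    rfl

theorem Chv.act_ex (h : Chv x b) (hg : g ∈ NN P x) : ∃ σ ∈ P.weylGroup, Act P x g σ := by
  unfold NN at hg
  induction hg using Subgroup.closure_induction with
  | mem y hy =>
    obtain ⟨a, s, rfl⟩ := hy
    exact ⟨_, P.reflection_mem_weylGroup a, h.act_w a s⟩
  | one => exact ⟨1, one_mem _, act_one⟩
  | mul y z _ _ hy hz =>
    obtain ⟨σ, h1, h2⟩ := hy
    obtain ⟨τ, h3, h4⟩ := hz
    exact ⟨σ * τ, mul_mem h1 h3, h2.mul h4⟩
  | inv y _ hy =>
    obtain ⟨σ, h1, h2⟩ := hy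
    exact ⟨σ⁻¹, inv_mem h1, h2.inv⟩

omit [P.IsCrystallographic] in
theorem hRl_w {a a' : ι} {c : Kˣ} (h1 : ∀ u : K, g * x a u * g⁻¹ = x a' (c * u))
    (h2 : ∀ u : K, g * x (ng P a) u * g⁻¹ = x (ng P a') ((c⁻¹ : Kˣ) * u)) (s : Kˣ) :
    g * wv P x a s * g⁻¹ = wv P x a' (c * s) := by
  unfold wv
  rw [mul_inv, Units.val_mul, Units.val_mul, ← mul_neg, ← h1, ← h2]
  group

omit [P.IsCrystallographic] in
theorem Act.w (h : Act P x g σ) (a : ι) :
    ∃ c : Kˣ, ∀ s, g * wv P x a s * g⁻¹ = wv P x (ac P σ a) (c * s) := by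
  obtain ⟨c, hc⟩ := h a
  exact ⟨c, hRl_w (fun u => (hc u).1) fun u => (hc u).2⟩

theorem Chv.act_h (h : Chv x b) (k : Act P x g σ) (a : ι) (s : Kˣ) :
    g * hv P x a s * g⁻¹ = hv P x (ac P σ a) s := by
  obtain ⟨c, hc⟩ := k.w a
  have e := h.hm (ac P σ a) s c
  have e1 := hc s
  have e2 := hc 1
  rw [mul_comm c s] at e1
  rw [mul_one] at e2
  have e3 : hv P x (ac P σ a) s = hv P x (ac P σ a) (s * c) * (hv P x (ac P σ a) c)⁻¹ := by
    rw [e, mul_inv_cancel_right]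
  rw [e3]
  unfold hv
  rw [← e1, ← e2]
  group

theorem Chv.sc_h (h : Chv x b) (a c : ι) (s : Kˣ) :
    Sc x (hv P x a s) c (s ^ P.pairingIn ℤ c a) := by
  intro u
  obtain ⟨e, he⟩ := h.wy a (P.reflectionPerm a c)
  have p : -P.pairingIn ℤ (P.reflectionPerm a c) a = P.pairingIn ℤ c a := by
    rw [← P.pairingIn_reflectionPerm, P.pairingIn_reflectionPerm_self_right, neg_neg]
  have e1 := he _ (Or.inl rfl) 1 (((e : ℤ) : K) * u)
  have e2 := he _ (Or.inl rfl) s (((e : ℤ) : K) * u)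
  rw [P.reflectionPerm_self, Units.val_one, one_zpow, mul_one, ← mul_assoc ((e : ℤ) : K), hRl_sq,
    one_mul] at e1
  rw [P.reflectionPerm_self, p, mul_comm ((e : ℤ) : K) ((s : K) ^ _),
    mul_assoc ((s : K) ^ _), ← mul_assoc ((e : ℤ) : K), hRl_sq, one_mul] at e2
  rw [Units.val_zpow_eq_zpow_val, ← e2, ← e1]
  unfold hv
  group

theorem Chv.h_w (h : Chv x b) (a c : ι) (s u : Kˣ) :
    hv P x c s * wv P x a u * (hv P x c s)⁻¹ = wv P x a (s ^ P.pairingIn ℤ a c * u) := by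
  refine hRl_w (h.sc_h c a s) (fun v => ?_) u
  rw [h.sc_h c (ng P a) s v, P.pairingIn_reflectionPerm_self_left, zpow_neg]

omit [P.IsCrystallographic] in
theorem hRl_wv (δ : MulAut X) (a : ι) (s : Kˣ) :
    wv P (fun a u => δ (x a u)) a s = δ (wv P x a s) := by
  simp only [wv, map_mul]

omit [P.IsCrystallographic] in
theorem hRl_hv (δ : MulAut X) (a : ι) (s : Kˣ) :
    hv P (fun a u => δ (x a u)) a s = δ (hv P x a s) := by
  simp only [hv, map_mul, map_inv, hRl_wv]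

theorem Chv.map (h : Chv x b) (δ : MulAut X) :
    Chv (fun a u => δ (x a u)) b ∧ NN P (fun a u => δ (x a u)) = (NN P x).map δ.toMonoidHom := by
  refine ⟨⟨fun a s t => ?_, fun a t e => ?_, ?_, fun a c hc s t => ?_, fun a c => ?_,
    fun a s t => ?_, fun a ha c hc h1 h2 => ?_⟩, ?_⟩
  · rw [h.add, map_mul]
  · exact h.inj a t ((map_eq_one_iff δ δ.injective).1 e)
  · have e := congrArg (Subgroup.map δ.toMonoidHom) h.gen
    rw [MonoidHom.map_closure, Subgroup.map_top_of_surjective _ δ.surjective] at e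
    rw [← e]
    congr 1
    ext y
    constructor
    · rintro ⟨a, t, rfl⟩
      exact ⟨_, ⟨a, t, rfl⟩, rfl⟩
    · rintro ⟨_, ⟨a, t, rfl⟩, rfl⟩
      exact ⟨a, t, rfl⟩
  · have e := Subgroup.mem_map_of_mem δ.toMonoidHom (h.cm a c hc s t)
    rw [MonoidHom.map_closure] at e
    simp only [map_mul, map_inv] at e
    refine Subgroup.closure_mono ?_ e
    rintro _ ⟨_, ⟨d, u, i, j, hi, hj, hd, rfl⟩, rfl⟩
    exact ⟨d, u, i, j, hi, hj, hd, rfl⟩
  · obtain ⟨e, he⟩ := h.wy a c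
    refine ⟨e, fun c' hc t u => ?_⟩
    rw [hRl_wv, ← he c' hc t u, map_mul, map_mul, map_inv]
  · rw [hRl_hv, hRl_hv, hRl_hv, h.hm, map_mul]
  · rw [hRl_wv, hRl_wv, ← map_mul, ← map_mul, ← map_mul, ← map_mul, h.br a ha c hc h1 h2]
  · unfold NN
    rw [MonoidHom.map_closure]
    congr 1
    ext y
    constructor
    · rintro ⟨a, t, rfl⟩
      exact ⟨_, ⟨a, t, rfl⟩, (hRl_wv δ a t).symm⟩
    · rintro ⟨_, ⟨a, t, rfl⟩, rfl⟩
      exact ⟨a, t, (hRl_wv δ a t).symm⟩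

end Pool.Agent.Lib.MP_1ae3da_al.JV
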