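import Pool.Agent.Lib.MP_1ae3da_al.H.Xf
import Pool.Agent.Lib.MP_1ae3da_al.H.Rl
import Pool.Agent.Lib.MP_1ae3da_al.H.Wy

/-! Simply laced root systems; type `D₄`. -/

namespace Pool.Agent.Lib.MP_1ae3da_al.JV

variable {ι M N : Type} [AddCommGroup M] [Module ℚ M] [AddCommGroup N] [Module ℚ N]
  {P : RootPairing ι ℚ M N} [P.IsCrystallographic] [Finite ι] [P.IsReduced] [P.IsRootSystem]
  {b : P.Base} {p : ℕ} {ρ : P.Aut}

theorem xs_sym (h : ∀ a ∈ b.support, ∀ d ∈ b.support, P.pairingIn ℤ a d = P.pairingIn ℤ d a)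
    (c d : ι) : P.pairingIn ℤ c d = P.pairingIn ℤ d c := by
  have s : ∀ d, ∀ a ∈ b.support, P.pairingIn ℤ a d = P.pairingIn ℤ d a := fun d => by
    refine b.induction_reflect d (p := fun d => ∀ a ∈ b.support,
      P.pairingIn ℤ a d = P.pairingIn ℤ d a) (fun i hi a ha => ?_) (fun i hi a ha => h a ha i hi)
      fun i j hi hj a ha => ?_
    · simp [hi a ha]
    · rw [P.pairingIn_reflectionPerm, hCt_pr, hCt_pr, hi a ha, hi j hj, h a ha j hj, mul_comm]
  revert d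
  refine b.induction_reflect c (p := fun c => ∀ d, P.pairingIn ℤ c d = P.pairingIn ℤ d c)
    (fun i hi d => ?_) (fun i hi d => s d i hi) fun i j hi _ d => ?_
  · simp [hi d]
  · rw [← P.pairingIn_reflectionPerm, hi, P.pairingIn_reflectionPerm]

theorem xs_abs (h : ∀ a ∈ b.support, ∀ d ∈ b.support, P.pairingIn ℤ a d = P.pairingIn ℤ d a)
    {c d : ι} (hc : b.IsPos c) (hd : b.IsPos d) (ne : c ≠ d) : |P.pairingIn ℤ c d| ≤ 1 := by
  have k := P.pairingIn_pairingIn_mem_set_of_isCrystal_of_isRed' c d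
    (fun e => ne (P.root.injective e)) fun e => by
      rw [← hRl_ng] at e
      have k : b.height (ng P d) = -b.height d := b.height_reflectionPerm_self d
      rw [P.root.injective e, b.isPos_iff] at hc
      rw [b.isPos_iff] at hd
      omega
  rw [xs_sym h d c] at k
  simp only [Set.mem_insert_iff, Set.mem_singleton_iff, Prod.mk.injEq] at k
  rw [abs_le]
  omega

theorem xs_ht {m : ℕ} (e : Fin m ≃ b.support) (l : Fin m → ℤ)
    (h : ∀ j, ∑ k, l k * P.pairingIn ℤ (e j) (e k) = 1) {c : ι} (hc : b.IsPos c) :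
    ∑ k, l k * P.pairingIn ℤ c (e k) = b.height c := by
  refine hc.induction_on_add (p := fun c => ∑ k, l k * P.pairingIn ℤ c (e k) = b.height c)
    (fun i hi => ?_) fun i j k hk hi hj => ?_
  · simpa [b.height_one_of_mem_support hi] using h (e.symm ⟨i, hi⟩)
  · have := h (e.symm ⟨j, hj⟩)
    rw [e.apply_symm_apply] at this
    rw [b.height_add hk, b.height_one_of_mem_support hj, ← hi, ← this, ← Finset.sum_add_distrib]
    exact Finset.sum_congr rfl fun m _ => by rw [P.pairingIn_eq_add_of_root_eq_add hk, mul_add]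

theorem xs_ct (h : Ty b (CartanMatrix.D 4)) : Nat.card ι = 24 :=
  hCt_card h
    [![0, -1, 0, 0], ![0, 1, 0, 0], ![-1, 1, -1, -1], ![1, 0, -1, -1], ![1, -1, 1, 1],
     ![-1, 0, 1, -1], ![-1, 0, -1, 1], ![-1, 0, 1, 1], ![1, -1, 1, -1], ![1, -1, -1, 1],
     ![1, 0, -1, 1], ![1, 0, 1, -1], ![-1, -1, 1, 1], ![0, 1, 0, -2], ![0, 1, -2, 0],
     ![-1, 1, -1, 1], ![-1, 1, 1, -1], ![1, -2, 1, 1], ![1, 1, -1, -1], ![-2, 1, 0, 0],
     ![0, -1, 0, 2], ![0, -1, 2, 0], ![-1, 2, -1, -1], ![2, -1, 0, 0]]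
    (by decide +kernel) (by decide +kernel) (by decide +kernel) (by decide +kernel)

theorem xs_aut : ∀ f : Fin 4 → Fin 4,
    (∀ i j, CartanMatrix.D 4 (f i) (f j) = CartanMatrix.D 4 i j) →
      f 1 = 1 ∧ [f 0, f 2, f 3].Perm [0, 2, 3] := by
  decide +kernel

theorem rt_d4 (h : Ty b (CartanMatrix.D 4)) (hρ : Bas b ρ) (hp : p.Prime) (h5 : 5 ≤ p) :
    Rt p b ρ := by
  have ct := xs_ct h
  have wy := wy_dvd h hp
  obtain ⟨e, he⟩ := h
  have he : ∀ i j, P.pairingIn ℤ (e i : ι) (e j) = CartanMatrix.D 4 i j := he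
  obtain ⟨f, hf⟩ : ∃ f : Fin 4 → Fin 4, ∀ i, ac P ρ (e i) = e (f i) :=
    ⟨fun i => e.symm ⟨_, hρ _ (e i).2⟩, fun i => by rw [e.apply_symm_apply]⟩
  obtain ⟨f1, f2⟩ := xs_aut f fun i j => by
    rw [← he, ← he, ← hf, ← hf]
    apply Int.cast_injective (α := ℚ)
    simpa [← P.algebraMap_pairingIn ℤ] using hRl_pr ρ (e i : ι) (e j)
  have o1 : OL b ρ [e 1] := ⟨by simp, by simp, by simp [hf, f1]⟩
  have o2 : OL b ρ [e 0, e 2, e 3] := ⟨by simp, by simp [he]; decide, by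
    simpa [hf] using f2.map fun i => (e i : ι)⟩
  have sy : ∀ a ∈ b.support, ∀ d ∈ b.support, P.pairingIn ℤ a d = P.pairingIn ℤ d a := by
    intro a ha d hd
    have := he (e.symm ⟨a, ha⟩) (e.symm ⟨d, hd⟩)
    have := he (e.symm ⟨d, hd⟩) (e.symm ⟨a, ha⟩)
    have := (by decide : ∀ i j, CartanMatrix.D 4 i j = CartanMatrix.D 4 j i)
      (e.symm ⟨a, ha⟩) (e.symm ⟨d, hd⟩)
    simp only [Equiv.apply_symm_apply] at *
    omega
  have cv : ∀ a ∈ b.support, ∃ L, OL b ρ L ∧ a ∈ L ∧ (L.map fun d => P.pairingIn ℤ a d).sum = 2 := by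
    intro a ha
    obtain ⟨i, hi⟩ := e.surjective ⟨a, ha⟩
    obtain rfl : (e i : ι) = a := congrArg Subtype.val hi
    fin_cases i
    exacts [⟨_, o2, by simp, by simp [he]; decide⟩, ⟨_, o1, by simp, by simp⟩,
      ⟨_, o2, by simp, by simp [he]; decide⟩, ⟨_, o2, by simp, by simp [he]; decide⟩]
  refine ⟨⟨_, (e 0).2⟩, fun a ha => (cv a ha).imp fun L k => ⟨k.1, k.2.1⟩, fun c hc => ?_,
    fun τ hτ _ k => ?_⟩
  · by_cases hs : c ∈ b.support
    · obtain ⟨L, k, -, k2⟩ := cv c hs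
      refine ⟨L, k, fun d => ?_⟩
      have := Int.le_of_dvd (by omega) d
      omega
    have ab : ∀ i, |P.pairingIn ℤ c (e i)| ≤ 1 := fun i =>
      xs_abs sy hc (b.isPos_of_mem_support (e i).2) fun k => hs (k ▸ (e i).2)
    have ht := xs_ht e ![3, 5, 3, 3] (by simp only [he]; decide) hc
    by_contra! k
    have k1 := Int.eq_zero_of_abs_lt_dvd (k _ o1)
    have k2 := Int.eq_zero_of_abs_lt_dvd (k _ o2)
    have a0 := abs_le.1 (ab 0)
    have a1 := abs_le.1 (ab 1)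
    have a2 := abs_le.1 (ab 2)
    have a3 := abs_le.1 (ab 3)
    rw [b.isPos_iff] at hc
    simp [Fin.sum_univ_four, abs_lt] at ht k1 k2
    omega
  · by_contra n1
    have := wy_fin (P := P)
    have : Fact p.Prime := ⟨hp⟩
    have o : orderOf (⟨τ, hτ⟩ : P.weylGroup) = p :=
      orderOf_eq_prime (Subtype.ext k) fun q => n1 (congrArg Subtype.val q)
    obtain ⟨w1, w2⟩ := wy (o ▸ orderOf_dvd_natCard _)
    obtain rfl : p = 5 := by omega
    have := w2 rfl
    omega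

end Pool.Agent.Lib.MP_1ae3da_al.JV
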