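import Pool.Agent.Lib.MP_1ae3da_al.H.Xs
import Pool.Agent.Lib.MP_1ae3da_al.H.Xa

/-! The centraliser of the flip in the Weyl group of type `E₆`. -/

namespace Pool.Agent.Lib.MP_1ae3da_al.JV

variable {ι M N : Type} [AddCommGroup M] [Module ℚ M] [AddCommGroup N] [Module ℚ N]

theorem xw_sub [Module.Finite ℚ M] {p : ℕ} (hp : p.Prime) {g : M ≃ₗ[ℚ] M} (h : g ^ p = 1)
    (V : Submodule ℚ M) (hV : ∀ v ∈ V, g.toLinearMap v ∈ V) (hd : Module.finrank ℚ V ≤ p - 1)
    (hf : Module.finrank ℚ V = p - 1 → ∃ v ∈ V, v ≠ 0 ∧ g v = v) : ∀ v ∈ V, g v = v := by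
  let k : V ≃ₗ[ℚ] V := LinearEquiv.ofInjectiveEndo (g.toLinearMap.restrict hV)
    fun u v e => Subtype.ext (g.injective (congrArg Subtype.val e))
  have e : ∀ v : V, (k v : M) = g v := fun v => rfl
  have en : ∀ (n : ℕ) (v : V), ((k ^ n) v : M) = (g ^ n) v := fun n => by
    induction n with
    | zero => exact fun v => rfl
    | succ n ih => exact fun v => by rw [pow_succ, pow_succ]; exact ih (k v)
  by_cases k1 : k = 1
  · exact fun v hv => by rw [← e ⟨v, hv⟩, k1]; rfl
  obtain ⟨h1, h2⟩ := mk_ord hp k1 (LinearEquiv.ext fun v => Subtype.ext (by rw [en, h]; rfl))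
  obtain ⟨v, hv, v0, v1⟩ := hf (le_antisymm hd h1)
  exact absurd (congrArg Subtype.val (h2 (le_antisymm hd h1) ⟨v, hv⟩ (Subtype.ext v1))) v0

variable {P : RootPairing ι ℚ M N} [P.IsRootSystem] {b : P.Base} {p : ℕ} {ρ : P.Aut} {a : ℕ → ι}

theorem xw_rng {k n : ℕ} (e : En b k a) (f : M →ₗ[ℚ] M) (v : Fin n → M)
    (h : ∀ i, i < k → f (P.root (a i)) ∈ Submodule.span ℚ (Set.range v)) :
    Module.finrank ℚ (LinearMap.range f) ≤ n := by
  have : LinearMap.range f ≤ Submodule.span ℚ (Set.range v) := by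
    rw [LinearMap.range_eq_map, ← RootPairing.IsRootSystem.span_root_eq_top (P := P)]
    change Submodule.map f (P.rootSpan ℚ) ≤ _
    rw [← b.span_root_support, Submodule.map_span, Submodule.span_le]
    rintro _ ⟨_, ⟨c, hc, rfl⟩, rfl⟩
    obtain ⟨i, hi, rfl⟩ := e.sur c hc
    exact h i hi
  have := Module.Finite.span_of_finite ℚ (Set.finite_range v)
  exact (Submodule.finrank_mono ‹_›).trans ((finrank_range_le_card v).trans (by simp))

variable [P.IsCrystallographic] [Finite ι] [P.IsReduced]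

theorem xw_wy (h : Ty b CartanMatrix.E₆) (hρ : Bas b ρ) (e : En b 6 a)
    (fl : ∀ i, i < 6 → ac P ρ (a i) = a (if i < 5 then 4 - i else i)) (hp : p.Prime)
    (h5 : 5 ≤ p) : ∀ τ ∈ P.weylGroup, τ * ρ = ρ * τ → τ ^ p = 1 → τ = 1 := by
  classical
  intro τ hτ cm k
  have ct := ct_e6 h
  have := wy_fin (P := P)
  have : Fact p.Prime := ⟨hp⟩
  obtain ⟨hf, -⟩ := vWy_dim h
  by_contra n1
  have o : orderOf (⟨τ, hτ⟩ : P.weylGroup) = p :=
    orderOf_eq_prime (Subtype.ext k) fun q => n1 (congrArg Subtype.val q)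
  obtain ⟨w1, w2⟩ := wy_dvd h hp (o ▸ orderOf_dvd_natCard _)
  obtain rfl : p = 5 := by
    have h6 : p ≠ 6 := fun q => by norm_num [q] at hp
    have h7 : p ≠ 7 := fun q => by
      have := w2 (by omega)
      rw [q] at this
      omega
    omega
  set g := RootPairing.Equiv.weightHom P τ with hg
  set r := RootPairing.Equiv.weightHom P ρ with hr
  have gp : g ^ 5 = 1 := by rw [hg, ← map_pow, k, map_one]
  have c : ∀ v, g (r v) = r (g v) := fun v => by
    change (g * r) v = (r * g) v
    rw [hg, hr, ← map_mul, cm, map_mul]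
  have ra : ∀ i, i < 6 → r (P.root (a i)) = P.root (a (if i < 5 then 4 - i else i)) :=
    fun i hi => by rw [← fl i hi, hRl_root]; rfl
  have r0 := ra 0 (by omega)
  have r1 := ra 1 (by omega)
  have r2 := ra 2 (by omega)
  have r3 := ra 3 (by omega)
  have r4 := ra 4 (by omega)
  have r5 := ra 5 (by omega)
  norm_num at r0 r1 r2 r3 r4 r5
  have d1 := xw_rng e (1 + r.toLinearMap) ![P.root (a 0) + P.root (a 4),
      P.root (a 1) + P.root (a 3), P.root (a 2) + P.root (a 2), P.root (a 5) + P.root (a 5)]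
    fun i hi => Submodule.subset_span (by
      interval_cases i <;> simp [r0, r1, r2, r3, r4, r5, add_comm])
  have d2 := xw_rng e (1 - r.toLinearMap) ![P.root (a 0) - P.root (a 4),
      P.root (a 4) - P.root (a 0), P.root (a 1) - P.root (a 3)] fun i hi => by
    interval_cases i
    exacts [Submodule.subset_span (by simp [r0]), Submodule.subset_span (by simp [r1]),
      by simp [r2], Submodule.neg_mem_iff _ |>.1 (Submodule.subset_span (by simp [r3])),
      Submodule.subset_span (by simp [r4]), by simp [r5]]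
  have := Fintype.ofFinite ι
  obtain ⟨i, hi⟩ := Equiv.Perm.exists_fixed_point_of_prime (p := 5) (n := 1)
    (by rw [← Nat.card_eq_fintype_card, ct]; norm_num)
    (σ := RootPairing.Equiv.indexHom P τ) (by rw [pow_one, ← map_pow, k, map_one])
  have gi : g (P.root i) = P.root i := by
    have := hRl_root τ i
    rw [show ac P τ i = i from hi] at this
    exact this.symm
  have f1 := xw_sub hp gp _ (by rintro _ ⟨v, rfl⟩; exact ⟨g v, by simp [c]⟩) d1 fun _ =>
    ⟨_, ⟨P.root i, rfl⟩, fun z => by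
      have z : P.root (ac P ρ i) = P.root (ng P i) := by
        rw [hRl_root, hRl_ng]
        exact eq_neg_of_add_eq_zero_right z
      have k : b.height (ng P i) = -b.height i := b.height_reflectionPerm_self i
      have := hρ.pos i
      have := b.height_ne_zero i
      simp only [P.root.injective z, b.isPos_iff] at *
      omega, by simp [c, gi]⟩
  have f2 := xw_sub hp gp _ (by rintro _ ⟨v, rfl⟩; exact ⟨g v, by simp [c]⟩) (d2.trans (by omega))
    fun q => by omega
  refine n1 (RootPairing.Equiv.weightHom_injective P (LinearEquiv.ext fun v => ?_))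
  have e1 := f1 _ ⟨v, rfl⟩
  have e2 := f2 _ ⟨v, rfl⟩
  simp only [LinearMap.add_apply, LinearMap.sub_apply, Module.End.one_apply, map_add, map_sub,
    LinearEquiv.coe_coe] at e1 e2
  rw [map_one]
  change g v = v
  refine smul_right_injective M (two_ne_zero (α := ℚ)) ?_
  change (2 : ℚ) • g v = (2 : ℚ) • v
  linear_combination (norm := module) e1 + e2

end Pool.Agent.Lib.MP_1ae3da_al.JV
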