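import Pool.Agent.Lib.MP_1ae3da_al.H.Xs
import Pool.Agent.Lib.MP_1ae3da_al.H.Xa
import Pool.Agent.Lib.MP_1ae3da_al.H.Dg
import Pool.Agent.Lib.MP_1ae3da_al.H.Xw

/-! Type `E₆`. -/

namespace Pool.Agent.Lib.MP_1ae3da_al.JV

variable {ι M N : Type} [AddCommGroup M] [Module ℚ M] [AddCommGroup N] [Module ℚ N]
  {P : RootPairing ι ℚ M N} [P.IsCrystallographic] [Finite ι] [P.IsReduced] [P.IsRootSystem]
  {b : P.Base} {p : ℕ} {ρ : P.Aut}

omit [Finite ι] [P.IsReduced] in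
theorem xe_flip (h : Ty b CartanMatrix.E₆) (hρ : Bas b ρ) (h1 : ρ ≠ 1) : ∃ a : ℕ → ι, En b 6 a ∧
    (∀ i j, i < 6 → j < 6 → P.pairingIn ℤ (a i) (a j) = eC 6 i j) ∧
    ∀ i, i < 6 → ac P ρ (a i) = a (if i < 5 then 4 - i else i) := by
  obtain ⟨a, e, ha⟩ := dg_en (k := 6) (Or.inl ⟨rfl, h⟩)
  refine ⟨a, e, ha, ?_⟩
  have : ∀ i, ∃ j, i < 6 → j < 6 ∧ a j = ac P ρ (a i) := fun i => by
    by_cases hi : i < 6
    · obtain ⟨j, hj, ej⟩ := e.sur _ (hρ _ (e.mem i hi))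
      exact ⟨j, fun _ => ⟨hj, ej⟩⟩
    · exact ⟨0, fun k => absurd k hi⟩
  choose f hf using this
  rcases dg_aut (Or.inl rfl) f (fun i hi => (hf i hi).1) (fun i j hi hj => by
    rw [← ha _ _ (hf i hi).1 (hf j hj).1, ← ha i j hi hj, (hf i hi).2, (hf j hj).2]
    apply Int.cast_injective (α := ℚ)
    simpa [← P.algebraMap_pairingIn ℤ] using hRl_pr ρ (a i) (a j)) with k | ⟨-, k⟩
  · exact absurd (dg_sym e fun i hi => by rw [← (hf i hi).2, k i hi]) h1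
  · exact fun i hi => by rw [← (hf i hi).2, k i hi]

theorem xe_wy (h : Ty b CartanMatrix.E₆) (hρ : Bas b ρ) (h1 : ρ ≠ 1) (hp : p.Prime) (h5 : 5 ≤ p) :
    ∀ τ ∈ P.weylGroup, τ * ρ = ρ * τ → τ ^ p = 1 → τ = 1 := by
  obtain ⟨a, e, -, fl⟩ := xe_flip h hρ h1
  exact xw_wy h hρ e fl hp h5

theorem rt_e6 (h : Ty b CartanMatrix.E₆) (hρ : Bas b ρ) (h1 : ρ ≠ 1) (hp : p.Prime) (h5 : 5 ≤ p) :
    Rt p b ρ := by
  obtain ⟨a, e, ha, fl⟩ := xe_flip h hρ h1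
  have m := e.mem
  have f0 : ac P ρ (a 0) = a 4 := fl 0 (by omega)
  have f1 : ac P ρ (a 1) = a 3 := fl 1 (by omega)
  have f2 : ac P ρ (a 2) = a 2 := fl 2 (by omega)
  have f3 : ac P ρ (a 3) = a 1 := fl 3 (by omega)
  have f4 : ac P ρ (a 4) = a 0 := fl 4 (by omega)
  have f5 : ac P ρ (a 5) = a 5 := fl 5 (by omega)
  have two : ∀ i j, i < 6 → j < 6 → eC 6 i j = 0 → ac P ρ (a i) = a j → ac P ρ (a j) = a i →
      OL b ρ [a i, a j] := fun i j hi hj z q1 q2 =>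
    ⟨by simp [m i hi, m j hj], by simp [ha i j hi hj, z], by
      simp only [List.map_cons, List.map_nil, q1, q2]
      exact List.Perm.swap _ _ _⟩
  have one : ∀ i, i < 6 → ac P ρ (a i) = a i → OL b ρ [a i] := fun i hi q =>
    ⟨by simp [m i hi], by simp, by simp only [List.map_cons, List.map_nil, q]; rfl⟩
  have o0 := two 0 4 (by omega) (by omega) (by decide) f0 f4
  have o1 := two 1 3 (by omega) (by omega) (by decide) f1 f3
  have o2 := one 2 (by omega) f2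
  have o5 := one 5 (by omega) f5
  have sy : ∀ c ∈ b.support, ∀ d ∈ b.support, P.pairingIn ℤ c d = P.pairingIn ℤ d c := by
    intro c hc d hd
    obtain ⟨i, hi, rfl⟩ := e.sur c hc
    obtain ⟨j, hj, rfl⟩ := e.sur d hd
    rw [ha i j hi hj, ha j i hj hi]
    exact (by decide : ∀ i < 6, ∀ j < 6, eC 6 i j = eC 6 j i) i hi j hj
  have cv : ∀ c ∈ b.support, ∃ L, OL b ρ L ∧ c ∈ L ∧
      (L.map fun d => P.pairingIn ℤ c d).sum = 2 := by
    intro c hc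
    obtain ⟨i, hi, rfl⟩ := e.sur c hc
    have z04 := ha 0 4 (by omega) (by omega)
    have z40 := ha 4 0 (by omega) (by omega)
    have z13 := ha 1 3 (by omega) (by omega)
    have z31 := ha 3 1 (by omega) (by omega)
    interval_cases i
    exacts [⟨_, o0, by simp, by simp [z04, eC]⟩, ⟨_, o1, by simp, by simp [z13, eC]⟩,
      ⟨_, o2, by simp, by simp⟩, ⟨_, o1, by simp, by simp [z31, eC]⟩,
      ⟨_, o0, by simp, by simp [z40, eC]⟩, ⟨_, o5, by simp, by simp⟩]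
  refine ⟨⟨_, m 0 (by omega)⟩, fun c hc => (cv c hc).imp fun L k => ⟨k.1, k.2.1⟩, fun c hc => ?_,
    xw_wy h hρ e fl hp h5⟩
  by_cases hs : c ∈ b.support
  · obtain ⟨L, k, -, k2⟩ := cv c hs
    refine ⟨L, k, fun d => ?_⟩
    have := Int.le_of_dvd (by omega) d
    omega
  have ab : ∀ i, i < 6 → |P.pairingIn ℤ c (a i)| ≤ 1 := fun i hi =>
    xs_abs sy hc (b.isPos_of_mem_support (m i hi)) fun k => hs (k ▸ m i hi)
  let E : Fin 6 ≃ b.support := Equiv.ofBijective (fun i => ⟨a i, m i i.2⟩)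
    ⟨fun i j q => Fin.ext (e.inj _ _ i.2 j.2 (congrArg Subtype.val q)), fun c => by
      obtain ⟨i, hi, q⟩ := e.sur c c.2
      exact ⟨⟨i, hi⟩, Subtype.ext q⟩⟩
  have ht := xs_ht E ![8, 15, 21, 15, 8, 11] (fun j => by
    have : ∀ k : Fin 6, P.pairingIn ℤ (E j : ι) (E k) = eC 6 j k := fun k => ha j k j.2 k.2
    simp only [this]
    clear this
    revert j
    decide) hc
  rw [Fin.sum_univ_six] at ht
  change 8 * P.pairingIn ℤ c (a 0) + 15 * P.pairingIn ℤ c (a 1) + 21 * P.pairingIn ℤ c (a 2) +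
    15 * P.pairingIn ℤ c (a 3) + 8 * P.pairingIn ℤ c (a 4) + 11 * P.pairingIn ℤ c (a 5) = _ at ht
  by_contra! k
  have k0 := Int.eq_zero_of_abs_lt_dvd (k _ o0)
  have k1 := Int.eq_zero_of_abs_lt_dvd (k _ o1)
  have k2 := Int.eq_zero_of_abs_lt_dvd (k _ o2)
  have k5 := Int.eq_zero_of_abs_lt_dvd (k _ o5)
  have a0 := abs_le.1 (ab 0 (by omega))
  have a1 := abs_le.1 (ab 1 (by omega))
  have a2 := abs_le.1 (ab 2 (by omega))
  have a3 := abs_le.1 (ab 3 (by omega))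
  have a4 := abs_le.1 (ab 4 (by omega))
  have a5 := abs_le.1 (ab 5 (by omega))
  rw [b.isPos_iff] at hc
  simp only [List.map_cons, List.map_nil, List.sum_cons, List.sum_nil, abs_lt] at k0 k1 k2 k5
  omega

end Pool.Agent.Lib.MP_1ae3da_al.JV
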