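import Pool.Agent.Lib.MP_1ae3da_al.E.Te
import Pool.Agent.Lib.MP_1ae3da_al.I.Qt

/-! Transport of the data of type `E` along automorphisms. -/

namespace Pool.Agent.Lib.MP_1ae3da_al.JM

open SLI

variable {p r k j : ℕ} {X : Type} [Group X] [Finite X] {U : Sylow r X} {N M : Subgroup X}
  {n : ℕ → X} {w : X} [hp : Fact p.Prime] [hr : Fact r.Prime]

theorem TE.map (h : TE p k j U N M n w) (δ : MulAut X) :
    TE p k j (U.mapSurjective (f := δ.toMonoidHom) δ.surjective) (N.map δ.toMonoidHom)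
      (M.map δ.toMonoidHom) (fun i => δ (n i)) (δ w) := by
  have hk0 : δ.toMonoidHom.ker = ⊥ := (MonoidHom.ker_eq_bot_iff _).2 δ.injective
  have hk : δ.toMonoidHom.ker ≤ Subgroup.center X := hk0 ▸ bot_le
  have hT := BN.tor_map (U := U) (N := N) (π := δ.toMonoidHom) δ.surjective hk
  have v := h.v.qmap (π := δ.toMonoidHom) δ.surjective hk fun x hx _ => by rwa [hk0] at hx
  have mT : ∀ t, δ t ∈ Tor (U.mapSurjective (f := δ.toMonoidHom) δ.surjective)
      (N.map δ.toMonoidHom) ↔ t ∈ Tor U N := fun t => by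
    rw [hT]
    exact Subgroup.mem_map_iff_mem (f := δ.toMonoidHom) δ.injective
  have gn : ∀ {A : Subgroup X} {l : ℕ}, A ≤ Subgroup.closure ((Tor U N : Set X) ∪ n '' Set.Iio l) →
      A.map δ.toMonoidHom ≤ Subgroup.closure
        ((Tor (U.mapSurjective (f := δ.toMonoidHom) δ.surjective) (N.map δ.toMonoidHom) : Set X) ∪
          (fun i => δ (n i)) '' Set.Iio l) := fun c => by
    refine (Subgroup.map_mono c).trans ?_
    rw [MonoidHom.map_closure, Set.image_union, Set.image_image, hT]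
    rfl
  refine ⟨v, ⟨fun i hi => ⟨_, h.ts.mem i hi, rfl⟩, fun i hi => map_mul δ _ _ ▸ (mT _).2 (h.ts.sq i hi),
    fun i hi c => h.ts.nt i hi ((mT _).1 c), gn h.ts.gen, ?_⟩, h.jp, h.jk, Subgroup.map_mono h.le,
    ⟨hT ▸ Subgroup.map_mono h.wa.le, (Subgroup.map_mono h.le).trans v.nrm,
      fun i hi => ⟨_, h.wa.mem i hi, rfl⟩, fun i hi => map_mul δ _ _ ▸ (mT _).2 (h.wa.sq i hi),
      ⟨fun i j a b => ?_, fun i a => ?_⟩, gn h.wa.gen, ?_⟩, ?_, ?_, ⟨_, h.wN, rfl⟩,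
    map_mul δ _ _ ▸ (mT _).2 h.ww, fun i hi => ?_, fun f h1 h2 => ?_⟩
  · rintro i hi _ ⟨m, hm, rfl⟩ _ ⟨u, hu, rfl⟩
    obtain ⟨a, ha, t, ht, b, hb, e⟩ := h.ts.tits i hi m hm u hu
    exact ⟨δ a, ⟨a, ha, rfl⟩, δ t, (mT t).2 ht, δ b, ⟨b, hb, rfl⟩,
      e.imp (fun e => by simpa only [map_mul] using! congrArg δ e)
        fun e => by simpa only [map_mul] using! congrArg δ e⟩
  · simpa only [map_mul] using congrArg δ (h.wa.br.far i j a b)
  · simpa only [map_mul] using congrArg δ (h.wa.br.br i a)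
  · rw [hT, Subgroup.relIndex_map_map_of_injective _ _ δ.injective, h.wa.card]
  · rintro i hi _ ⟨u, hu, rfl⟩
    refine (h.one i hi u hu).imp (fun e => ⟨_, e, by simp⟩) ?_
    rintro ⟨t, ht, a, ha, b, hb, e⟩
    exact ⟨δ t, (mT t).2 ht, δ a, ⟨a, ha, rfl⟩, δ b, ⟨b, hb, rfl⟩,
      by simpa only [map_mul, map_inv] using! congrArg δ e⟩
  · rw [Subgroup.relIndex_map_map_of_injective _ _ δ.injective]
    exact h.idx
  · obtain ⟨i', c1, c2⟩ := h.wp i hi
    exact ⟨i', c1, by simpa only [map_mul, map_inv] using (mT _).2 c2⟩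
  · refine (h.rig f h1 fun i i' m a b => ?_).imp_right fun c i hi => by
      simpa only [map_mul, map_inv] using (mT _).2 (c i hi)
    simpa only [← map_mul, ← map_pow, mT] using h2 i i' m a b

theorem TE.all (h : TE p k j U N M n w) (h2 : p ≠ 2) (R : Sylow p X) :
    ∃ N', NSV.IndN p X R N' := by
  obtain ⟨R₀, hR⟩ := (h.ind h2).1
  obtain ⟨g, hg⟩ := MulAction.exists_smul_eq X R₀ R
  refine ⟨_, ((h.map (MulAut.conj g)).ind h2).2 R ?_⟩
  rw [← hg]
  exact Subgroup.map_mono hR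

end Pool.Agent.Lib.MP_1ae3da_al.JM
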