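import Pool.Agent.Lib.MP_1ae3da_al.H.Exs
import Pool.Agent.Lib.MP_1ae3da_al.H.Tm
import Pool.Agent.Lib.MP_1ae3da_al.Z.Xw

/-! The inductive condition for the exceptional Chevalley groups. -/

namespace Pool.Agent.Lib.MP_1ae3da_al.JV

open SLI JM

theorem bw_all {p r : ℕ} (hp : p.Prime) (h2 : p ≠ 2) (hr : r.Prime) {X : Type} [Group X] [Finite X]
    {U : Sylow r X} {N : Subgroup X} (hU : (U : Subgroup X) ≠ ⊥) (h : BW p U N) (R : Sylow p X) :
    ∃ N', NSV.IndN p X R N' := by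
  have := Fact.mk hp
  have := Fact.mk hr
  obtain ⟨U', ρ, -, -, u0, w, hR⟩ := h.all (π := MonoidHom.id X) Function.surjective_id
    (by simp) hU R
  exact ⟨_, (thm_bw p r hp h2 hr h.ne X U' u0 _ _ rfl w.ab w.nrm w.bru w.val).2 R hR⟩

theorem Exc.ind {p : ℕ} (hp : p.Prime) (h2 : p ≠ 2) {X : Type} [Group X] [Finite X] (h : Exc p X)
    (R : Sylow p X) : ∃ N, NSV.IndN p X R N := by
  have := Fact.mk hp
  obtain ⟨r, hr, U, N, u0, -, w | ⟨k, j, M, n, w, t⟩⟩ := h.str2 hp h2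
  · exact bw_all hp h2 hr.out u0 w R
  · exact t.all h2 R

end Pool.Agent.Lib.MP_1ae3da_al.JV
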