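import Pool.Agent.Lib.MP_1ae3da_al.H.Xz
import Pool.Agent.Lib.MP_1ae3da_al.H.Fin

/-! The inductive condition for the twisted groups of types `D₄` and `E₆`. -/

namespace Pool.Agent.Lib.MP_1ae3da_al.JV

theorem Twi.five {p : ℕ} {X : Type} [Group X] (h : Twi p X) : 5 ≤ p := by
  obtain ⟨_, _, _, _, _, _, _, _, _, _, _, _, _, _, _, _, _, _, _, _, _, _, _, _, -, -, -, -, -, -,
    h5, -⟩ := h
  exact h5

theorem Twi.ind {p : ℕ} (hp : p.Prime) {X : Type} [Group X] [Finite X] (h : Twi p X)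
    (R : Sylow p X) : ∃ N, NSV.IndN p X R N := by
  obtain ⟨r, hr, U, N, u0, w, -⟩ := h.str hp
  exact bw_all hp (by have := h.five; omega) hr.out u0 w R

end Pool.Agent.Lib.MP_1ae3da_al.JV
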