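import Mathlib

/-! Bruhat decompositions with long orbits of the torus. -/

namespace Pool.Agent.Lib.MP_1ae3da_al.JV

/-- `X = U N U`, `T = N ⊓ N_X(U)` is abelian and normal in `N`, and every non-trivial orbit of `T`
on `U` has larger `p`-part than `N / T`. -/
def Bnd (p : ℕ) (X : Type) [Group X] : Prop :=
  ∃ (r : ℕ) (U : Sylow r X) (N T : Subgroup X), r.Prime ∧ p ≠ r ∧ (U : Subgroup X) ≠ ⊥ ∧
    T = N ⊓ Subgroup.normalizer (U : Set X) ∧ (∀ x ∈ T, ∀ y ∈ T, x * y = y * x) ∧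
    N ≤ Subgroup.normalizer (T : Set X) ∧ (∀ x, ∃ u ∈ U, ∃ n ∈ N, ∃ v ∈ U, x = u * n * v) ∧
    ∀ u ∈ U, u ≠ 1 → padicValNat p (T.relIndex N) <
      padicValNat p ((Subgroup.centralizer {u}).relIndex T)

end Pool.Agent.Lib.MP_1ae3da_al.JV
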