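import Mathlib

/-! Chevalley groups by the relations of Steinberg. -/

namespace Pool.Agent.Lib.MP_1ae3da_al.JV

variable {ι M N K X : Type} [AddCommGroup M] [Module ℚ M] [AddCommGroup N] [Module ℚ N]
  (P : RootPairing ι ℚ M N) [Field K] [Group X] (x : ι → K → X)

/-- `w_a(t) = x_a(t) x_{-a}(-t⁻¹) x_a(t)`. -/
def wv (a : ι) (t : Kˣ) : X := x a t * x (P.reflectionPerm a a) (-(t⁻¹ : Kˣ)) * x a t

/-- `h_a(t) = w_a(t) w_a(1)⁻¹`. -/
def hv (a : ι) (t : Kˣ) : X := wv P x a t * (wv P x a 1)⁻¹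

variable {P} [P.IsCrystallographic]

/-- `X` is generated by root elements `x a t` that satisfy the relations of Steinberg. -/
structure Chv (b : P.Base) : Prop where
  add : ∀ a s t, x a (s + t) = x a s * x a t
  inj : ∀ a t, x a t = 1 → t = 0
  gen : Subgroup.closure {g | ∃ a t, g = x a t} = ⊤
  cm : ∀ a c, P.root c ≠ -P.root a → ∀ s t, x a s * x c t * (x a s)⁻¹ * (x c t)⁻¹ ∈
    Subgroup.closure {g | ∃ (d : ι) (u : K) (i j : ℕ), 0 < i ∧ 0 < j ∧
      P.root d = i • P.root a + j • P.root c ∧ g = x d u}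
  wy : ∀ a c, ∃ e : ℤˣ, ∀ c', (c' = c ∨ P.root c' = -P.root c) → ∀ (t : Kˣ) (u : K),
    wv P x a t * x c' u * (wv P x a t)⁻¹ =
      x (P.reflectionPerm a c') (((e : ℤ) : K) * (t : K) ^ (-P.pairingIn ℤ c' a) * u)
  hm : ∀ a s t, hv P x a (s * t) = hv P x a s * hv P x a t
  br : ∀ a ∈ b.support, ∀ c ∈ b.support, P.pairingIn ℤ a c = -1 → P.pairingIn ℤ c a = -1 →
    wv P x a 1 * wv P x c 1 * wv P x a 1 = wv P x c 1 * wv P x a 1 * wv P x c 1

/-- the Cartan matrix of the base `b` is `C`. -/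
def Ty (b : P.Base) {m : ℕ} (C : Matrix (Fin m) (Fin m) ℤ) : Prop :=
  ∃ e : Fin m ≃ b.support, ∀ i j, b.cartanMatrix (e i) (e j) = C i j

end Pool.Agent.Lib.MP_1ae3da_al.JV
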