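import Pool.Agent.Lib.MP_1ae3da_al.H.Chv

/-! Subgroups of a Chevalley group: definitions. -/

namespace Pool.Agent.Lib.MP_1ae3da_al.JV

variable {ι M N K X : Type} [AddCommGroup M] [Module ℚ M] [AddCommGroup N] [Module ℚ N]
  (P : RootPairing ι ℚ M N) [Field K] [Group X] (x : ι → K → X)

/-- the negative of a root. -/
abbrev ng (a : ι) : ι := P.reflectionPerm a a

/-- the action on the roots. -/
abbrev ac (σ : P.Aut) (a : ι) : ι := RootPairing.Equiv.indexHom P σ a

/-- the subgroup generated by the root subgroups in `S`. -/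
def VS (S : Set ι) : Subgroup X := Subgroup.closure {g | ∃ a ∈ S, ∃ t, g = x a t}

/-- the monomial subgroup. -/
def NN : Subgroup X := Subgroup.closure {g | ∃ a t, g = wv P x a t}

/-- the torus. -/
def TT : Subgroup X := Subgroup.closure {g | ∃ a t, g = hv P x a t}

/-- `g` permutes the root subgroups by `σ`. -/
def Act (g : X) (σ : P.Aut) : Prop := ∀ a, ∃ c : Kˣ, ∀ u : K,
  g * x a u * g⁻¹ = x (ac P σ a) (c * u) ∧
    g * x (ng P a) u * g⁻¹ = x (ng P (ac P σ a)) ((c⁻¹ : Kˣ) * u)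

/-- `t` acts on the root subgroup of `a` by the scalar `c`. -/
def Sc (t : X) (a : ι) (c : Kˣ) : Prop := ∀ u : K, t * x a u * t⁻¹ = x a (c * u)

variable {P}

/-- the unipotent subgroup. -/
abbrev UU (b : P.Base) : Subgroup X := VS x {a | b.IsPos a}

/-- an upper set of positive roots. -/
def Up (b : P.Base) (S : Set ι) : Prop :=
  (∀ a ∈ S, b.IsPos a) ∧ ∀ a ∈ S, ∀ c, b.height a < b.height c → c ∈ S

/-- the field has an element of order at least five. -/
def Big (K : Type) [Field K] : Prop := ∃ s : Kˣ, ∀ i : ℕ, 0 < i → i ≤ 4 → s ^ i ≠ 1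

/-- an enumeration of the simple roots. -/
structure En (b : P.Base) (k : ℕ) (a : ℕ → ι) : Prop where
  mem : ∀ i, i < k → a i ∈ b.support
  sur : ∀ c ∈ b.support, ∃ i, i < k ∧ a i = c
  inj : ∀ i j, i < k → j < k → a i = a j → i = j

/-- the Cartan matrix of type `E k`: a chain `0, ..., k - 2`, and `k - 1` is joined to `2`. -/
def eC (k i j : ℕ) : ℤ :=
  if i = j then 2 else if (i + 1 = j ∧ j + 1 < k) ∨ (j + 1 = i ∧ i + 1 < k) ∨
    (i = 2 ∧ j + 1 = k) ∨ (j = 2 ∧ i + 1 = k) then -1 else 0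

end Pool.Agent.Lib.MP_1ae3da_al.JV
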