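import Pool.Agent.Lib.MP_1ae3da_al.H.Ng

/-! The deletion condition. -/

namespace Pool.Agent.Lib.MP_1ae3da_al.JV

variable {ι M N K X : Type} [AddCommGroup M] [Module ℚ M] [AddCommGroup N] [Module ℚ N]
  {P : RootPairing ι ℚ M N} [Field K] [Group X] {x : ι → K → X} [P.IsCrystallographic]
  [Finite ι] [P.IsReduced] {b : P.Base} {a c : ι} {g t : X} {σ τ : P.Aut} {S : Set ι}

omit [P.IsCrystallographic] [Finite ι] [P.IsReduced] in
theorem hDl_ac (a c : ι) : ac P (RootPairing.Equiv.reflection P a) c = P.reflectionPerm a c := rfl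

omit [P.IsCrystallographic] [Finite ι] [P.IsReduced] in
theorem hDl_mul (σ τ : P.Aut) (c : ι) : ac P (σ * τ) c = ac P σ (ac P τ c) := by
  simp only [ac, map_mul]
  rfl

omit [P.IsCrystallographic] [Finite ι] [P.IsReduced] in
theorem hDl_one (c : ι) : ac P 1 c = c := by
  simp only [ac, map_one]
  rfl

omit [P.IsCrystallographic] [Finite ι] [P.IsReduced] in
theorem hDl_wN (a : ι) (s : Kˣ) : wv P x a s ∈ NN P x :=
  Subgroup.subset_closure ⟨a, s, rfl⟩

omit [P.IsCrystallographic] [Finite ι] [P.IsReduced] in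
theorem hDl_hT (a : ι) (s : Kˣ) : hv P x a s ∈ TT P x :=
  Subgroup.subset_closure ⟨a, s, rfl⟩

omit [Finite ι] [P.IsReduced] in
theorem hDl_cj (h : Chv x b) (hg : g ∈ NN P x) (ht : t ∈ TT P x) : g * t * g⁻¹ ∈ TT P x :=
  (Subgroup.mem_normalizer_iff.1 (h.T_nrm hg) t).1 ht

theorem Chv.N_gen (h : Chv x b) :
    NN P x ≤ Subgroup.closure ((TT P x : Set X) ∪ (fun a => wv P x a 1) '' b.support) := by
  refine (Subgroup.closure_le _).2 ?_
  rintro _ ⟨a, s, rfl⟩
  revert s
  have hT : ∀ t ∈ TT P x,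
      t ∈ Subgroup.closure ((TT P x : Set X) ∪ (fun a => wv P x a 1) '' b.support) :=
    fun t ht => Subgroup.subset_closure (Or.inl ht)
  have hn : ∀ a ∈ b.support, wv P x a 1 ∈
      Subgroup.closure ((TT P x : Set X) ∪ (fun a => wv P x a 1) '' b.support) :=
    fun a ha => Subgroup.subset_closure (Or.inr ⟨a, ha, rfl⟩)
  refine b.induction_reflect a (p := fun a => ∀ s : Kˣ, wv P x a s ∈
    Subgroup.closure ((TT P x : Set X) ∪ (fun a => wv P x a 1) '' b.support)) ?_ ?_ ?_
  · intro i hi s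
    have := mul_mem (hT _ (h.w_ng i s)) (hi 1)
    rwa [inv_mul_cancel_right] at this
  · intro i hi s
    have := mul_mem (hT _ (hDl_hT i s)) (hn i hi)
    rwa [hv, inv_mul_cancel_right] at this
  · intro i j hi hj s
    obtain ⟨c, hc⟩ := (h.act_w j 1).w i
    have := mul_mem (mul_mem (hn j hj) (hi (c⁻¹ * s))) (inv_mem (hn j hj))
    rwa [hc, mul_inv_cancel_left, hDl_ac] at this

omit [P.IsCrystallographic] [Finite ι] [P.IsReduced] in
theorem hDl_pN (L : List ι) : (L.map fun a => wv P x a 1).prod ∈ NN P x := by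
  refine list_prod_mem ?_
  intro y hy
  obtain ⟨a, -, rfl⟩ := List.mem_map.1 hy
  exact hDl_wN a 1

omit [Finite ι] [P.IsReduced] in
theorem hDl_act (h : Chv x b) (L : List ι) : Act P x (L.map fun a => wv P x a 1).prod
    (L.map fun a => RootPairing.Equiv.reflection P a).prod := by
  induction L with
  | nil => exact act_one
  | cons d L ih =>
    rw [List.map_cons, List.prod_cons, List.map_cons, List.prod_cons]
    exact (h.act_w d 1).mul ih

/-- every element of `N` is a word in the simple generators up to the torus. -/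
theorem hDl_word (h : Chv x b) (hg : g ∈ NN P x) : ∃ t ∈ TT P x, ∃ L : List ι,
    (∀ a ∈ L, a ∈ b.support) ∧ g = t * (L.map fun a => wv P x a 1).prod := by
  have key : ∀ y, (∃ t ∈ TT P x, ∃ L : List ι, (∀ a ∈ L, a ∈ b.support) ∧
      y = t * (L.map fun a => wv P x a 1).prod) → ∀ a ∈ b.support, ∃ t ∈ TT P x, ∃ L : List ι,
      (∀ a ∈ L, a ∈ b.support) ∧ wv P x a 1 * y = t * (L.map fun a => wv P x a 1).prod := by
    rintro _ ⟨t, ht, L, hL, rfl⟩ a ha
    refine ⟨_, hDl_cj h (hDl_wN a 1) ht, a :: L, ?_, ?_⟩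
    · intro d hd
      rcases List.mem_cons.1 hd with rfl | hd
      · exact ha
      · exact hL d hd
    · rw [List.map_cons, List.prod_cons]
      group
  have keyT : ∀ y, (∃ t ∈ TT P x, ∃ L : List ι, (∀ a ∈ L, a ∈ b.support) ∧
      y = t * (L.map fun a => wv P x a 1).prod) → ∀ s ∈ TT P x, ∃ t ∈ TT P x, ∃ L : List ι,
      (∀ a ∈ L, a ∈ b.support) ∧ s * y = t * (L.map fun a => wv P x a 1).prod := by
    rintro _ ⟨t, ht, L, hL, rfl⟩ s hs
    exact ⟨s * t, mul_mem hs ht, L, hL, (mul_assoc _ _ _).symm⟩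
  refine Subgroup.closure_induction_left (p := fun y _ => ∃ t ∈ TT P x, ∃ L : List ι,
    (∀ a ∈ L, a ∈ b.support) ∧ y = t * (L.map fun a => wv P x a 1).prod) ?_ ?_ ?_ (h.N_gen hg)
  · exact ⟨1, one_mem _, [], by simp, by simp⟩
  · rintro s (hs | ⟨a, ha, rfl⟩) y _ hy
    · exact keyT y hy s hs
    · exact key y hy a ha
  · rintro s (hs | ⟨a, ha, rfl⟩) y _ hy
    · exact keyT y hy s⁻¹ (inv_mem hs)
    · have := keyT _ (key y hy a ha) _ (inv_mem (h.w_sq a))
      have e : (wv P x a 1 * wv P x a 1)⁻¹ * (wv P x a 1 * y) = (wv P x a 1)⁻¹ * y := by group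
      rwa [e] at this

/-- the exchange condition. -/
theorem hDl_exc (h : Chv x b) (hc : c ∈ b.support) (L : List ι) (hL : ∀ a ∈ L, a ∈ b.support)
    (hn : ¬ b.IsPos (ac P (L.map fun a => RootPairing.Equiv.reflection P a).prod c)) :
    ∃ t ∈ TT P x, ∃ L' : List ι, (∀ a ∈ L', a ∈ b.support) ∧ L'.length + 1 = L.length ∧
      (L.map fun a => wv P x a 1).prod * wv P x c 1 = t * (L'.map fun a => wv P x a 1).prod := by
  induction L with
  | nil =>
    rw [List.map_nil, List.prod_nil, hDl_one] at hn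
    exact absurd (RootPairing.Base.isPos_of_mem_support hc) hn
  | cons d L ih =>
    have hd : d ∈ b.support := hL d List.mem_cons_self
    have hL' : ∀ a ∈ L, a ∈ b.support := fun a ha => hL a (List.mem_cons_of_mem _ ha)
    rw [List.map_cons, List.prod_cons, hDl_mul, hDl_ac] at hn
    by_cases hp : b.IsPos (ac P (L.map fun a => RootPairing.Equiv.reflection P a).prod c)
    · have he : ac P (L.map fun a => RootPairing.Equiv.reflection P a).prod c = d := by
        by_contra hne
        exact hn (hp.reflectionPerm hd hne)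
      obtain ⟨s, hs⟩ := (hDl_act h L).w c
      have h1 := hs 1
      rw [he] at h1
      refine ⟨wv P x d 1 * hv P x d (s * 1) * (wv P x d 1)⁻¹ * (wv P x d 1 * wv P x d 1),
        mul_mem (hDl_cj h (hDl_wN d 1) (hDl_hT d _)) (h.w_sq d), L, hL', rfl, ?_⟩
      rw [List.map_cons, List.prod_cons, hv, ← h1]
      group
    · obtain ⟨t, ht, L', hL2, hl, e⟩ := ih hL' hp
      refine ⟨_, hDl_cj h (hDl_wN d 1) ht, d :: L', ?_, ?_, ?_⟩
      · intro a ha
        rcases List.mem_cons.1 ha with rfl | ha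
        · exact hd
        · exact hL2 a ha
      · simp only [List.length_cons, hl]
      · rw [List.map_cons, List.prod_cons, List.map_cons, List.prod_cons, mul_assoc, e]
        group

theorem Chv.del (h : Chv x b) (hg : g ∈ NN P x)
    (k : ∀ a, b.IsPos a → ∀ u, g * x a u * g⁻¹ ∈ UU x b) [Finite K] (hK : Big K) : g ∈ TT P x := by
  obtain ⟨t, ht, L, hL, e⟩ := hDl_word h hg
  induction hm : L.length using Nat.strong_induction_on generalizing t L with
  | _ m ih =>
    rcases List.eq_nil_or_concat' L with rfl | ⟨L0, c, rfl⟩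
    · rw [List.map_nil, List.prod_nil, mul_one] at e
      exact e ▸ ht
    · have hc : c ∈ b.support := hL c (by simp)
      have hL0 : ∀ a ∈ L0, a ∈ b.support := fun a ha => hL a (by simp [ha])
      have ha := (h.act_T ht).mul (hDl_act h (L0 ++ [c]))
      rw [← e, one_mul] at ha
      obtain ⟨s, hs⟩ := ha c
      have h1 := k c (RootPairing.Base.isPos_of_mem_support hc) 1
      rw [(hs 1).1] at h1
      have hp : b.IsPos
          (ac P ((L0 ++ [c]).map fun a => RootPairing.Equiv.reflection P a).prod c) := by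
        by_contra hn
        have := h.neg_U hK hn h1
        rw [mul_one] at this
        exact s.ne_zero this
      rw [List.map_append, List.prod_append, List.map_singleton, List.prod_singleton, hDl_mul,
        hDl_ac] at hp
      have hp' := (ac_ng (L0.map fun a => RootPairing.Equiv.reflection P a).prod c) ▸ hp
      obtain ⟨t', ht', L', hL', hl, e'⟩ := hDl_exc (x := x) h hc L0 hL0
        ((RootPairing.Base.IsPos.neg_iff_not b _).1 hp')
      refine ih L'.length ?_ (t * t') (mul_mem ht ht') L' hL' ?_ rfl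
      · rw [← hm, List.length_append, List.length_singleton]
        omega
      · rw [e, List.map_append, List.prod_append, List.map_singleton, List.prod_singleton, e',
          mul_assoc]

theorem Chv.tor (h : Chv x b) [Finite K] (hK : Big K) :
    NN P x ⊓ Subgroup.normalizer (UU x b : Set X) = TT P x := by
  refine le_antisymm ?_ (le_inf T_le (h.T_VS _))
  intro g hg
  refine h.del hg.1 (fun a ha u => ?_) hK
  exact (Subgroup.mem_normalizer_iff.1 hg.2 _).1 (Subgroup.subset_closure ⟨a, ha, u, rfl⟩)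

theorem Chv.hom [P.IsRootSystem] (h : Chv x b) [Finite K] (hK : Big K) :
    ∃ φ : NN P x →* P.Aut, (∀ g : NN P x, Act P x g (φ g)) ∧ φ.range = P.weylGroup ∧
      ∀ g : NN P x, φ g = 1 ↔ (g : X) ∈ TT P x := by
  choose f hf1 hf2 using fun g : NN P x => h.act_ex g.2
  refine ⟨MonoidHom.mk' f fun g g' => h.act_uq hK (hf2 (g * g')) ((hf2 g).mul (hf2 g')),
    hf2, le_antisymm ?_ ?_, fun g => ⟨fun e => ?_, fun e => h.act_uq hK (hf2 g) (h.act_T e)⟩⟩
  · rintro _ ⟨g, rfl⟩
    exact hf1 g
  · refine (Subgroup.closure_le _).2 ?_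
    rintro _ ⟨a, rfl⟩
    exact ⟨⟨_, hDl_wN a 1⟩, h.act_uq hK (hf2 _) (h.act_w a 1)⟩
  · refine h.del g.2 (fun a ha u => ?_) hK
    have e' : f g = 1 := e
    obtain ⟨s, hs⟩ := hf2 g a
    rw [(hs u).1, e', hDl_one]
    exact Subgroup.subset_closure ⟨a, ha, _, rfl⟩

end Pool.Agent.Lib.MP_1ae3da_al.JV
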