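import Pool.Agent.Lib.MP_1ae3da_al.H.Chv

/-! The exceptional Chevalley groups with `p ∣ q - 1`. -/

namespace Pool.Agent.Lib.MP_1ae3da_al.JV

/-- `X` is a Chevalley group over a field with `q` elements, `p ∣ q - 1`, of type `G₂` (`5 ≤ p` or
`9 ∣ q - 1`), `F₄`, `E₆`, `E₇` (`5 ≤ p`) or `E₈` (`7 ≤ p`). -/
def Exc (p : ℕ) (X : Type) [Group X] : Prop :=
  ∃ (ι M N K : Type) (_ : AddCommGroup M) (_ : Module ℚ M) (_ : AddCommGroup N) (_ : Module ℚ N)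
    (P : RootPairing ι ℚ M N) (_ : Finite ι) (_ : P.IsRootSystem) (_ : P.IsReduced)
    (_ : P.IsCrystallographic) (b : P.Base) (_ : Field K) (_ : Finite K) (x : ι → K → X),
    Chv x b ∧ p ∣ Nat.card K - 1 ∧
      ((Ty b CartanMatrix.G₂ ∧ (5 ≤ p ∨ 9 ∣ Nat.card K - 1)) ∨
        (5 ≤ p ∧ (Ty b CartanMatrix.F₄ ∨ Ty b CartanMatrix.E₆ ∨ Ty b CartanMatrix.E₇)) ∨
        (7 ≤ p ∧ Ty b CartanMatrix.E₈))

end Pool.Agent.Lib.MP_1ae3da_al.JV
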