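import Mathlib

/-! Finite groups of rational matrices of small degree. -/

namespace Pool.Agent.Lib.MP_1ae3da_al.JV

open Polynomial

variable {M : Type} [AddCommGroup M] [Module ℚ M] [Module.Finite ℚ M] {p : ℕ}

/-- the eigenvalues of a map of finite order are roots of unity. -/
theorem hMk_root {f : Module.End ℚ M} {m : ℕ} (h : f ^ m = 1) {z : ℂ}
    (hz : aeval z f.charpoly = 0) : z ^ m = 1 := by
  have e : Module.End.HasEigenvalue (f.baseChange ℂ) z := by
    rw [Module.End.hasEigenvalue_iff_isRoot_charpoly, LinearMap.charpoly_baseChange, IsRoot.def,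
      eval_map_algebraMap]
    exact hz
  have e2 := e.pow m
  rw [← LinearMap.baseChange_pow, h, LinearMap.baseChange_one] at e2
  obtain ⟨v, hv⟩ := e2.exists_hasEigenvector
  have e3 := hv.apply_eq_smul
  rw [Module.End.one_apply, eq_comm, ← sub_eq_zero] at e3
  nth_rw 2 [← one_smul ℂ v] at e3
  rw [← sub_smul] at e3
  exact sub_eq_zero.1 ((smul_eq_zero.1 e3).resolve_right hv.2)

theorem hMk_fac (hp : p.Prime) {ψ : ℚ[X]} (hm : ψ.Monic)
    (h : ∀ z : ℂ, aeval z ψ = 0 → z ^ p ^ 2 = 1) :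
    (∃ a, ψ = (X - C 1) ^ a) ∨ cyclotomic p ℚ ∣ ψ ∨ cyclotomic (p ^ 2) ℚ ∣ ψ := by
  have := Fact.mk hp
  obtain ⟨φ, e, nd⟩ := exists_eq_pow_rootMultiplicity_mul_and_not_dvd ψ hm.ne_zero 1
  have m1 : φ.Monic := ((monic_X_sub_C (1 : ℚ)).pow _).of_mul_monic_left (e ▸ hm)
  by_cases d : φ.degree = 0
  · rw [m1.degree_le_zero_iff_eq_one.1 d.le, mul_one] at e
    exact Or.inl ⟨_, e⟩
  obtain ⟨z, hz⟩ := IsAlgClosed.exists_aeval_eq_zero ℂ φ d
  have z0 : aeval z ψ = 0 := by rw [e, map_mul, hz, mul_zero]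
  have z1 : z ≠ 1 := fun k => nd (by
    rw [dvd_iff_isRoot, IsRoot.def]
    rw [k, ← map_one (algebraMap ℚ ℂ), aeval_algebraMap_apply_eq_algebraMap_eval] at hz
    exact (algebraMap ℚ ℂ).injective (hz.trans (map_zero _).symm))
  refine Or.inr ?_
  by_cases k : z ^ p = 1
  · have o := IsPrimitiveRoot.orderOf z
    rw [orderOf_eq_prime k z1] at o
    rw [cyclotomic_eq_minpoly_rat o hp.pos]
    exact Or.inl (minpoly.dvd ℚ z z0)
  · have o := IsPrimitiveRoot.orderOf z
    rw [orderOf_eq_prime_pow (n := 1) (by rwa [pow_one]) (h z z0)] at o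
    rw [cyclotomic_eq_minpoly_rat o (pow_pos hp.pos _)]
    exact Or.inr (minpoly.dvd ℚ z z0)

/-- a unipotent map of finite order is the identity. -/
theorem hMk_uni {f : Module.End ℚ M} {m a : ℕ} (hm : m ≠ 0) (h : f ^ m = 1)
    (k : f.charpoly = (X - C 1) ^ a) : f = 1 := by
  have d1 : minpoly ℚ f ∣ X ^ m - 1 := minpoly.dvd ℚ f (by simp [h])
  have sq : Squarefree (minpoly ℚ f) :=
    (X_pow_sub_one_separable_iff.2 (Nat.cast_ne_zero.2 hm)).squarefree.squarefree_of_dvd d1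
  obtain ⟨g, e⟩ := sq.isRadical a _ (k ▸ f.minpoly_dvd_charpoly)
  have z : aeval f (X - C 1 : ℚ[X]) = 0 := by rw [e, map_mul, minpoly.aeval, zero_mul]
  simpa [sub_eq_zero] using z

theorem hMk_d1 (hp : p.Prime) : (cyclotomic p ℚ).natDegree = p - 1 := by
  rw [natDegree_cyclotomic, Nat.totient_prime hp]

theorem hMk_d2 (hp : p.Prime) : 2 * (p - 1) ≤ (cyclotomic (p ^ 2) ℚ).natDegree := by
  rw [natDegree_cyclotomic, Nat.totient_prime_pow hp two_pos]
  exact Nat.mul_le_mul_right _ (by simpa using hp.two_le)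

omit [Module.Finite ℚ M] in
theorem hMk_coe {g : M ≃ₗ[ℚ] M} {m : ℕ} (h : g ^ m = 1) : (g : Module.End ℚ M) ^ m = 1 := by
  have := map_pow LinearEquiv.automorphismGroup.toLinearMapMonoidHom g m
  rw [h, map_one] at this
  exact this.symm

theorem hMk_cyc (hp : p.Prime) {g : M ≃ₗ[ℚ] M} (h1 : g ≠ 1) (h : g ^ p ^ 2 = 1) :
    cyclotomic p ℚ ∣ (g : Module.End ℚ M).charpoly ∨ 2 * (p - 1) ≤ Module.finrank ℚ M := by
  have m := (g : Module.End ℚ M).charpoly_monic
  rcases hMk_fac hp m fun z hz => hMk_root (hMk_coe h) hz with ⟨a, e⟩ | e | e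
  · exact (h1 (LinearEquiv.toLinearMap_injective
      (hMk_uni (pow_ne_zero _ hp.ne_zero) (hMk_coe h) e))).elim
  · exact Or.inl e
  · refine Or.inr ((hMk_d2 hp).trans ?_)
    rw [← (g : Module.End ℚ M).charpoly_natDegree]
    exact natDegree_le_of_dvd e m.ne_zero

theorem mk_ord (hp : p.Prime) {g : M ≃ₗ[ℚ] M} (h1 : g ≠ 1) (h : g ^ p = 1) :
    p - 1 ≤ Module.finrank ℚ M ∧ (Module.finrank ℚ M = p - 1 → ∀ v, g v = v → v = 0) := by
  have := Fact.mk hp
  have m := (g : Module.End ℚ M).charpoly_monic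
  have n := (g : Module.End ℚ M).charpoly_natDegree
  have p2 := hp.two_le
  rcases hMk_cyc hp h1 (by rw [pow_two, pow_mul, h, one_pow]) with e | e
  · have l := natDegree_le_of_dvd e m.ne_zero
    rw [hMk_d1 hp, n] at l
    refine ⟨l, fun k v hv => by_contra fun v0 => ?_⟩
    have q := eq_of_monic_of_dvd_of_natDegree_le (cyclotomic.monic p ℚ) m e
      (by rw [hMk_d1 hp, n, k])
    have ev : Module.End.HasEigenvalue (g : Module.End ℚ M) 1 :=
      Module.End.hasEigenvalue_of_hasEigenvector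
        ⟨Module.End.mem_eigenspace_iff.2 (by simpa using hv), v0⟩
    rw [Module.End.hasEigenvalue_iff_isRoot_charpoly, q, IsRoot.def,
      eval_one_cyclotomic_prime] at ev
    exact hp.ne_zero (Nat.cast_eq_zero.1 ev)
  · exact ⟨by omega, fun k => by omega⟩

theorem hMk_nx (hp : p.Prime) : (cyclotomic p ℚ).nextCoeff = 1 := by
  have := Fact.mk hp
  have p2 := hp.two_le
  rw [nextCoeff_of_natDegree_pos (by rw [hMk_d1 hp]; omega), hMk_d1 hp, cyclotomic_prime,
    finsetSum_coeff]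
  simp only [coeff_X_pow, Finset.sum_ite_eq, Finset.mem_range]
  rw [if_pos (by omega)]

theorem mk_tr (hp : p.Prime) {g : M ≃ₗ[ℚ] M} (h1 : g ≠ 1) (h : g ^ p ^ 2 = 1)
    (hn : Module.finrank ℚ M < 2 * (p - 1)) :
    LinearMap.trace ℚ M g = (Module.finrank ℚ M : ℚ) - p := by
  have m := (g : Module.End ℚ M).charpoly_monic
  have n := (g : Module.End ℚ M).charpoly_natDegree
  have p2 := hp.two_le
  obtain ⟨φ, e⟩ := (hMk_cyc hp h1 h).resolve_right (by omega)
  have c := cyclotomic.monic p ℚ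
  have m1 : φ.Monic := c.of_mul_monic_left (e ▸ m)
  rw [e, c.natDegree_mul m1, hMk_d1 hp] at n
  have t : LinearMap.trace ℚ M g = -(g : Module.End ℚ M).charpoly.nextCoeff := by
    rw [LinearMap.trace_eq_matrix_trace ℚ (Module.finBasis ℚ M),
      Matrix.trace_eq_neg_charpoly_nextCoeff, LinearMap.charpoly_toMatrix]
  rcases hMk_fac hp m1 fun z hz => hMk_root (hMk_coe h) (by rw [e, map_mul, hz, mul_zero]) with
    ⟨a, k⟩ | k | k
  · rw [k, (monic_X_sub_C _).natDegree_pow, natDegree_X_sub_C, mul_one] at n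
    rw [t, e, c.nextCoeff_mul m1, k, (monic_X_sub_C _).nextCoeff_pow, nextCoeff_X_sub_C,
      hMk_nx hp, ← n, Nat.cast_add, Nat.cast_sub (by omega)]
    simp
    ring
  · have := natDegree_le_of_dvd k m1.ne_zero
    rw [hMk_d1 hp] at this
    omega
  · have := (hMk_d2 hp).trans (natDegree_le_of_dvd k m1.ne_zero)
    omega

theorem mk_sq (hp : p.Prime) {G : Type} [Group G] [Finite G] (ρ : G →* M ≃ₗ[ℚ] M)
    (hρ : Function.Injective ρ) (h : p ^ 2 ∣ Nat.card G) : 2 * (p - 1) ≤ Module.finrank ℚ M := by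
  classical
  have := Fact.mk hp
  by_contra hn
  rw [not_le] at hn
  obtain ⟨Q, hQ⟩ := Sylow.exists_subgroup_card_pow_prime p h
  have := Fintype.ofFinite Q
  have p0 : (p : ℚ) ≠ 0 := Nat.cast_ne_zero.2 hp.ne_zero
  have : Invertible (Nat.card Q : ℚ) := invertibleOfNonzero (Nat.cast_ne_zero.2 Nat.card_pos.ne')
  let τ : Representation ℚ Q M :=
    LinearEquiv.automorphismGroup.toLinearMapMonoidHom.comp (ρ.comp Q.subtype)
  have e := τ.card_inv_mul_sum_char_eq_finrank
  have k : ∀ x ∈ (Finset.univ : Finset Q).erase 1,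
      τ.character x = (Module.finrank ℚ M : ℚ) - p := fun x hx =>
    mk_tr hp (g := ρ x) (fun z => (Finset.mem_erase.1 hx).1
      (Subtype.ext (hρ (z.trans (map_one ρ).symm))))
      (by rw [← map_pow, ← hQ, ← Subgroup.coe_pow, pow_card_eq_one', Subgroup.coe_one, map_one]) hn
  rw [← Finset.add_sum_erase _ _ (Finset.mem_univ 1), Finset.sum_congr rfl k, Finset.sum_const,
    Finset.card_erase_of_mem (Finset.mem_univ _), Finset.card_univ, ← Nat.card_eq_fintype_card, hQ,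
    Representation.char_one, nsmul_eq_mul, Nat.cast_sub (Nat.one_le_pow _ _ hp.pos),
    inv_mul_eq_iff_eq_mul₀ (by simpa using hp.ne_zero)] at e
  push_cast at e
  have z : ((p * ((Module.finrank ℚ τ.invariants : ℤ) + p - Module.finrank ℚ M) : ℤ) : ℚ) =
      ((1 : ℤ) : ℚ) := by
    push_cast
    exact mul_left_cancel₀ p0 (by linear_combination -e)
  have := Int.natCast_dvd_natCast.1 (show (p : ℤ) ∣ (1 : ℕ) from ⟨_, (Int.cast_injective z).symm⟩)
  exact hp.not_dvd_one this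

end Pool.Agent.Lib.MP_1ae3da_al.JV
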