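import Pool.Agent.Lib.MP_1ae3da_al.H.Up

/-! Negative root subgroups meet the unipotent subgroup trivially. -/

namespace Pool.Agent.Lib.MP_1ae3da_al.JV

variable {ι M N K X : Type} [AddCommGroup M] [Module ℚ M] [AddCommGroup N] [Module ℚ N]
  {P : RootPairing ι ℚ M N} [Field K] [Group X] {x : ι → K → X} [P.IsCrystallographic]
  [Finite ι] [P.IsReduced] {b : P.Base} {a c : ι} {g t : X} {σ τ : P.Aut} {S : Set ι}

omit [Finite ι] [P.IsReduced] [P.IsCrystallographic] in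
theorem hNg_h (a : ι) (s : Kˣ) : hv P x a s ∈ TT P x :=
  Subgroup.subset_closure ⟨a, s, rfl⟩

omit [Finite ι] [P.IsReduced] in
theorem hNg_sc (h : Chv x b) (a : ι) (s : Kˣ) : Sc x (hv P x a s) a (s ^ 2) := by
  have k := h.sc_h a a s
  rw [P.pairingIn_same] at k
  exact_mod_cast k

theorem hNg_one (a : ι) : Sc x (1 : X) a 1 := by
  intro u
  simp

omit [Finite ι] [P.IsReduced] [P.IsCrystallographic] in
theorem hNg_nn (a : ι) : ng P (ng P a) = a := (P.indexNeg).neg_neg a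

omit [Finite ι] [P.IsReduced] in
theorem hNg_inj (h : Chv x b) {u v : K} (k : x a u = x a v) : u = v := by
  have e : x a (u + -v) = 1 := by rw [h.add, h.neg, k, mul_inv_cancel]
  exact add_neg_eq_zero.1 (h.inj _ _ e)

omit [Finite ι] [P.IsReduced] in
theorem hNg_cm (h : Chv x b) (a : ι) (u v : K) : Commute (x a u) (x a v) := by
  rw [Commute, SemiconjBy, ← h.add, ← h.add, add_comm]

theorem Chv.neg_U (h : Chv x b) [Finite K] (hK : Big K) (ha : ¬ b.IsPos a) {u : K}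
    (hu : x a u ∈ UU x b) : u = 0 := by
  by_contra h0
  obtain ⟨s, hs⟩ := hK
  have hp : b.IsPos (ng P a) := (RootPairing.Base.IsPos.or_neg b a).resolve_left ha
  have hx : ∀ v, x (ng P a) v ∈ UU x b := fun v => Subgroup.subset_closure ⟨_, hp, v, rfl⟩
  have hw : ∀ v : Kˣ, x a (-(v⁻¹ : Kˣ)) ∈ UU x b → wv P x (ng P a) v ∈ UU x b := by
    intro v hv
    have e : wv P x (ng P a) v = x (ng P a) v * x a (-(v⁻¹ : Kˣ)) * x (ng P a) v := by
      rw [wv]
      congr 3
      exact hNg_nn a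
    rw [e]
    exact mul_mem (mul_mem (hx _) hv) (hx _)
  have h2 : x a (((s ^ 2 : Kˣ) : K) * u) ∈ UU x b := by
    rw [← hNg_sc h a s u]
    exact (Subgroup.mem_normalizer_iff.1 (h.T_VS _ (hNg_h a s)) _).1 hu
  set v : Kˣ := -(Units.mk0 u h0)⁻¹ with hv
  have w1 : wv P x (ng P a) v ∈ UU x b := hw v (by simpa [hv] using hu)
  have w2 : wv P x (ng P a) ((s ^ 2)⁻¹ * v) ∈ UU x b :=
    hw _ (by simpa [hv, mul_comm] using h2)
  have w3 : JV.hv P x (ng P a) ((s ^ 2)⁻¹) ∈ UU x b := by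
    have e := h.hm (ng P a) ((s ^ 2)⁻¹) v
    have e' : JV.hv P x (ng P a) ((s ^ 2)⁻¹) =
        wv P x (ng P a) ((s ^ 2)⁻¹ * v) * (wv P x (ng P a) v)⁻¹ := by
      rw [← mul_inv_eq_iff_eq_mul] at e
      rw [← e, JV.hv, JV.hv]
      group
    rw [e']
    exact mul_mem w2 (inv_mem w1)
  haveI : Fact (ringChar K).Prime := ⟨CharP.char_is_prime K _⟩
  obtain ⟨k, hk⟩ := h.up_p (r := ringChar K) up_pos ⟨_, w3⟩
  have hk' : JV.hv P x (ng P a) ((s ^ 2)⁻¹) ^ (ringChar K ^ k) = 1 := congrArg Subtype.val hk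
  have z := (hNg_sc h (ng P a) ((s ^ 2)⁻¹)).zpow ((ringChar K ^ k : ℕ) : ℤ)
  rw [zpow_natCast, hk', zpow_natCast] at z
  have z1 := h.sc_uq z (hNg_one _)
  have z2 : (s : K) ^ (ringChar K ^ k * 4) = 1 := by
    rw [inv_pow, inv_pow, inv_eq_one, ← pow_mul, ← pow_mul, Units.ext_iff] at z1
    rw [Units.val_pow_eq_pow_val, Units.val_one] at z1
    rw [← z1]
    congr 1
    ring
  rw [ExpChar.pow_prime_pow_mul_eq_one_iff] at z2
  exact hs 4 (by norm_num) le_rfl (Units.ext (by simpa using z2))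

theorem hNg_idx (h : Chv x b) (hK : Big K) {d : Kˣ} (k : ∀ u : K, x a u = x c (d * u)) :
    c = a := by
  by_contra h1
  by_cases h2 : c = ng P a
  · obtain ⟨s, hs⟩ := hK
    have c1 : ∀ v : K, Commute (x (ng P a) v) (x a 1) := by
      intro v
      have e := k ((d⁻¹ : Kˣ) * v)
      rw [← mul_assoc, Units.mul_inv, one_mul, h2] at e
      rw [← e]
      exact hNg_cm h a _ _
    have c2 : ∀ v : Kˣ, Commute (wv P x a v) (x a 1) := fun v =>
      ((hNg_cm h a _ _).mul_left (c1 _)).mul_left (hNg_cm h a _ _)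
    have c3 : Commute (hv P x a s) (x a 1) := (c2 s).mul_left (c2 1).inv_left
    have e := hNg_sc h a s 1
    rw [c3.eq, mul_inv_cancel_right, mul_one] at e
    exact hs 2 (by norm_num) (by norm_num) (Units.ext (hNg_inj h e).symm)
  · obtain ⟨t, -, t1, w, hw, t2⟩ := h.sep hK h1 h2
    have e := t1 1
    rw [Units.val_one, one_mul, k 1, t2, mul_one] at e
    exact hw (Units.ext (mul_right_cancel₀ d.ne_zero ((hNg_inj h e).trans (one_mul _).symm)))

theorem Chv.act_uq [P.IsRootSystem] (h : Chv x b) (hK : Big K) (h1 : Act P x g σ)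
    (h2 : Act P x g τ) : σ = τ := by
  have e : ∀ a, ac P τ a = ac P σ a := by
    intro a
    obtain ⟨c, hc⟩ := h1 a
    obtain ⟨d, hd⟩ := h2 a
    refine hNg_idx h hK (d := d * c⁻¹) fun u => ?_
    have k := (hc ((c⁻¹ : Kˣ) * u)).1.symm.trans (hd _).1
    rwa [← mul_assoc, Units.mul_inv, one_mul, ← mul_assoc, ← Units.val_mul] at k
  apply RootPairing.Equiv.weightHom_injective P
  apply LinearEquiv.toLinearMap_injective
  refine LinearMap.ext_on_range (v := P.root) RootPairing.IsRootSystem.span_root_eq_top fun a => ?_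
  have k1 := RootPairing.Equiv.root_indexEquiv_eq_smul P a σ
  have k2 := RootPairing.Equiv.root_indexEquiv_eq_smul P a τ
  exact k1.symm.trans ((congrArg P.root (e a).symm).trans k2)

theorem Chv.orb (h : Chv x b) [Finite K] [Finite X] (hK : Big K) {p v : ℕ} (hp : p.Prime)
    (h2 : p ≠ 2) (hv : p ^ v ∣ Nat.card K - 1) (hg : g ∈ UU x b) (h1 : g ≠ 1) :
    p ^ v ∣ (Subgroup.centralizer {g}).relIndex (TT P x) := by
  obtain ⟨a, -, ha⟩ := h.up_fix hK up_pos hg h1
  obtain ⟨z, hz⟩ := IsCyclic.exists_ofOrder_eq_natCard (α := Kˣ)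
  rw [← Nat.card_units, ← hz] at hv
  have hs := orderOf_pow_orderOf_div (orderOf_pos z).ne' hv
  set s := z ^ (orderOf z / p ^ v)
  haveI : ((Subgroup.centralizer {g}).subgroupOf (TT P x)).Normal := by
    refine ⟨fun n hn m => ?_⟩
    have e : m * n * m⁻¹ = n := by
      rw [mul_inv_eq_iff_eq_mul]
      exact Subtype.ext (h.T_ab _ m.2 _ n.2)
    rwa [e]
  have k := Subgroup.pow_index_mem ((Subgroup.centralizer {g}).subgroupOf (TT P x))
    ⟨_, hNg_h a s⟩
  set i := (Subgroup.centralizer {g}).relIndex (TT P x) with hi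
  have k1 : JV.hv P x a s ^ i ∈ Subgroup.centralizer {g} := k
  have k2 : JV.hv P x a s ^ i * g * (JV.hv P x a s ^ i)⁻¹ = g := by
    rw [mul_inv_eq_iff_eq_mul]
    exact (Subgroup.mem_centralizer_iff.1 k1 g rfl).symm
  have z1 := (hNg_sc h a s).zpow (i : ℤ)
  rw [zpow_natCast, zpow_natCast] at z1
  have z2 := ha _ (pow_mem (hNg_h a s) i) _ z1 k2
  rw [← pow_mul, ← orderOf_dvd_iff_pow_eq_one, hs] at z2
  exact (Nat.Coprime.pow_left v ((Nat.coprime_primes hp Nat.prime_two).2 h2)).dvd_of_dvd_mul_left z2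

end Pool.Agent.Lib.MP_1ae3da_al.JV
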