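import Pool.Agent.Lib.MP_1ae3da_al.H.Dl

/-! The Tits system. -/

namespace Pool.Agent.Lib.MP_1ae3da_al.JV

variable {ι M N K X : Type} [AddCommGroup M] [Module ℚ M] [AddCommGroup N] [Module ℚ N]
  {P : RootPairing ι ℚ M N} [Field K] [Group X] {x : ι → K → X} [P.IsCrystallographic]
  [Finite ι] [P.IsReduced] {b : P.Base} {a c : ι} {g t : X} {σ τ : P.Aut} {S : Set ι}

omit [Field K] [Finite ι] in
theorem hTi_mem {S : Set ι} {a : ι} (ha : a ∈ S) (u : K) : x a u ∈ VS x S :=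
  Subgroup.subset_closure ⟨a, ha, u, rfl⟩

omit [Field K] [Finite ι] in
theorem hTi_conj {S S' : Set ι} {g : X} (k : ∀ a ∈ S, ∀ t, g * x a t * g⁻¹ ∈ VS x S') {u : X}
    (hu : u ∈ VS x S) : g * u * g⁻¹ ∈ VS x S' := by
  induction hu using Subgroup.closure_induction with
  | mem y hy =>
    obtain ⟨a, ha, t, rfl⟩ := hy
    exact k a ha t
  | one => simp
  | mul y z _ _ hy hz =>
    have : g * (y * z) * g⁻¹ = (g * y * g⁻¹) * (g * z * g⁻¹) := by group
    rw [this]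
    exact mul_mem hy hz
  | inv y _ hy =>
    have : g * y⁻¹ * g⁻¹ = (g * y * g⁻¹)⁻¹ := by group
    rw [this]
    exact inv_mem hy

omit [P.IsCrystallographic] [Finite ι] [P.IsReduced] in
theorem hTi_ac (a c : ι) : ac P (RootPairing.Equiv.reflection P a) c = P.reflectionPerm a c := rfl

omit [P.IsCrystallographic] [Finite ι] [P.IsReduced] in
theorem hTi_ng_ng (a : ι) : ng P (ng P a) = a := by
  apply P.root.injective
  rw [P.root_reflectionPerm, P.reflection_apply_self, P.root_reflectionPerm,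
    P.reflection_apply_self, neg_neg]

omit [P.IsCrystallographic] [Finite ι] [P.IsReduced] in
theorem hTi_pos (ha : ¬ b.IsPos a) : b.IsPos (ng P a) := by
  have h2 : b.height (ng P a) = - b.height a := b.height_reflectionPerm_self a
  have := b.height_ne_zero a
  rw [b.isPos_iff] at ha ⊢
  omega

omit [P.IsCrystallographic] [Finite ι] [P.IsReduced] in
theorem hTi_wN (a : ι) (s : Kˣ) : wv P x a s ∈ NN P x := Subgroup.subset_closure ⟨a, s, rfl⟩

/-- `u = x a t * v` with `n v n⁻¹ ∈ U`. -/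
theorem hTi_dec (h : Chv x b) (ha : a ∈ b.support) {u : X} (hu : u ∈ UU x b) :
    (∃ s, ∃ v, wv P x a 1 * v * (wv P x a 1)⁻¹ ∈ UU x b ∧ u = x a s * v) ∧
      ∃ s, ∃ v, wv P x a 1 * v * (wv P x a 1)⁻¹ ∈ UU x b ∧ u = v * x a s := by
  have hp : b.IsPos a := b.isPos_of_mem_support ha
  have hm : ∀ c ∈ {a | b.IsPos a}, b.height a ≤ b.height c := fun c hc => by
    have h1 : 0 < b.height c := hc
    rw [b.height_one_of_mem_support ha]
    omega
  have key : ∀ v ∈ VS x ({a | b.IsPos a} \ {a}), wv P x a 1 * v * (wv P x a 1)⁻¹ ∈ UU x b := by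
    intro v hv
    refine hTi_conj (fun c hc t => ?_) hv
    obtain ⟨e, he⟩ := h.act_w a 1 c
    rw [(he t).1, hTi_ac]
    exact hTi_mem (S := {a | b.IsPos a}) (RootPairing.Base.IsPos.reflectionPerm hc.1 ha hc.2) _
  obtain ⟨s, v, hv, rfl⟩ := h.up_dec up_pos hp hm hu
  refine ⟨⟨s, v, key v hv, rfl⟩, s, x a s * v * (x a s)⁻¹, key _ ?_, by group⟩
  exact (Subgroup.mem_normalizer_iff.mp
    (h.up_nrm (up_pos.del hm) (hTi_mem (S := {a | b.IsPos a}) hp s)) v).mp hv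

omit [Finite ι] [P.IsReduced] in
/-- the relation of rank one. -/
theorem hTi_sl (h : Chv x b) (a : ι) (s : Kˣ) :
    x (ng P a) (-(s⁻¹ : Kˣ)) = x a (-s) * wv P x a s * x a (-s) := by
  rw [h.neg a, wv]
  group

theorem Chv.tits (h : Chv x b) (ha : a ∈ b.support) : ∀ m ∈ NN P x, ∀ u ∈ UU x b,
    ∃ v ∈ UU x b, ∃ t ∈ TT P x, ∃ w ∈ UU x b, wv P x a 1 * u * m = v * (t * (wv P x a 1 * m)) * w ∨
      wv P x a 1 * u * m = v * (t * m) * w := by
  intro m hm u hu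
  have hp : b.IsPos a := b.isPos_of_mem_support ha
  obtain ⟨s, v, hv, rfl⟩ := (hTi_dec h ha hu).2
  obtain ⟨σ, -, hσ⟩ := h.act_ex (inv_mem hm)
  obtain ⟨e, he⟩ := hσ a
  by_cases h0 : s = 0
  · refine ⟨_, hv, 1, one_mem _, 1, one_mem _, Or.inl ?_⟩
    rw [h0, h.zero]
    group
  by_cases h1 : b.IsPos (ac P σ a)
  · refine ⟨_, hv, 1, one_mem _, m⁻¹ * x a s * m⁻¹⁻¹, ?_, Or.inl (by group)⟩
    rw [(he s).1]
    exact hTi_mem (S := {a | b.IsPos a}) h1 _
  · obtain ⟨f, hf⟩ := h.act_w a 1 a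
    have e1 := hTi_sl h (ng P a) (-(Units.mk0 s h0)⁻¹)
    have e2 : (-((-(Units.mk0 s h0)⁻¹)⁻¹ : Kˣ) : K) = s := by simp
    rw [e2, hTi_ng_ng] at e1
    generalize (-(Units.mk0 s h0)⁻¹ : Kˣ) = z at e1
    have k1 : wv P x a 1 * x (ng P a) (-z) * (wv P x a 1)⁻¹ ∈ UU x b := by
      rw [(hf _).2, hTi_ac, hTi_ng_ng]
      exact hTi_mem (S := {a | b.IsPos a}) hp _
    have k2 : m⁻¹ * x (ng P a) (-z) * m⁻¹⁻¹ ∈ UU x b := by
      rw [(he _).2]
      exact hTi_mem (S := {a | b.IsPos a}) (hTi_pos h1) _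
    have k3 : wv P x a 1 * (wv P x (ng P a) z * (wv P x a 1)⁻¹) * (wv P x a 1)⁻¹ ∈ TT P x :=
      (Subgroup.mem_normalizer_iff.mp (h.T_nrm (hTi_wN a 1)) _).mp (h.w_ng a z)
    refine ⟨_, mul_mem hv k1, _, mul_mem k3 (h.w_sq a), _, k2, Or.inr ?_⟩
    rw [e1]
    group

theorem Chv.one (h : Chv x b) (ha : a ∈ b.support) (hc : P.pairingIn ℤ a c = -1) :
    ∀ u ∈ UU x b, wv P x a 1 * u * (wv P x a 1)⁻¹ ∈ UU x b ∨ ∃ s ∈ TT P x, ∃ v ∈ UU x b,
      ∃ w ∈ UU x b, wv P x a 1 * u * (wv P x a 1)⁻¹ = v * (s * wv P x a 1 * s⁻¹) * w := by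
  intro u hu
  have hp : b.IsPos a := b.isPos_of_mem_support ha
  obtain ⟨s, v, hw, rfl⟩ := (hTi_dec h ha hu).1
  by_cases h0 : s = 0
  · left
    rwa [h0, h.zero, one_mul]
  right
  obtain ⟨f, hf⟩ := h.act_w a 1 a
  have e0 := (hf s).1
  rw [hTi_ac] at e0
  have e1 := hTi_sl h a (-(f * Units.mk0 s h0)⁻¹)
  have e2 : (-((-(f * Units.mk0 s h0)⁻¹)⁻¹ : Kˣ) : K) = f * s := by simp
  rw [e2] at e1
  generalize (-(f * Units.mk0 s h0)⁻¹ : Kˣ) = z at e1
  have e3 := h.h_w a c z⁻¹ 1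
  rw [hc, mul_one, zpow_neg_one, inv_inv] at e3
  have k : x a (-z) ∈ UU x b := hTi_mem (S := {a | b.IsPos a}) hp _
  refine ⟨hv P x c z⁻¹, Subgroup.subset_closure ⟨c, _, rfl⟩, _, k, _, mul_mem k hw, ?_⟩
  rw [e3, ← mul_assoc (x a (-z) * wv P x a z), ← e1, ← e0]
  group

theorem Chv.bru (h : Chv x b) (g : X) :
    ∃ u ∈ UU x b, ∃ n ∈ NN P x, ∃ v ∈ UU x b, g = u * n * v := by
  let B : X → Prop := fun g => ∃ u ∈ UU x b, ∃ n ∈ NN P x, ∃ v ∈ UU x b, g = u * n * v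
  have bU : ∀ y ∈ UU x b, ∀ g, B g → B (y * g) := by
    rintro y hy _ ⟨u, hu, n, hn, v, hv, rfl⟩
    exact ⟨y * u, mul_mem hy hu, n, hn, v, hv, by group⟩
  have bT : ∀ y ∈ TT P x, ∀ g, B g → B (y * g) := by
    rintro y hy _ ⟨u, hu, n, hn, v, hv, rfl⟩
    exact ⟨y * u * y⁻¹, (Subgroup.mem_normalizer_iff.mp (h.T_VS _ hy) u).mp hu, y * n,
      mul_mem (T_le hy) hn, v, hv, by group⟩
  have bw : ∀ a ∈ b.support, ∀ g, B g → B (wv P x a 1 * g) := by
    rintro a ha _ ⟨u, hu, n, hn, v, hv, rfl⟩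
    obtain ⟨v', hv', t, ht, w, hw, e | e⟩ := h.tits ha n hn u hu
    · refine ⟨v', hv', _, mul_mem (T_le ht) (mul_mem (hTi_wN a 1) hn), w * v, mul_mem hw hv, ?_⟩
      rw [← mul_assoc, ← mul_assoc, e]
      group
    · refine ⟨v', hv', _, mul_mem (T_le ht) hn, w * v, mul_mem hw hv, ?_⟩
      rw [← mul_assoc, ← mul_assoc, e]
      group
  have bN : ∀ y ∈ NN P x, ∀ g, B g → B (y * g) := by
    intro y hy
    have hy' := h.N_gen hy
    clear hy
    induction hy' using Subgroup.closure_induction_left with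
    | one => intro g hg; rwa [one_mul]
    | mul_left z hz y _ ih =>
      intro g hg
      rw [mul_assoc]
      rcases hz with hz | ⟨a, ha, rfl⟩
      · exact bT z hz _ (ih g hg)
      · exact bw a ha _ (ih g hg)
    | inv_mul_cancel z hz y _ ih =>
      intro g hg
      rw [mul_assoc]
      rcases hz with hz | ⟨a, ha, rfl⟩
      · exact bT _ (inv_mem hz) _ (ih g hg)
      · have e : (wv P x a 1)⁻¹ * (y * g) =
            (wv P x a 1 * wv P x a 1)⁻¹ * (wv P x a 1 * (y * g)) := by group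
        exact e ▸ bT _ (inv_mem (h.w_sq a)) _ (bw a ha _ (ih g hg))
  have bx : ∀ a u g, B g → B (x a u * g) := by
    intro a u g hg
    by_cases hp : b.IsPos a
    · exact bU _ (hTi_mem (S := {a | b.IsPos a}) hp u) g hg
    · obtain ⟨f, hf⟩ := h.act_w a 1 a
      have k : wv P x a 1 * x a u * (wv P x a 1)⁻¹ ∈ UU x b := by
        rw [(hf u).1, hTi_ac]
        exact hTi_mem (S := {a | b.IsPos a}) (hTi_pos hp) _
      have e : x a u * g = (wv P x a 1)⁻¹ *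
          ((wv P x a 1 * x a u * (wv P x a 1)⁻¹) * (wv P x a 1 * g)) := by group
      exact e ▸ bN _ (inv_mem (hTi_wN a 1)) _ (bU _ k _ (bN _ (hTi_wN a 1) g hg))
  have hg : g ∈ Subgroup.closure {g | ∃ a t, g = x a t} := h.gen ▸ Subgroup.mem_top g
  change B g
  induction hg using Subgroup.closure_induction_left with
  | one => exact ⟨1, one_mem _, 1, one_mem _, 1, one_mem _, by group⟩
  | mul_left z hz y _ ih =>
    obtain ⟨a, u, rfl⟩ := hz
    exact bx a u y ih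
  | inv_mul_cancel z hz y _ ih =>
    obtain ⟨a, u, rfl⟩ := hz
    rw [← h.neg]
    exact bx a _ y ih

theorem Chv.syl (h : Chv x b) [Finite K] [Finite X] (hK : Big K) (r : ℕ) [Fact r.Prime]
    [CharP K r] : ∃ U : Sylow r X, (U : Subgroup X) = UU x b := by
  have hU : IsPGroup r (UU x b) := h.up_p up_pos
  obtain ⟨Q, hQ⟩ := hU.exists_le_sylow
  refine ⟨Q, ?_⟩
  by_contra hne
  have : Group.IsNilpotent Q := Q.isPGroup'.isNilpotent
  have hlt : (UU x b).subgroupOf (Q : Subgroup X) < ⊤ := by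
    rw [lt_top_iff_ne_top, Ne, Subgroup.subgroupOf_eq_top]
    exact fun k => hne (le_antisymm k hQ)
  obtain ⟨⟨g, hgQ⟩, hg, hgU⟩ :=
    SetLike.exists_of_lt (Group.normalizerCondition_of_isNilpotent _ hlt)
  rw [← Subgroup.subgroupOf_normalizer_eq hQ, Subgroup.mem_subgroupOf] at hg
  rw [Subgroup.mem_subgroupOf] at hgU
  change g ∈ _ at hg
  change g ∉ _ at hgU
  obtain ⟨u, hu, n, hn, v, hv, rfl⟩ := h.bru g
  have e : n = u⁻¹ * (u * n * v) * v⁻¹ := by group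
  have hT : n ∈ TT P x := by
    rw [← h.tor hK]
    refine Subgroup.mem_inf.mpr ⟨hn, ?_⟩
    rw [e]
    exact mul_mem (mul_mem (inv_mem (Subgroup.le_normalizer hu)) hg)
      (inv_mem (Subgroup.le_normalizer hv))
  have hnQ : n ∈ (Q : Subgroup X) := by
    rw [e]
    exact mul_mem (mul_mem (inv_mem (hQ hu)) hgQ) (inv_mem (hQ hv))
  obtain ⟨k, hk⟩ := Q.isPGroup' ⟨n, hnQ⟩
  have h1 : n ^ r ^ k = 1 := by simpa using congrArg Subtype.val hk
  have h2 := h.T_pow hT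
  let _ := Fintype.ofFinite K
  obtain ⟨d, -, hd⟩ := FiniteField.card K r
  have hco : (r ^ k).Coprime (Nat.card K - 1) := by
    rw [Nat.card_eq_fintype_card, hd]
    refine Nat.Coprime.pow_left _ ?_
    have h3 : 1 ≤ r ^ (d : ℕ) := Nat.one_le_pow _ _ (Fact.out : r.Prime).pos
    have h4 : (r ^ (d : ℕ)).Coprime (r ^ (d : ℕ) - 1) := by
      rw [Nat.coprime_self_sub_right h3]
      exact Nat.coprime_one_right _
    exact Nat.Coprime.coprime_dvd_left (dvd_pow_self r d.ne_zero) h4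
  have h5 : n = 1 := by
    rw [← orderOf_eq_one_iff]
    exact Nat.eq_one_of_dvd_coprimes hco (orderOf_dvd_of_pow_eq_one h1)
      (orderOf_dvd_of_pow_eq_one h2)
  exact hgU (by rw [h5, mul_one]; exact mul_mem hu hv)

end Pool.Agent.Lib.MP_1ae3da_al.JV
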