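import Pool.Agent.Lib.MP_1ae3da_al.H.Rl

/-! The torus. -/

namespace Pool.Agent.Lib.MP_1ae3da_al.JV

variable {ι M N K X : Type} [AddCommGroup M] [Module ℚ M] [AddCommGroup N] [Module ℚ N]
  {P : RootPairing ι ℚ M N} [Field K] [Group X] {x : ι → K → X} [P.IsCrystallographic]
  {b : P.Base} {a c : ι} {g t : X} {σ τ : P.Aut} {S : Set ι}

omit [P.IsCrystallographic] in
theorem hTr_w (a : ι) (s : Kˣ) : wv P x a s ∈ NN P x := Subgroup.subset_closure ⟨a, s, rfl⟩

omit [P.IsCrystallographic] in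
theorem hTr_h (a : ι) (s : Kˣ) : hv P x a s ∈ TT P x := Subgroup.subset_closure ⟨a, s, rfl⟩

omit [P.IsCrystallographic] in
theorem hTr_one (a : ι) : ac P 1 a = a := by rw [ac, map_one]; rfl

theorem hTr_nrm {H : Subgroup X} {A : Set X}
    (k : ∀ g ∈ H, ∀ y ∈ A, g * y * g⁻¹ ∈ Subgroup.closure A) :
    H ≤ Subgroup.normalizer (Subgroup.closure A : Set X) := by
  have k1 : ∀ g ∈ H, ∀ y ∈ Subgroup.closure A, g * y * g⁻¹ ∈ Subgroup.closure A := fun g hg y hy => by
    induction hy using Subgroup.closure_induction with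
    | mem y hy => exact k g hg y hy
    | one => simp
    | mul y z _ _ h1 h2 => simpa [mul_assoc] using mul_mem h1 h2
    | inv y _ h1 => simpa [mul_assoc] using inv_mem h1
  intro g hg
  refine Subgroup.mem_normalizer_iff.2 fun y => ⟨k1 g hg y, fun hy => ?_⟩
  simpa [mul_assoc] using k1 g⁻¹ (inv_mem hg) _ hy

omit [P.IsCrystallographic] in
theorem T_le : TT P x ≤ NN P x := by
  refine (Subgroup.closure_le _).2 ?_
  rintro _ ⟨a, t, rfl⟩
  exact mul_mem (hTr_w a t) (inv_mem (hTr_w a 1))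

theorem Chv.act_T (h : Chv x b) (ht : t ∈ TT P x) : Act P x t 1 := by
  induction ht using Subgroup.closure_induction with
  | mem y hy =>
    obtain ⟨a, s, rfl⟩ := hy
    have := (h.act_w a s).mul (h.act_w a 1).inv
    rwa [mul_inv_cancel] at this
  | one => exact act_one
  | mul y z _ _ h1 h2 => simpa using h1.mul h2
  | inv y _ h1 => simpa using h1.inv

theorem Chv.sc_ex (h : Chv x b) (ht : t ∈ TT P x) (a : ι) : ∃ c, Sc x t a c := by
  obtain ⟨c, hc⟩ := h.act_T ht a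
  exact ⟨c, fun u => by rw [(hc u).1, hTr_one]⟩

theorem Sc.mul {t' : X} {u v : Kˣ} (h : Sc x t a u) (k : Sc x t' a v) : Sc x (t * t') a (u * v) := by
  intro w
  rw [Units.val_mul, mul_assoc (u : K), ← h, ← k]
  group

theorem hTr_sc1 (a : ι) : Sc x 1 a 1 := fun w => by simp

theorem hTr_scinv {u : Kˣ} (h : Sc x t a u) : Sc x t⁻¹ a u⁻¹ := by
  intro w
  have := h ((u⁻¹ : Kˣ) * w)
  rw [Units.mul_inv_cancel_left] at this
  rw [← this]
  group

theorem Sc.zpow {u : Kˣ} (h : Sc x t a u) (i : ℤ) : Sc x (t ^ i) a (u ^ i) := by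
  induction i using Int.induction_on with
  | zero => rw [zpow_zero, zpow_zero]; exact hTr_sc1 a
  | succ n ih => rw [zpow_add_one, zpow_add_one]; exact ih.mul h
  | pred n ih => rw [zpow_sub_one, zpow_sub_one]; exact ih.mul (hTr_scinv h)

theorem Chv.sc_uq (h : Chv x b) {u v : Kˣ} (h1 : Sc x t a u) (h2 : Sc x t a v) : u = v := by
  have e := (h1 1).symm.trans (h2 1)
  rw [mul_one, mul_one] at e
  refine Units.ext (sub_eq_zero.1 (h.inj a _ ?_))
  rw [sub_eq_add_neg, h.add, h.neg, e, mul_inv_cancel]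

theorem Chv.T_ab (h : Chv x b) : ∀ s ∈ TT P x, ∀ t ∈ TT P x, s * t = t * s := by
  intro s hs t ht
  induction ht using Subgroup.closure_induction with
  | mem y hy =>
    obtain ⟨a, r, rfl⟩ := hy
    have := h.act_h (h.act_T hs) a r
    rwa [hTr_one, mul_inv_eq_iff_eq_mul] at this
  | one => simp
  | mul y z _ _ h1 h2 => exact Commute.mul_right h1 h2
  | inv y _ h1 => exact Commute.inv_right h1

theorem Chv.T_nrm (h : Chv x b) : NN P x ≤ Subgroup.normalizer (TT P x : Set X) := by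
  refine hTr_nrm fun g hg y hy => ?_
  obtain ⟨a, s, rfl⟩ := hy
  obtain ⟨σ, -, k⟩ := h.act_ex hg
  rw [h.act_h k]
  exact hTr_h _ s

theorem Chv.T_pow (h : Chv x b) [Finite K] (ht : t ∈ TT P x) : t ^ (Nat.card K - 1) = 1 := by
  induction ht using Subgroup.closure_induction with
  | mem y hy =>
    obtain ⟨a, s, rfl⟩ := hy
    have := map_pow (MonoidHom.mk' (hv P x a) (h.hm a)) s (Nat.card K - 1)
    rw [← Nat.card_units, pow_card_eq_one', map_one] at this
    rw [← Nat.card_units]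
    exact this.symm
  | one => exact one_pow _
  | mul y z hy hz h1 h2 => rw [Commute.mul_pow (h.T_ab y hy z hz), h1, h2, one_mul]
  | inv y _ h1 => rw [inv_pow, h1, inv_one]

theorem Chv.w_sq (h : Chv x b) (a : ι) : wv P x a 1 * wv P x a 1 ∈ TT P x := by
  have := inv_mem (hTr_h (P := P) (x := x) a (-1))
  rwa [hv, ← h.w_inv, mul_inv_rev, inv_inv] at this

theorem Chv.w_ng (h : Chv x b) (a : ι) (s : Kˣ) :
    wv P x (ng P a) s * (wv P x a 1)⁻¹ ∈ TT P x := by
  obtain ⟨c, hc⟩ := (h.act_w a 1).w a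
  have e := hc (c⁻¹ * s)
  rw [mul_inv_cancel_left] at e
  have e' : ac P (RootPairing.Equiv.reflection P a) a = ng P a := rfl
  rw [e'] at e
  have k := h.act_h (h.act_w a 1) a (c⁻¹ * s)
  have : wv P x (ng P a) s * (wv P x a 1)⁻¹ = hv P x (ng P a) (c⁻¹ * s) := by
    rw [← e, ← e', ← k, hv]
    group
  rw [this]
  exact hTr_h _ _

theorem Chv.T_VS (h : Chv x b) (S : Set ι) : TT P x ≤ Subgroup.normalizer (VS x S : Set X) := by
  refine hTr_nrm fun g hg y hy => ?_
  obtain ⟨a, ha, u, rfl⟩ := hy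
  obtain ⟨c, hc⟩ := h.sc_ex hg a
  rw [hc]
  exact Subgroup.subset_closure ⟨a, ha, _, rfl⟩

/-- the torus separates the roots. -/
theorem Chv.sep [Finite ι] [P.IsReduced] (h : Chv x b) (hK : Big K) (h1 : c ≠ a)
    (h2 : c ≠ ng P a) : ∃ t ∈ TT P x, Sc x t a 1 ∧ ∃ u, u ≠ 1 ∧ Sc x t c u := by
  obtain ⟨s, hs⟩ := hK
  have k := P.pairingIn_pairingIn_mem_set_of_isCrystal_of_isRed' c a
    (fun e => h1 (P.root.injective e))
    (fun e => h2 (P.root.injective (by rw [e, P.root_reflectionPerm, P.reflection_apply_self])))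
  have k1 := ((h.sc_h c a s).zpow 2).mul ((h.sc_h a a s).zpow (-P.pairingIn ℤ a c))
  have k2 := ((h.sc_h c c s).zpow 2).mul ((h.sc_h a c s).zpow (-P.pairingIn ℤ a c))
  rw [P.pairingIn_same, ← zpow_mul, ← zpow_mul, ← zpow_add] at k1 k2
  refine ⟨_, mul_mem (zpow_mem (hTr_h c s) 2) (zpow_mem (hTr_h a s) _), ?_, _, ?_, k2⟩
  · rwa [show P.pairingIn ℤ a c * 2 + 2 * -P.pairingIn ℤ a c = 0 by ring, zpow_zero] at k1
  · obtain ⟨i, i0, i4, e⟩ : ∃ i : ℕ, 0 < i ∧ i ≤ 4 ∧
        2 * 2 + P.pairingIn ℤ c a * -P.pairingIn ℤ a c = i := by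
      simp only [Set.mem_insert_iff, Set.mem_singleton_iff, Prod.mk.injEq] at k
      refine ⟨(2 * 2 + P.pairingIn ℤ c a * -P.pairingIn ℤ a c).toNat, ?_⟩
      rcases k with k | k | k | k | k | k | k | k | k | k | k <;> rw [k.1, k.2] <;> decide
    rw [e, zpow_natCast]
    exact hs i i0 i4

end Pool.Agent.Lib.MP_1ae3da_al.JV
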