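import Pool.Agent.Lib.MP_1ae3da_al.H.Tr

/-! The unipotent subgroup. -/

namespace Pool.Agent.Lib.MP_1ae3da_al.JV

variable {ι M N K X : Type} [AddCommGroup M] [Module ℚ M] [AddCommGroup N] [Module ℚ N]
  {P : RootPairing ι ℚ M N} [Field K] [Group X] {x : ι → K → X} [P.IsCrystallographic]
  [Finite ι] [P.IsReduced] {b : P.Base} {a c : ι} {g t : X} {σ τ : P.Aut} {S : Set ι}

omit [Finite ι] [P.IsReduced] [P.IsCrystallographic] in
theorem hUp_ht {d : ι} {i j : ℕ} (h : P.root d = i • P.root a + j • P.root c) :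
    b.height d = i * b.height a + j * b.height c := by
  obtain ⟨f, -, -, hf⟩ := b.exists_root_eq_sum_int a
  obtain ⟨k, -, -, hk⟩ := b.exists_root_eq_sum_int c
  have hfg : P.root d = ∑ l ∈ b.support, ((i : ℤ) * f l + (j : ℤ) * k l) • P.root l := by
    simp_rw [add_smul, mul_smul, Finset.sum_add_distrib, ← Finset.smul_sum, ← hf, ← hk, h,
      natCast_zsmul]
  rw [RootPairing.Base.height_eq_sum hf, RootPairing.Base.height_eq_sum hk,
    RootPairing.Base.height_eq_sum hfg, Finset.sum_add_distrib, Finset.mul_sum, Finset.mul_sum]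

omit [Finite ι] [P.IsReduced] [P.IsCrystallographic] [Field K] in
theorem hUp_mem (ha : a ∈ S) (u : K) : x a u ∈ VS x S := Subgroup.subset_closure ⟨a, ha, u, rfl⟩

omit [Finite ι] [P.IsReduced] in
theorem hUp_cj (h : Chv x b) (hS : Up b S) (hc : b.IsPos c) (s : K) (hg : g ∈ VS x S) :
    x c s * g * (x c s)⁻¹ ∈ VS x S := by
  induction hg using Subgroup.closure_induction with
  | mem y hy =>
    obtain ⟨a, ha, u, rfl⟩ := hy
    have h1 : 0 < b.height a := hS.1 a ha
    have h2 : 0 < b.height c := hc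
    have h3 : P.root a ≠ -P.root c := fun e => by
      have := b.height_add_zsmul (i := c) (j := c) (k := a) (z := -2) (by rw [e]; abel)
      rw [smul_eq_mul] at this
      omega
    have h4 : x c s * x a u * (x c s)⁻¹ * (x a u)⁻¹ ∈ VS x S := by
      refine Subgroup.closure_mono ?_ (h.cm c a h3 s u)
      rintro _ ⟨d, v, i, j, hi, hj, e, rfl⟩
      refine ⟨d, hS.2 a ha d ?_, v, rfl⟩
      rw [hUp_ht (b := b) e]
      have hi' : (1 : ℤ) ≤ i := by exact_mod_cast hi
      have hj' : (1 : ℤ) ≤ j := by exact_mod_cast hj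
      nlinarith
    have := mul_mem h4 (hUp_mem (x := x) ha u)
    rwa [inv_mul_cancel_right] at this
  | one => simp
  | mul y z _ _ hy hz =>
    have := mul_mem hy hz
    convert this using 1
    group
  | inv y _ hy =>
    have := inv_mem hy
    convert this using 1
    group

omit [P.IsReduced] [P.IsCrystallographic] in
theorem hUp_ind {p : Set ι → Prop} (h0 : p ∅)
    (h1 : ∀ S a, Up b S → a ∈ S → (∀ c ∈ S, b.height a ≤ b.height c) → p (S \ {a}) → p S)
    (h2 : ∀ S a, Up b S → (∀ c ∈ S, b.height a ≤ b.height c) → Up b (S \ {a}))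
    (hS : Up b S) : p S := by
  induction hn : S.ncard generalizing S with
  | zero => rwa [(Set.ncard_eq_zero (Set.toFinite S)).1 hn]
  | succ n ih =>
    obtain ⟨a, ha, hm⟩ := Set.exists_min_image S b.height (Set.toFinite S)
      (Set.nonempty_of_ncard_ne_zero (by omega))
    refine h1 S a hS ha hm (ih (h2 S a hS hm) ?_)
    rw [Set.ncard_sdiff_singleton_of_mem ha, hn]
    rfl

omit [Finite ι] [P.IsReduced] [P.IsCrystallographic] [Field K] in
theorem hUp_nil (hg : g ∈ VS x ∅) : g = 1 := by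
  simpa [VS] using hg

omit [Finite ι] [P.IsReduced] [P.IsCrystallographic] in
theorem up_pos : Up b {a | b.IsPos a} := by
  exact ⟨fun _ h => h, fun a ha c h => lt_trans (show 0 < b.height a from ha) h⟩

omit [Finite ι] [P.IsReduced] [P.IsCrystallographic] in
theorem Up.del (h : Up b S) (hm : ∀ c ∈ S, b.height a ≤ b.height c) : Up b (S \ {a}) := by
  refine ⟨fun c hc => h.1 c hc.1, fun c hc d hd => ⟨h.2 c hc.1 d hd, fun e => ?_⟩⟩
  have := hm c hc.1
  rw [Set.mem_singleton_iff.1 e] at hd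
  omega

omit [Finite ι] [P.IsReduced] in
theorem Chv.up_nrm (h : Chv x b) (hS : Up b S) :
    UU x b ≤ Subgroup.normalizer (VS x S : Set X) := by
  refine (Subgroup.closure_le _).2 ?_
  rintro _ ⟨c, hc, s, rfl⟩
  refine Subgroup.mem_normalizer_iff.2 fun y => ⟨hUp_cj h hS hc s, fun hy => ?_⟩
  have := hUp_cj h hS hc (-s) hy
  rw [h.neg] at this
  convert this using 1
  group

omit [Finite ι] [P.IsReduced] in
theorem Chv.up_dec (h : Chv x b) (hS : Up b S) (ha : a ∈ S)
    (hm : ∀ c ∈ S, b.height a ≤ b.height c) (hg : g ∈ VS x S) :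
    ∃ u, ∃ v ∈ VS x (S \ {a}), g = x a u * v := by
  have hS' := hS.del hm
  induction hg using Subgroup.closure_induction with
  | mem y hy =>
    obtain ⟨c, hc, u, rfl⟩ := hy
    by_cases e : c = a
    · exact ⟨u, 1, one_mem _, by rw [e, mul_one]⟩
    · exact ⟨0, _, hUp_mem (S := S \ {a}) ⟨hc, e⟩ u, by rw [h.zero, one_mul]⟩
  | one => exact ⟨0, 1, one_mem _, by rw [h.zero, one_mul]⟩
  | mul y z _ _ hy hz =>
    obtain ⟨u, v, hv, rfl⟩ := hy
    obtain ⟨u', v', hv', rfl⟩ := hz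
    refine ⟨u + u', _, mul_mem (hUp_cj h hS' (hS.1 a ha) (-u') hv) hv', ?_⟩
    rw [h.add, h.neg]
    group
  | inv y _ hy =>
    obtain ⟨u, v, hv, rfl⟩ := hy
    refine ⟨-u, _, hUp_cj h hS' (hS.1 a ha) u (inv_mem hv), ?_⟩
    rw [h.neg]
    group

omit [P.IsReduced] in
theorem Chv.up_p (h : Chv x b) {r : ℕ} [CharP K r] (hS : Up b S) : IsPGroup r (VS x S) := by
  have key : ∀ g ∈ VS x S, ∃ k, g ^ r ^ k = 1 := by
    refine hUp_ind (p := fun S => ∀ g ∈ VS x S, ∃ k, g ^ r ^ k = 1)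
      (fun g hg => ⟨0, by rw [hUp_nil hg, one_pow]⟩) (fun S a hS ha hm ih g hg => ?_)
      (fun _ _ hS hm => hS.del hm) hS
    obtain ⟨u, v, hv, rfl⟩ := h.up_dec hS ha hm hg
    have e : ∀ n : ℕ, ∃ w ∈ VS x (S \ {a}), (x a u * v) ^ n = x a (n * u) * w := by
      intro n
      induction n with
      | zero => exact ⟨1, one_mem _, by rw [Nat.cast_zero, zero_mul, h.zero, pow_zero, mul_one]⟩
      | succ n ih =>
        obtain ⟨w, hw, e⟩ := ih
        refine ⟨_, mul_mem (hUp_cj h (hS.del hm) (hS.1 a ha) (-u) hw) hv, ?_⟩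
        rw [pow_succ, e, Nat.cast_succ, add_mul, one_mul, h.add, h.neg]
        group
    obtain ⟨w, hw, e⟩ := e r
    rw [CharP.cast_eq_zero, zero_mul, h.zero, one_mul] at e
    obtain ⟨k, hk⟩ := ih w hw
    exact ⟨k + 1, by rw [pow_succ', pow_mul, e, hk]⟩
  intro g
  obtain ⟨k, hk⟩ := key g g.2
  exact ⟨k, Subtype.ext hk⟩

theorem Chv.up_fix (h : Chv x b) (hK : Big K) (hS : Up b S) (hg : g ∈ VS x S) (h1 : g ≠ 1) :
    ∃ a ∈ S, ∀ t ∈ TT P x, ∀ c, Sc x t a c → t * g * t⁻¹ = g → c = 1 := by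
  refine hUp_ind (p := fun S => ∀ g ∈ VS x S, g ≠ 1 →
      ∃ a ∈ S, ∀ t ∈ TT P x, ∀ c, Sc x t a c → t * g * t⁻¹ = g → c = 1)
    (fun g hg h1 => (h1 (hUp_nil hg)).elim) (fun S a hS ha hm ih g hg h1 => ?_)
    (fun _ _ hS hm => hS.del hm) hS g hg h1
  have B : ∀ u, x a u ∈ VS x (S \ {a}) → u = 0 := by
    intro u hu
    by_contra h0
    obtain ⟨d, hd, k⟩ := ih _ hu fun e => h0 (h.inj a u e)
    have h2 : d ≠ ng P a := fun e => by
      have e1 : b.height (ng P a) = -b.height a := b.height_reflectionPerm_self a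
      have e2 : 0 < b.height d := hS.1 d hd.1
      have e3 : 0 < b.height a := hS.1 a ha
      rw [e] at e2
      omega
    obtain ⟨t, ht, t1, c, hc, t2⟩ := h.sep hK hd.2 h2
    exact hc (k t ht c t2 (by rw [t1 u, Units.val_one, one_mul]))
  obtain ⟨u, v, hv, rfl⟩ := h.up_dec hS ha hm hg
  by_cases h0 : u = 0
  · rw [h0, h.zero, one_mul] at h1 ⊢
    obtain ⟨d, hd, k⟩ := ih v hv h1
    exact ⟨d, hd.1, k⟩
  refine ⟨a, ha, fun t ht c hc e => ?_⟩
  have h2 : t * v * t⁻¹ ∈ VS x (S \ {a}) :=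
    (Subgroup.mem_normalizer_iff.1 (h.T_VS _ ht) v).1 hv
  have h3 : x a (-u + c * u) = v * (t * v * t⁻¹)⁻¹ := by
    rw [h.add, h.neg, ← hc u, eq_mul_inv_iff_mul_eq, mul_assoc, inv_mul_eq_iff_eq_mul, ← e]
    group
  have h4 := B _ (h3 ▸ mul_mem hv (inv_mem h2))
  refine Units.ext (mul_right_cancel₀ h0 ?_)
  rw [Units.val_one, one_mul]
  linear_combination h4

end Pool.Agent.Lib.MP_1ae3da_al.JV
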