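import Pool.Agent.Lib.MP_1ae3da_al.H.Xb
import Pool.Agent.Lib.MP_1ae3da_al.H.Wa

/-! Products over orbits of simple roots. -/

namespace Pool.Agent.Lib.MP_1ae3da_al.JV

variable {ι M N K X : Type} [AddCommGroup M] [Module ℚ M] [AddCommGroup N] [Module ℚ N]
  {P : RootPairing ι ℚ M N} [Field K] [Group X] {x : ι → K → X} [P.IsCrystallographic]
  [Finite ι] [P.IsReduced] [P.IsRootSystem] [Finite K] {b : P.Base} {a c : ι} {g n : X}
  {ρ τ : P.Aut} {φ : K →+* K} {σ : MulAut X} {S : Set ι} {L : List ι}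

omit [P.IsRootSystem] [Finite K] in
theorem xc_cm (h : Chv x b) (l : OL b ρ L) : L.Pairwise fun d d' => ∀ e e', (e = d ∨ e = ng P d) →
    (e' = d' ∨ e' = ng P d') → ∀ s t, Commute (x e s) (x e' t) := by
  refine l.orth.imp_of_mem fun {d d'} hd hd' k e e' he he' s t => ?_
  have k1 : P.pairing d d' = 0 := by rw [← P.algebraMap_pairingIn ℤ, k, map_zero]
  have q : ∀ d e, (e = d ∨ e = ng P d) → ∃ i : ℚ, i ≠ 0 ∧ P.root e = i • P.root d := by
    rintro d _ (rfl | rfl)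
    · exact ⟨1, one_ne_zero, (one_smul _ _).symm⟩
    · exact ⟨-1, by norm_num, by simp⟩
  obtain ⟨i, hi, e1⟩ := q d e he
  obtain ⟨j, hj, e2⟩ := q d' e' he'
  exact hWa_cm h (l.mem d hd) (l.mem d' hd') k1 (P.pairing_eq_zero_iff.1 k1) hi hj e1 e2 s t

omit [Finite ι] in
theorem xc_fx {r : ι → ι} {f : ι → X} (hp : (L.map r).Perm L) (hf : ∀ d ∈ L, σ (f d) = f (r d))
    (hc : L.Pairwise fun d d' => Commute (f d) (f d')) : σ (L.map f).prod = (L.map f).prod := by
  have e : (L.map f).map σ = (L.map r).map f := by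
    rw [List.map_map, List.map_map]
    exact List.map_congr_left hf
  rw [map_list_prod, e]
  exact ((hp.symm.map f).prod_eq' (List.pairwise_map.2 hc)).symm

omit [Finite ι] in
theorem xc_mul {f g : ι → X} (hc : L.Pairwise fun d d' => Commute (g d) (f d')) :
    (L.map fun d => f d * g d).prod = (L.map f).prod * (L.map g).prod := by
  induction L with
  | nil => simp
  | cons a L ih =>
    obtain ⟨h1, h2⟩ := List.pairwise_cons.1 hc
    have e : Commute (g a) (L.map f).prod := Commute.list_prod_right _ _ fun y hy => by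
      obtain ⟨d, hd, rfl⟩ := List.mem_map.1 hy
      exact h1 d hd
    simp only [List.map_cons, List.prod_cons, ih h2]
    rw [mul_assoc, mul_assoc, ← mul_assoc (g a), e.eq, mul_assoc]

omit [Field K] [Finite ι] [Finite K] in
theorem xc_vs {f : ι → ι} (hf : ∀ d ∈ L, f d ∈ S) (t : K) :
    (L.map fun d => x (f d) t).prod ∈ VS x S := by
  refine list_prod_mem fun y hy => ?_
  obtain ⟨d, hd, rfl⟩ := List.mem_map.1 hy
  exact Subgroup.subset_closure ⟨_, hf d hd, t, rfl⟩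

omit [Finite ι] [P.IsReduced] [P.IsRootSystem] in
theorem xc_nd (l : OL b ρ L) : L.Nodup :=
  l.orth.imp fun {d d'} k e => by
    rw [e, P.pairingIn_same] at k
    exact two_ne_zero k

omit [P.IsRootSystem] [Finite K] in
theorem Twd.fx (k : Twd x b ρ φ σ) (h : Chv x b) (l : OL b ρ L) {t : K} (ht : φ t = t) :
    σ (L.map fun d => x d t).prod = (L.map fun d => x d t).prod ∧
      σ (L.map fun d => x (ng P d) t).prod = (L.map fun d => x (ng P d) t).prod := by
  refine ⟨xc_fx l.perm (fun d hd => ?_) ((xc_cm h l).imp fun k => k _ _ (.inl rfl) (.inl rfl) t t),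
    xc_fx l.perm (fun d hd => ?_) ((xc_cm h l).imp fun k => k _ _ (.inr rfl) (.inr rfl) t t)⟩
  · rw [k.sim d (.inl (l.mem d hd)), ht]
  · rw [k.sim _ (.inr (by rw [hNg_nn]; exact l.mem d hd)), ht, ac_ng]

theorem xc_ol (k : Bas b ρ) (cm : τ * ρ = ρ * τ) (l : OL b ρ L) (q : ι → Bool)
    (hq : ∀ d, q d = true ↔ ¬ b.IsPos (ac P τ d)) : OL b ρ (L.filter q) := by
  refine ⟨fun d hd => l.mem d (List.mem_of_mem_filter hd), l.orth.filter _, ?_⟩
  have e := l.perm.filter q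
  have e1 : q ∘ ac P ρ = q := by
    funext d
    rw [Function.comp_apply, Bool.eq_iff_iff, hq, hq, ← hDl_mul, cm, hDl_mul, k.pos]
  rwa [List.filter_map, e1] at e

omit [Finite ι] [P.IsReduced] [P.IsRootSystem] [Finite K] [P.IsCrystallographic] in
theorem xc_cj (hτ : Act P x n τ) {S S' : Set ι} (e : ∀ a ∈ S, ac P τ a ∈ S') (hg : g ∈ VS x S) :
    n * g * n⁻¹ ∈ VS x S' :=
  hTi_conj (fun a ha u => by
    obtain ⟨c, hc⟩ := hτ a
    rw [(hc u).1]
    exact hTi_mem (e a ha) _) hg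

theorem xc_neg (k : Twd x b ρ φ σ) (h : Chv x b) (hK : Big K) (hτ : Act P x n τ) (l : OL b ρ L)
    (hL : L ≠ []) (hn : ∀ d ∈ L, ¬ b.IsPos (ac P τ d))
    (h2 : ∀ u ∈ UU x b, σ u = u → n * u * n⁻¹ ∈ UU x b) : False := by
  have u1 : (L.map fun d => x d 1).prod ∈ UU x b := xc_vs (f := fun d => d)
    (fun d hd => b.isPos_of_mem_support (l.mem d hd)) 1
  have u2 : (L.map fun d => x d 1).prod ∈ VS x {a | ¬ b.IsPos (ac P τ a)} :=
    xc_vs (f := fun d => d) hn 1
  have u3 := h2 _ u1 (k.fx h l (map_one φ)).1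
  have u4 := h.lst hK l.mem (xc_nd l) hL
  generalize (L.map fun d => x d 1).prod = u at *
  have e := h.opp hK u3 (xc_cj (S' := {a | ¬ b.IsPos a}) hτ (fun _ ha => ha) u2)
  rw [mul_inv_eq_one, mul_eq_left] at e
  exact u4 e

theorem Twd.tor {p : ℕ} (k : Twd x b ρ φ σ) (h : Chv x b) (hK : Big K) (r : Rt p b ρ)
    (hn : n ∈ NN P x) (h1 : σ n = n) (h2 : ∀ u ∈ UU x b, σ u = u → n * u * n⁻¹ ∈ UU x b) :
    n ∈ TT P x := by
  obtain ⟨τ, -, hτ⟩ := h.act_ex hn
  have cm := k.cm h hK hτ h1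
  have hs : ∀ a ∈ b.support, b.IsPos (ac P τ a) := by
    intro a ha
    by_contra hneg
    obtain ⟨L, l, hL⟩ := r.cov a ha
    obtain ⟨q, hq⟩ : ∃ q : ι → Bool, ∀ d, q d = true ↔ ¬ b.IsPos (ac P τ d) := by
      classical
      exact ⟨fun d => decide (¬ b.IsPos (ac P τ d)), fun d => decide_eq_true_iff⟩
    exact xc_neg k h hK hτ (xc_ol k.bas cm l q hq)
      (List.ne_nil_of_mem (List.mem_filter.2 ⟨hL, (hq a).2 hneg⟩))
      (fun d hd => (hq d).1 (List.of_mem_filter hd)) h2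
  refine h.del hn (fun c hc u => ?_) hK
  have e : x c u ∈ UU x b := Subgroup.subset_closure ⟨c, hc, u, rfl⟩
  exact xc_cj hτ (fun c hc => xa_pos hs hc) e

theorem Twd.ne {p : ℕ} (k : Twd x b ρ φ σ) (h : Chv x b) (hK : Big K) (r : Rt p b ρ) :
    ∃ u ∈ UU x b, σ u = u ∧ u ≠ 1 := by
  obtain ⟨a, ha⟩ := r.ne
  obtain ⟨L, l, hL⟩ := r.cov a ha
  exact ⟨_, xc_vs (f := id) (fun d hd => b.isPos_of_mem_support (l.mem d hd)) 1,
    (k.fx h l (map_one φ)).1, h.lst hK l.mem (xc_nd l) (List.ne_nil_of_mem hL)⟩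

omit [P.IsRootSystem] [Finite K] in
theorem Twd.tr (k : Twd x b ρ φ σ) (h : Chv x b) (l : OL b ρ L) {G : Subgroup X}
    (hG : ∀ g, σ g = g → (g ∈ UU x b ∨ g ∈ UM x b) → g ∈ G) {s : Kˣ} (hs : φ s = s) :
    (L.map fun d => hv P x d s).prod ∈ G := by
  have c := xc_cm h l
  have g1 : ∀ t, φ t = t → (L.map fun d => x d t).prod ∈ G := fun t ht => hG _ (k.fx h l ht).1
    (.inl (xc_vs (f := id) (fun d hd => b.isPos_of_mem_support (l.mem d hd)) t))
  have g2 : ∀ t, φ t = t → (L.map fun d => x (ng P d) t).prod ∈ G := fun t ht =>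
    hG _ (k.fx h l ht).2 (.inr (xc_vs (f := ng P) (S := {a | ¬ b.IsPos a})
      (fun d hd e => (RootPairing.Base.IsPos.neg_iff_not b d).1 e
        (b.isPos_of_mem_support (l.mem d hd))) t))
  have w : ∀ s : Kˣ, φ s = s → (L.map fun d => wv P x d s).prod ∈ G := by
    intro s hs
    unfold wv
    rw [xc_mul (c.imp fun k => (k _ _ (.inl rfl) (.inl rfl) _ _).mul_right
      (k _ _ (.inl rfl) (.inr rfl) _ _)), xc_mul (c.imp fun k => k _ _ (.inr rfl) (.inl rfl) _ _)]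
    refine mul_mem (mul_mem (g1 _ hs) (g2 _ ?_)) (g1 _ hs)
    simp [hs]
  have cw : L.Pairwise fun d d' => Commute (wv P x d (-1)) (wv P x d' s) := by
    refine c.imp fun {d d'} k => ?_
    have q : ∀ e, (e = d ∨ e = ng P d) → ∀ t, Commute (x e t) (wv P x d' s) := fun e he t =>
      ((k _ _ he (.inl rfl) _ _).mul_right (k _ _ he (.inr rfl) _ _)).mul_right
        (k _ _ he (.inl rfl) _ _)
    exact ((q _ (.inl rfl) _).mul_left (q _ (.inr rfl) _)).mul_left (q _ (.inl rfl) _)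
  simp only [hv, h.w_inv]
  rw [xc_mul cw]
  exact mul_mem (w s hs) (w _ (by simp))

theorem xc_s {p : ℕ} (hp : p.Prime) (hq : p ∣ Nat.card {t // φ t = t} - 1) :
    ∃ s : Kˣ, φ s = s ∧ orderOf s = p := by
  have := Fact.mk hp
  let F := RingHom.eqLocusField φ (RingHom.id K)
  have e : Nat.card Fˣ = Nat.card {t // φ t = t} - 1 := Nat.card_units F
  obtain ⟨z, hz⟩ := exists_prime_orderOf_dvd_card' (G := Fˣ) p (e ▸ hq)
  exact ⟨Units.map F.subtype.toMonoidHom z, (z : F).2, (orderOf_injective _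
    (Units.map_injective F.subtype.injective) z).trans hz⟩

omit [P.IsRootSystem] in
theorem Twd.orb {p : ℕ} (k : Twd x b ρ φ σ) (h : Chv x b) (hK : Big K) (r : Rt p b ρ)
    (hp : p.Prime) (hq : p ∣ Nat.card {t // φ t = t} - 1) {G : Subgroup X}
    (hG : ∀ g, σ g = g → (g ∈ UU x b ∨ g ∈ UM x b) → g ∈ G) (hg : g ∈ UU x b) (h1 : g ≠ 1) :
    ∃ t ∈ TT P x, t ∈ G ∧ t ^ p = 1 ∧ t * g * t⁻¹ ≠ g := by
  obtain ⟨a, ha, hf⟩ := h.up_fix hK up_pos hg h1
  obtain ⟨L, l, hL⟩ := r.sep a ha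
  obtain ⟨s, hs, ho⟩ := xc_s hp hq
  have key : ∀ L : List ι, (L.map fun d => hv P x d s).prod ∈ TT P x ∧
      (L.map fun d => hv P x d s).prod ^ p = 1 ∧
      Sc x (L.map fun d => hv P x d s).prod a (s ^ (L.map fun d => P.pairingIn ℤ a d).sum) := by
    intro L
    induction L with
    | nil => exact ⟨one_mem _, one_pow _, by simpa using hNg_one a⟩
    | cons d L ih =>
      simp only [List.map_cons, List.prod_cons, List.sum_cons, zpow_add]
      refine ⟨mul_mem (hNg_h d s) ih.1, ?_, (h.sc_h d a s).mul ih.2.2⟩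
      have e := map_pow (MonoidHom.mk' (hv P x d) (h.hm d)) s p
      rw [← ho, pow_orderOf_eq_one, map_one, ho] at e
      rw [Commute.mul_pow (h.T_ab _ (hNg_h d s) _ ih.1), ih.2.1, mul_one]
      exact e.symm
  obtain ⟨t1, t2, t3⟩ := key L
  refine ⟨_, t1, k.tr h l hG hs, t2, fun e => hL ?_⟩
  rw [← ho, orderOf_dvd_iff_zpow_eq_one]
  exact hf _ t1 _ t3 e

end Pool.Agent.Lib.MP_1ae3da_al.JV
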