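import Pool.Agent.Lib.MP_1ae3da_al.H.Chv

/-! The twisted groups of types `D₄` and `E₆` with `p ∣ q - 1`. -/

namespace Pool.Agent.Lib.MP_1ae3da_al.JV

/-- `X` lies between `⟨U^σ, (U⁻)^σ⟩` and `Y^σ`, for a Chevalley group `Y` and the automorphism `σ`
given by a symmetry `ρ` of the diagram and a field automorphism `φ` with `q` fixed points. -/
def Twi (p : ℕ) (X : Type) [Group X] : Prop :=
  ∃ (ι M N K Y : Type) (_ : AddCommGroup M) (_ : Module ℚ M) (_ : AddCommGroup N) (_ : Module ℚ N)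
    (P : RootPairing ι ℚ M N) (_ : Finite ι) (_ : P.IsRootSystem) (_ : P.IsReduced)
    (_ : P.IsCrystallographic) (b : P.Base) (_ : Field K) (_ : Finite K) (_ : Group Y)
    (_ : Finite Y) (x : ι → K → Y) (ρ : P.Aut) (φ : K →+* K) (σ : MulAut Y) (f : X →* Y),
    Chv x b ∧ (∀ a ∈ b.support, RootPairing.Equiv.indexHom P ρ a ∈ b.support) ∧
      (∀ a, (a ∈ b.support ∨ P.reflectionPerm a a ∈ b.support) → ∀ t,
        σ (x a t) = x (RootPairing.Equiv.indexHom P ρ a) (φ t)) ∧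
      Function.Injective f ∧ (∀ g, σ (f g) = f g) ∧
      (∀ g, σ g = g → (g ∈ Subgroup.closure {g | ∃ a, b.IsPos a ∧ ∃ t, g = x a t} ∨
        g ∈ Subgroup.closure {g | ∃ a, ¬ b.IsPos a ∧ ∃ t, g = x a t}) → g ∈ f.range) ∧
      5 ≤ p ∧ p ∣ Nat.card {t // φ t = t} - 1 ∧
      (Ty b (CartanMatrix.D 4) ∨ (Ty b CartanMatrix.E₆ ∧ ρ ≠ 1))

end Pool.Agent.Lib.MP_1ae3da_al.JV
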