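import Pool.Agent.Lib.MP_1ae3da_al.H.Xd
import Pool.Agent.Lib.MP_1ae3da_al.H.Xc
import Pool.Agent.Lib.MP_1ae3da_al.H.Xe
import Pool.Agent.Lib.MP_1ae3da_al.H.Bv

/-! The Bruhat data of the twisted groups. -/

namespace Pool.Agent.Lib.MP_1ae3da_al.JV

open SLI JM

section
variable {ι M N K X Y : Type} [AddCommGroup M] [Module ℚ M] [AddCommGroup N] [Module ℚ N]
  {P : RootPairing ι ℚ M N} [Field K] [Group X] [Group Y] {x : ι → K → Y} [P.IsCrystallographic]
  [Finite ι] [P.IsReduced] [P.IsRootSystem] [Finite K] [Finite X] [Finite Y] {b : P.Base}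
  {ρ : P.Aut} {φ : K →+* K} {σ : MulAut Y} {f : X →* Y} {p r : ℕ}

theorem xz_bw (k : Twd x b ρ φ σ) (h : Chv x b) (R : Rt p b ρ) [Fact r.Prime] [CharP K r]
    (hp : p.Prime) (h5 : 5 ≤ p) (hq : p ∣ Nat.card {t // φ t = t} - 1) (hf : Function.Injective f)
    (fx : ∀ g, σ (f g) = f g) (hG : ∀ g, σ g = g → (g ∈ UU x b ∨ g ∈ UM x b) → g ∈ f.range) :
    ∃ (U : Sylow r X) (N : Subgroup X), (U : Subgroup X) ≠ ⊥ ∧ BW p U N ∧
      ¬ p ∣ (Tor U N).relIndex N := by
  have := Fact.mk hp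
  obtain ⟨s, -, hs⟩ := xc_s hp hq
  have qK : p ∣ Nat.card K - 1 := by
    rw [← Nat.card_units, ← hs]
    exact orderOf_dvd_natCard s
  have hK : Big K := big_of hp (by omega) qK fun c => by
    rw [c] at qK
    have := Nat.le_of_dvd (by norm_num) qK
    omega
  obtain ⟨U0, hU0⟩ := h.syl hK r
  have bv := h.bv hU0 hp h5 qK
  have bru : ∀ g : X, ∃ u ∈ (UU x b).comap f, ∃ n ∈ (NN P x).comap f, ∃ v ∈ (UU x b).comap f,
      g = u * n * v := fun g => by
    obtain ⟨u, hu, m, hm, v, hv, e1, e2, e⟩ := k.bru h hK (fun m hm m' hm' u hu v hv e =>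
      bv.dc hm hm' (by rwa [← hU0] at hu) (by rwa [← hU0] at hv) e) (fx g)
    obtain ⟨u, rfl⟩ := hG u e1 (Or.inl hu)
    obtain ⟨v, rfl⟩ := hG v e2 (Or.inl hv)
    refine ⟨u, hu, u⁻¹ * g * v⁻¹, ?_, v, hv, by group⟩
    rw [Subgroup.mem_comap, map_mul, map_mul, map_inv, map_inv, e]
    simpa [mul_assoc] using hm
  have tor : (NN P x).comap f ⊓ Subgroup.normalizer ((UU x b).comap f : Set X) =
      (TT P x).comap f := by
    refine le_antisymm (fun n hn => k.tor h hK R hn.1 (fx n) fun u hu e => ?_) fun t ht =>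
      ⟨T_le ht, Subgroup.mem_normalizer_iff.2 fun u => ?_⟩
    · obtain ⟨u, rfl⟩ := hG u e (Or.inl hu)
      simpa using (Subgroup.mem_normalizer_iff.1 hn.2 u).1 hu
    · simpa using Subgroup.mem_normalizer_iff.1 (h.T_VS _ ht) (f u)
  have pU : IsPGroup r ((UU x b).comap f) := (h.up_p up_pos).comap_of_injective f hf
  obtain ⟨Q, hQ⟩ := pU.exists_le_sylow
  have hU : (Q : Subgroup X) = (UU x b).comap f := by
    by_contra hne
    have : Group.IsNilpotent Q := Q.isPGroup'.isNilpotent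
    have hlt : ((UU x b).comap f).subgroupOf (Q : Subgroup X) < ⊤ := by
      rw [lt_top_iff_ne_top, Ne, Subgroup.subgroupOf_eq_top]
      exact fun k => hne (le_antisymm k hQ)
    obtain ⟨⟨g, hgQ⟩, hg, hgU⟩ :=
      SetLike.exists_of_lt (Group.normalizerCondition_of_isNilpotent _ hlt)
    rw [← Subgroup.subgroupOf_normalizer_eq hQ, Subgroup.mem_subgroupOf] at hg
    rw [Subgroup.mem_subgroupOf] at hgU
    change g ∈ _ at hg
    change g ∉ _ at hgU
    obtain ⟨u, hu, n, hn, v, hv, rfl⟩ := bru g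
    have e : n = u⁻¹ * (u * n * v) * v⁻¹ := by group
    have hT : n ∈ (TT P x).comap f := by
      rw [← tor]
      refine Subgroup.mem_inf.mpr ⟨hn, ?_⟩
      rw [e]
      exact mul_mem (mul_mem (inv_mem (Subgroup.le_normalizer hu)) hg)
        (inv_mem (Subgroup.le_normalizer hv))
    have hnQ : n ∈ (Q : Subgroup X) := by
      rw [e]
      exact mul_mem (mul_mem (inv_mem (hQ hu)) hgQ) (inv_mem (hQ hv))
    have c := ((Q.isPGroup'.map f).inf_normalizer_sylow U0).le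
      (show f n ∈ _ from ⟨⟨n, hnQ, rfl⟩, by
        have := h.T_VS {a | b.IsPos a} hT
        rwa [show VS x {a | b.IsPos a} = U0 from hU0.symm] at this⟩)
    exact hgU (mul_mem (mul_mem hu (show f n ∈ UU x b from hU0 ▸ c.2)) hv)
  have eT : Tor Q ((NN P x).comap f) = (TT P x).comap f := by
    rw [← tor, ← hU]
    rfl
  have ab : ∀ s ∈ (TT P x).comap f, ∀ t ∈ (TT P x).comap f, s * t = t * s := fun s hs t ht =>
    hf (by rw [map_mul, map_mul, h.T_ab _ hs _ ht])
  have nd : ¬ p ∣ ((TT P x).comap f).relIndex ((NN P x).comap f) := fun d => by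
    obtain ⟨ψ, h1, h2, h3⟩ := h.hom hK
    let χ : (NN P x).comap f →* P.Aut := ψ.comp (f.subgroupComap (NN P x))
    have e : ((TT P x).comap f).subgroupOf ((NN P x).comap f) = χ.ker :=
      Subgroup.ext fun g => (h3 (f.subgroupComap _ g)).symm
    rw [Subgroup.relIndex, e, Subgroup.index_ker] at d
    have : Finite χ.range := Finite.of_surjective _ χ.rangeRestrict_surjective
    obtain ⟨y, o⟩ := exists_prime_orderOf_dvd_card' p d
    obtain ⟨n, hn⟩ := y.2
    rw [← Subgroup.orderOf_coe, ← hn] at o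
    have := R.wy (χ n) (h2 ▸ ⟨_, rfl⟩) (k.cm h hK (h1 (f.subgroupComap _ n)) (fx n))
      (o ▸ pow_orderOf_eq_one _)
    rw [this, orderOf_one] at o
    exact hp.ne_one o.symm
  refine ⟨Q, (NN P x).comap f, fun e => ?_, ⟨bv.ne, eT ▸ ab, ?_, fun g => ?_, fun u hu h1 => ?_⟩,
    eT ▸ nd⟩
  · obtain ⟨u, hu, e1, e2⟩ := k.ne h hK R
    obtain ⟨u, rfl⟩ := hG u e1 (Or.inl hu)
    have : u ∈ (Q : Subgroup X) := hU ▸ hu
    rw [e, Subgroup.mem_bot] at this
    exact e2 (by rw [this, map_one])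
  · rw [eT]
    refine fun n hn => Subgroup.mem_normalizer_iff.2 fun t => ?_
    simpa using Subgroup.mem_normalizer_iff.1 (h.T_nrm hn) (f t)
  · obtain ⟨u, hu, n, hn, v, hv, e⟩ := bru g
    exact ⟨u, by rwa [← hU] at hu, n, hn, v, by rwa [← hU] at hv, e⟩
  · rw [eT, padicValNat.eq_zero_of_not_dvd nd]
    refine one_le_padicValNat_of_dvd Subgroup.index_ne_zero_of_finite (by_contra fun d => ?_)
    obtain ⟨t, ht, ⟨t, rfl⟩, e1, e2⟩ := k.orb h hK R hp hq hG
      (show u ∈ (UU x b).comap f from hU ▸ hu) fun e => h1 (hf (e.trans (map_one f).symm))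
    have : ((Subgroup.centralizer {u}).subgroupOf ((TT P x).comap f)).Normal := by
      refine ⟨fun n hn m => ?_⟩
      have e : m * n * m⁻¹ = n := by
        rw [mul_inv_eq_iff_eq_mul]
        exact Subtype.ext (ab _ m.2 _ n.2)
      rwa [e]
    have c : t ^ (Subgroup.centralizer {u}).relIndex ((TT P x).comap f) ∈
        Subgroup.centralizer {u} :=
      Subgroup.pow_index_mem ((Subgroup.centralizer {u}).subgroupOf ((TT P x).comap f)) ⟨t, ht⟩
    have tp : t ^ p = 1 := hf (by rw [map_pow, e1, map_one])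
    obtain ⟨i, hi⟩ := exists_pow_eq_self_of_coprime (x := t)
      (((hp.coprime_iff_not_dvd.2 d).symm).coprime_dvd_right (orderOf_dvd_of_pow_eq_one tp))
    have c2 := pow_mem c i
    rw [hi] at c2
    refine e2 ?_
    rw [mul_inv_eq_iff_eq_mul, ← map_mul, ← map_mul, Subgroup.mem_centralizer_iff.1 c2 u rfl]

end

theorem Twi.str {p : ℕ} {X : Type} [Group X] [Finite X] (h : Twi p X) (hp : p.Prime) :
    ∃ (r : ℕ) (_ : Fact r.Prime) (U : Sylow r X) (N : Subgroup X), (U : Subgroup X) ≠ ⊥ ∧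
      BW p U N ∧ ¬ p ∣ (Tor U N).relIndex N := by
  obtain ⟨ι, M, N, K, Y, _, _, _, _, P, _, _, _, _, b, _, _, _, _, x, ρ, φ, σ, f, h, h1, h2, hf,
    fx, hG, h5, hq, ht⟩ := h
  obtain ⟨r, hr⟩ := CharP.exists K
  have : Fact r.Prime := ⟨CharP.char_is_prime K r⟩
  exact ⟨r, this, xz_bw ⟨h1, h2⟩ h (ht.elim (fun c => rt_d4 c h1 hp h5)
    fun c => rt_e6 c.1 h1 c.2 hp h5) hp h5 hq hf fx hG⟩

end Pool.Agent.Lib.MP_1ae3da_al.JV
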